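import Pool.Agent.Work.MP_6f5fa7_al.BBox

/-!
# S01311 (MP_41f637_al) from the black box `Mon.BB`

The variety `V` of `T` (2-generated, nonabelian, `y = Φ(x, y)` for all noncommuting pairs):
`F_3(V)` maps onto `T^n` for every `n`, so it discriminates `V`.  The word
`q(a1, a2, a3)` (equal to `a1` if `a1` commutes with `a2` and `a3` and `1` otherwise) gives an
element which is central in `F_3(V)` but not in `F_4(V)`.
-/

set_option autoImplicit false

namespace Pool.Agent.Work.MP_41f637_al.FromBB

open Pool.Agent.Work.MP_6f5fa7_al Pool.Agent.Work.MP_6f5fa7_al.OneWord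

open scoped commutatorElement

/-- The verbal subgroup of the free group of rank `s`. -/
def VS (W : Set (FreeGroup ℕ)) (s : ℕ) : Subgroup (FreeGroup (Fin s)) :=
  Subgroup.normalClosure {g : FreeGroup (Fin s) | ∃ u ∈ W, ∃ φ : FreeGroup ℕ →* FreeGroup (Fin s),
    φ u = g}

instance (W : Set (FreeGroup ℕ)) (s : ℕ) : (VS W s).Normal := by
  unfold VS; infer_instance

theorem mem_VS {T : Type} [Group T] {s : ℕ} (w : FreeGroup (Fin s)) :
    w ∈ VS (laws T) s ↔ ∀ f : FreeGroup (Fin s) →* T, f w = 1 := by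
  constructor
  · intro hw f
    have h1 : VS (laws T) s ≤ f.ker := by
      apply Subgroup.normalClosure_le_normal
      rintro g ⟨u, hu, φ, rfl⟩
      rw [SetLike.mem_coe, MonoidHom.mem_ker]
      have h2 := hu (fun i => f (φ (FreeGroup.of i)))
      have h3 : f.comp φ = FreeGroup.lift (fun i => f (φ (FreeGroup.of i))) := by
        apply FreeGroup.ext_hom
        intro i
        simp
      rw [← h3] at h2
      exact h2
    exact h1 hw
  · intro h
    apply Subgroup.subset_normalClosure
    refine ⟨FreeGroup.map Fin.val w, ?_, FreeGroup.lift (fun i : ℕ => if h : i < s then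
      FreeGroup.of ⟨i, h⟩ else 1), ?_⟩
    · intro v
      exact h ((FreeGroup.lift v).comp (FreeGroup.map Fin.val))
    · have h1 : (FreeGroup.lift (fun i : ℕ => if h : i < s then
          (FreeGroup.of ⟨i, h⟩ : FreeGroup (Fin s)) else 1)).comp (FreeGroup.map Fin.val) =
          MonoidHom.id (FreeGroup (Fin s)) := by
        apply FreeGroup.ext_hom
        intro i
        simp
      exact DFunLike.congr_fun h1 w

/-- The hom from the relatively free group induced by a hom to `T`. -/
def ind {T : Type} [Group T] {s : ℕ} (f : FreeGroup (Fin s) →* T) :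
    (FreeGroup (Fin s) ⧸ VS (laws T) s) →* T :=
  QuotientGroup.lift (VS (laws T) s) f (fun w hw => (mem_VS w).1 hw f)

theorem ind_mk {T : Type} [Group T] {s : ℕ} (f : FreeGroup (Fin s) →* T) (w : FreeGroup (Fin s)) :
    ind f (QuotientGroup.mk w) = f w := rfl

/-- An element of the relatively free group is trivial if all homs into `T` kill it. -/
theorem eq_one_of {T : Type} [Group T] {s : ℕ} (g : FreeGroup (Fin s) ⧸ VS (laws T) s)
    (h : ∀ f : (FreeGroup (Fin s) ⧸ VS (laws T) s) →* T, f g = 1) : g = 1 := by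
  obtain ⟨w, rfl⟩ := QuotientGroup.mk_surjective g
  rw [QuotientGroup.eq_one_iff, mem_VS]
  intro f
  exact h (ind f)

section main

variable {T : Type} [Group T] {Φ : FreeGroup (Fin 2)}
  (hΦ : Φ ∈ commutator (FreeGroup (Fin 2))) (hS : Star Φ T)

/-- `x` if `x` commutes with `y` and `z`, otherwise `1`. -/
def qw (Φ : FreeGroup (Fin 2)) {G : Type} [Group G] (x y z : G) : G :=
  kap Φ z 1 (kap Φ y 1 x)

theorem qw_hom (Φ : FreeGroup (Fin 2)) {G H : Type} [Group G] [Group H] (f : G →* H)
    (x y z : G) : f (qw Φ x y z) = qw Φ (f x) (f y) (f z) := by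
  unfold qw
  rw [kap_hom, kap_hom, map_one]

include hΦ hS in
theorem qw_star (x y z : T) : qw Φ x y z = 1 ∨
    (qw Φ x y z = x ∧ y * x = x * y ∧ z * x = x * z) := by
  unfold qw
  by_cases h1 : y * x = x * y
  · rw [kap_comm hΦ y 1 x h1 (by simp)]
    by_cases h2 : z * x = x * z
    · rw [kap_comm hΦ z 1 x h2 (by simp)]
      exact Or.inr ⟨rfl, h1, h2⟩
    · left
      exact kap_star1 hΦ hS z x h2
  · left
    rw [kap_star1 hΦ hS y x h1, kap_one]

include hΦ hS in
/-- `F_3(V)` maps onto the powers of `T`. -/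
theorem onto_power {ι : Type} [Finite ι] (a b : T) (hcl : Subgroup.closure {a, b} = ⊤)
    (hab : a * b ≠ b * a) (t : ι → T) (ht : Function.Injective t) :
    Function.Surjective (FreeGroup.lift ![fun _ => a, fun _ => b, t] :
      FreeGroup (Fin 3) →* (ι → T)) := by
  classical
  have := Fintype.ofFinite ι
  set π : FreeGroup (Fin 3) →* (ι → T) := FreeGroup.lift ![fun _ => a, fun _ => b, t] with hπ
  have hA : (fun _ => a) ∈ π.range := ⟨FreeGroup.of 0, by simp [hπ]⟩
  have hB : (fun _ => b) ∈ π.range := ⟨FreeGroup.of 1, by simp [hπ]⟩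
  have hT : t ∈ π.range := ⟨FreeGroup.of 2, by simp [hπ]⟩
  -- constants
  have hconst : ∀ u : T, (fun _ => u) ∈ π.range := by
    intro u
    let c : T →* (ι → T) := Pi.constMonoidHom ι T
    have h1 : (Subgroup.closure {a, b}).map c ≤ π.range := by
      rw [MonoidHom.map_closure, Subgroup.closure_le]
      rintro _ ⟨x, hx, rfl⟩
      rcases hx with rfl | rfl
      · exact hA
      · exact hB
    rw [hcl] at h1
    exact h1 ⟨u, Subgroup.mem_top u, rfl⟩
  -- the center of `T` is trivial
  have hcenter : ∀ z : T, z ∈ Subgroup.center T → z = 1 := by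
    intro z hz
    rw [Subgroup.mem_center_iff] at hz
    exact hS.eq_one hΦ a b z hab (hz a).symm (hz b).symm
  -- `Φ` values stay in the range
  have hev : ∀ x ∈ π.range, ∀ y ∈ π.range, ev Φ x y ∈ π.range := by
    rintro _ ⟨x, rfl⟩ _ ⟨y, rfl⟩
    exact ⟨ev Φ x y, ev_hom Φ π x y⟩
  have hkap : ∀ w ∈ π.range, ∀ s ∈ π.range, ∀ z ∈ π.range, kap Φ w s z ∈ π.range := by
    intro w hw s hs z hz
    unfold kap
    exact Subgroup.mul_mem _ (Subgroup.mul_mem _ hz (hev w hw s hs))
      (Subgroup.inv_mem _ (hev w hw _ (Subgroup.mul_mem _ hz hs)))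
  have hkapL : ∀ w ∈ π.range, ∀ z ∈ π.range,
      kapL Φ [fun _ => a, fun _ => b] w z ∈ π.range := by
    intro w hw z hz
    show kap Φ w (fun _ => b) (kap Φ w (fun _ => a) (kap Φ w 1 z)) ∈ π.range
    exact hkap w hw _ hB _ (hkap w hw _ hA _ (hkap w hw _ (Subgroup.one_mem _) z hz))
  -- elements supported at one coordinate
  have hsingle : ∀ (i : ι) (u : T), Pi.mulSingle i u ∈ π.range := by
    intro i u
    have h1 : t * (fun _ => (t i)⁻¹) ∈ π.range := Subgroup.mul_mem _ hT (hconst _)
    have h2 := hkapL _ h1 _ (hconst u)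
    have h3 : kapL Φ [fun _ => a, fun _ => b] (t * fun _ => (t i)⁻¹) (fun _ => u) =
        (Pi.mulSingle i u : ι → T) := by
      funext j
      have h4 := kapL_hom Φ (Pi.evalMonoidHom (fun _ : ι => T) j) [fun _ => a, fun _ => b]
        (t * fun _ => (t i)⁻¹) (fun _ => u)
      have h5 : (kapL Φ [fun _ => a, fun _ => b] (t * fun _ => (t i)⁻¹) (fun _ => u)) j =
          kapL Φ [a, b] (t j * (t i)⁻¹) u := h4
      rw [h5]
      by_cases hji : j = i
      · subst hji
        rw [Pi.mulSingle_eq_same, mul_inv_cancel]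
        exact kapL_central hΦ _ _ _ (Subgroup.one_mem _)
      · rw [Pi.mulSingle_eq_of_ne hji]
        apply kapL_star hΦ hS
        · rw [← hcl]
          congr 1
          ext x
          simp
        · intro hc
          apply hji
          apply ht
          exact mul_inv_eq_one.1 (hcenter _ hc)
    rw [h3] at h2
    exact h2
  intro g
  have h2 : g ∈ π.range := by
    rw [← Finset.noncommProd_mulSingle g]
    exact Subgroup.noncommProd_mem _ _ (fun i _ => hsingle i (g i))
  exact h2

include hΦ hS in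
theorem S01311_aux {p : ℕ} (hp : p.Prime) (hexp : ∀ x : T, x ^ p = 1) (a b : T)
    (hcl : Subgroup.closure {a, b} = ⊤) (hab : a * b ≠ b * a) :
    (FreeGroup.of (0 : Fin 1)) ∉ VS (laws T) 1 ∧
    (∀ (s : ℕ) (ws : Finset (FreeGroup (Fin s))), (∀ w ∈ ws, w ∉ VS (laws T) s) →
      ∃ f : Fin s → (FreeGroup (Fin 3) ⧸ VS (laws T) 3), ∀ w ∈ ws, FreeGroup.lift f w ≠ 1) ∧
    ¬ (∀ (k : ℕ) (ws : Finset (FreeGroup (Fin 3 ⊕ Fin k))) (s : ℕ) (hs : 3 ≤ s),
      (∃ x : Fin k → (FreeGroup (Fin s) ⧸ VS (laws T) s), ∀ w ∈ ws, FreeGroup.lift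
        (Sum.elim (fun j : Fin 3 => (QuotientGroup.mk (FreeGroup.of (Fin.castLE hs j)) :
          FreeGroup (Fin s) ⧸ VS (laws T) s)) x) w ≠ 1) →
      ∃ y : Fin k → (FreeGroup (Fin 3) ⧸ VS (laws T) 3), ∀ w ∈ ws, FreeGroup.lift
        (Sum.elim (fun j : Fin 3 => (QuotientGroup.mk (FreeGroup.of j) :
          FreeGroup (Fin 3) ⧸ VS (laws T) 3)) y) w ≠ 1) := by
  classical
  have hinf : Infinite T := infinite_of_star hΦ hS hp hexp a b hab hcl
  refine ⟨?_, ?_, ?_⟩
  · intro h
    have h1 := (mem_VS (T := T) _).1 h (FreeGroup.lift (fun _ => a))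
    rw [FreeGroup.lift_apply_of] at h1
    apply hab
    rw [h1]; simp
  · intro s ws hws
    have hex : ∀ w : ws, ∃ f : FreeGroup (Fin s) →* T, f w ≠ 1 := by
      intro w
      have h1 := hws w w.2
      rw [mem_VS] at h1
      push Not at h1
      exact h1
    choose F hF using hex
    obtain ⟨t⟩ : Nonempty (ws ↪ T) :=
      ⟨(Finite.equivFin ws).toEmbedding.trans (Fin.valEmbedding.trans (Infinite.natEmbedding T))⟩
    have hsurj := onto_power hΦ hS a b hcl hab t t.injective
    let π : FreeGroup (Fin 3) →* (ws → T) := FreeGroup.lift ![fun _ => a, fun _ => b, t]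
    have hπ : ∀ w ∈ VS (laws T) 3, π w = 1 := by
      intro w hw
      funext i
      exact (mem_VS w).1 hw ((Pi.evalMonoidHom (fun _ : ws => T) i).comp π)
    let π' : (FreeGroup (Fin 3) ⧸ VS (laws T) 3) →* (ws → T) :=
      QuotientGroup.lift (VS (laws T) 3) π hπ
    have hsurj' : Function.Surjective π' := by
      intro g
      obtain ⟨x, hx⟩ := hsurj g
      exact ⟨QuotientGroup.mk x, hx⟩
    choose f hf using fun j : Fin s => hsurj' (fun w => F w (FreeGroup.of j))
    refine ⟨f, ?_⟩
    intro w hw hcon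
    apply hF ⟨w, hw⟩
    have h1 : ((Pi.evalMonoidHom (fun _ : ws => T) ⟨w, hw⟩).comp π').comp (FreeGroup.lift f) =
        F ⟨w, hw⟩ := by
      apply FreeGroup.ext_hom
      intro j
      simp only [MonoidHom.comp_apply, FreeGroup.lift_apply_of, hf]
      rfl
    rw [← h1]
    simp only [MonoidHom.comp_apply]
    rw [hcon, map_one, map_one]
  · intro hcon
    let w0 : FreeGroup (Fin 3 ⊕ Fin 1) :=
      ⁅qw Φ (FreeGroup.of (Sum.inl 0) : FreeGroup (Fin 3 ⊕ Fin 1)) (FreeGroup.of (Sum.inl 1))
        (FreeGroup.of (Sum.inl 2)), (FreeGroup.of (Sum.inr 0) : FreeGroup (Fin 3 ⊕ Fin 1))⁆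
    obtain ⟨y, hy⟩ := hcon 1 {w0} 4 (by norm_num) (by
      refine ⟨fun _ => QuotientGroup.mk (FreeGroup.of 3), ?_⟩
      intro w hw h
      rw [Finset.mem_singleton] at hw
      subst hw
      have h1 := congrArg (ind (T := T) (FreeGroup.lift ![a, 1, 1, b])) h
      simp only [w0, map_commutatorElement, qw_hom, FreeGroup.lift_apply_of, Sum.elim_inl,
        Sum.elim_inr, map_one, ind_mk] at h1
      have h2 : qw Φ a 1 1 = a := by
        unfold qw
        rw [kap_comm hΦ 1 1 a (by simp) (by simp), kap_comm hΦ 1 1 a (by simp) (by simp)]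
      apply hab
      have h3 : ⁅qw Φ a 1 1, b⁆ = 1 := h1
      rw [h2] at h3
      exact commutatorElement_eq_one_iff_commute.1 h3)
    apply hy w0 (Finset.mem_singleton_self _)
    apply eq_one_of
    intro f
    simp only [w0, map_commutatorElement, qw_hom, FreeGroup.lift_apply_of, Sum.elim_inl,
      Sum.elim_inr]
    rw [commutatorElement_eq_one_iff_commute]
    rcases qw_star hΦ hS (f (QuotientGroup.mk (FreeGroup.of 0)))
      (f (QuotientGroup.mk (FreeGroup.of 1))) (f (QuotientGroup.mk (FreeGroup.of 2))) with h | h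
    · rw [h]
      exact Commute.one_left _
    · obtain ⟨h1, h2, h3⟩ := h
      rw [h1]
      -- everything in the image of `f` commutes with the image of the first letter
      have hall : ∀ u : FreeGroup (Fin 3) ⧸ VS (laws T) 3,
          Commute (f (QuotientGroup.mk (FreeGroup.of 0))) (f u) := by
        intro u
        obtain ⟨u, rfl⟩ := QuotientGroup.mk_surjective u
        induction u using FreeGroup.induction_on with
        | C1 =>
          have : (QuotientGroup.mk (1 : FreeGroup (Fin 3)) : FreeGroup (Fin 3) ⧸ VS (laws T) 3) = 1 :=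
            rfl
          rw [this, map_one]
          exact Commute.one_right _
        | of i =>
          fin_cases i
          · exact Commute.refl _
          · exact h2.symm
          · exact h3.symm
        | inv_of i hi =>
          rw [QuotientGroup.mk_inv, map_inv]
          exact hi.inv_right
        | mul u v hu hv =>
          rw [QuotientGroup.mk_mul, map_mul]
          exact hu.mul_right hv
      exact hall (y 0)

end main

/-- **S01311 from the black box.** -/
theorem S01311_of_BB (h : Mon.BB) :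
    ∃ (W : Set (FreeGroup ℕ)) (r : ℕ), 0 < r ∧
      (FreeGroup.of (0 : Fin 1)) ∉
        Subgroup.normalClosure
          {g : FreeGroup (Fin 1) | ∃ w ∈ W, ∃ φ : FreeGroup ℕ →* FreeGroup (Fin 1), φ w = g} ∧
      (∀ (s : ℕ) (ws : Finset (FreeGroup (Fin s))),
        (∀ w ∈ ws, w ∉ Subgroup.normalClosure
          {g : FreeGroup (Fin s) | ∃ u ∈ W, ∃ φ : FreeGroup ℕ →* FreeGroup (Fin s), φ u = g}) →
        ∃ f : Fin s → (FreeGroup (Fin r) ⧸ Subgroup.normalClosure
          {g : FreeGroup (Fin r) | ∃ u ∈ W, ∃ φ : FreeGroup ℕ →* FreeGroup (Fin r), φ u = g}),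
          ∀ w ∈ ws, FreeGroup.lift f w ≠ 1) ∧
      ¬ (∀ (k : ℕ) (ws : Finset (FreeGroup (Fin r ⊕ Fin k))) (s : ℕ) (hs : r ≤ s),
        (∃ x : Fin k → (FreeGroup (Fin s) ⧸ Subgroup.normalClosure
            {g : FreeGroup (Fin s) | ∃ u ∈ W, ∃ φ : FreeGroup ℕ →* FreeGroup (Fin s), φ u = g}),
          ∀ w ∈ ws, FreeGroup.lift
            (Sum.elim
              (fun j : Fin r => (QuotientGroup.mk (FreeGroup.of (Fin.castLE hs j)) :
                FreeGroup (Fin s) ⧸ Subgroup.normalClosure
                  {g : FreeGroup (Fin s) | ∃ u ∈ W, ∃ φ : FreeGroup ℕ →* FreeGroup (Fin s), φ u = g}))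
              x) w ≠ 1) →
        ∃ y : Fin k → (FreeGroup (Fin r) ⧸ Subgroup.normalClosure
            {g : FreeGroup (Fin r) | ∃ u ∈ W, ∃ φ : FreeGroup ℕ →* FreeGroup (Fin r), φ u = g}),
          ∀ w ∈ ws, FreeGroup.lift
            (Sum.elim
              (fun j : Fin r => (QuotientGroup.mk (FreeGroup.of j) :
                FreeGroup (Fin r) ⧸ Subgroup.normalClosure
                  {g : FreeGroup (Fin r) | ∃ u ∈ W, ∃ φ : FreeGroup ℕ →* FreeGroup (Fin r), φ u = g}))
              y) w ≠ 1) := by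
  obtain ⟨p, T, _, Φ, hp, hexp, ⟨a, b, hcl, hab⟩, hΦ, hS⟩ := BBox.data h
  exact ⟨laws T, 3, by norm_num, S01311_aux hΦ hS hp hexp a b hcl hab⟩

end Pool.Agent.Work.MP_41f637_al.FromBB
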