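import Pool.Agent.Work.MP_41f637_al.Main

/-!
# MP_41f637_al: relatively free groups
-/

set_option autoImplicit false

namespace Pool.Agent.Work.MP_41f637_al

/-- The verbal subgroup of the free group of rank `s` defined by the set `W` of words. -/
abbrev Verb (W : Set (FreeGroup ℕ)) (s : ℕ) : Subgroup (FreeGroup (Fin s)) :=
  Subgroup.normalClosure
    {g : FreeGroup (Fin s) | ∃ u ∈ W, ∃ φ : FreeGroup ℕ →* FreeGroup (Fin s), φ u = g}

/-- Laws vanish in relatively free groups. -/
theorem lift_eq_one (W : Set (FreeGroup ℕ)) (s q : ℕ) (t : Fin s → FreeGroup (Fin q) ⧸ Verb W q)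
    (w : FreeGroup (Fin s)) (hw : w ∈ Verb W s) : FreeGroup.lift t w = 1 := by
  choose t' ht' using fun j => QuotientGroup.mk'_surjective (Verb W q) (t j)
  have hle : Verb W s ≤ (FreeGroup.lift t).ker := by
    refine Subgroup.normalClosure_le_normal ?_
    rintro g ⟨u, hu, φ, rfl⟩
    change FreeGroup.lift t (φ u) = 1
    have h1 : FreeGroup.lift t = (QuotientGroup.mk' (Verb W q)).comp (FreeGroup.lift t') := by
      refine FreeGroup.ext_hom _ _ ?_
      intro j
      rw [FreeGroup.lift_apply_of, MonoidHom.comp_apply, FreeGroup.lift_apply_of]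
      exact (ht' j).symm
    rw [h1, MonoidHom.comp_apply, QuotientGroup.mk'_apply, QuotientGroup.eq_one_iff]
    exact Subgroup.subset_normalClosure ⟨u, hu, (FreeGroup.lift t').comp φ, rfl⟩
  exact hle hw

/-- Evaluation and renaming of variables. -/
theorem lift_map {G ι κ : Type*} [Group G] (f : κ → G) (e : ι → κ) (w : FreeGroup ι) :
    FreeGroup.lift f (FreeGroup.map e w) = FreeGroup.lift (fun i => f (e i)) w := by
  have h : (FreeGroup.lift f).comp (FreeGroup.map e) = FreeGroup.lift (fun i => f (e i)) := by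
    refine FreeGroup.ext_hom _ _ ?_
    intro i
    simp
  exact congrArg (fun F : FreeGroup ι →* G => F w) h

/-- Freeness of the relatively free group. -/
theorem exists_endo (W : Set (FreeGroup ℕ)) (r : ℕ)
    (t : Fin r → FreeGroup (Fin r) ⧸ Verb W r) :
    ∃ φ : (FreeGroup (Fin r) ⧸ Verb W r) →* (FreeGroup (Fin r) ⧸ Verb W r),
      ∀ j, φ (QuotientGroup.mk (FreeGroup.of j)) = t j := by
  refine ⟨QuotientGroup.lift (Verb W r) (FreeGroup.lift t) (lift_eq_one W r r t), ?_⟩
  intro j
  change FreeGroup.lift t (FreeGroup.of j) = t j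
  exact FreeGroup.lift_apply_of

/-- The free generators generate. -/
theorem closure_gen (W : Set (FreeGroup ℕ)) (r : ℕ) :
    Subgroup.closure (Set.range (fun j : Fin r =>
      (QuotientGroup.mk (FreeGroup.of j) : FreeGroup (Fin r) ⧸ Verb W r))) = ⊤ := by
  have h1 : Set.range (fun j : Fin r =>
      (QuotientGroup.mk (FreeGroup.of j) : FreeGroup (Fin r) ⧸ Verb W r))
      = (QuotientGroup.mk' (Verb W r)) '' Set.range FreeGroup.of := by
    ext g
    constructor
    · rintro ⟨j, rfl⟩
      exact ⟨FreeGroup.of j, ⟨j, rfl⟩, rfl⟩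
    · rintro ⟨_, ⟨j, rfl⟩, rfl⟩
      exact ⟨j, rfl⟩
  rw [h1, ← MonoidHom.map_closure, FreeGroup.closure_range_of, ← MonoidHom.range_eq_map,
    QuotientGroup.range_mk']

end Pool.Agent.Work.MP_41f637_al
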