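import Pool.Agent.Work.MP_41f637_al.ZarRing

/-!
# MP_41f637_al: finitely generated linear groups over commutative rings
-/

set_option autoImplicit false

noncomputable section

namespace Pool.Agent.Work.MP_41f637_al.Lin

open Matrix

/-- The map on general linear groups induced by an injective ring homomorphism is injective. -/
theorem glmap_injective {n : Type*} [Fintype n] [DecidableEq n] {A B : Type*} [CommRing A]
    [CommRing B] (f : A →+* B) (hf : Function.Injective f) :
    Function.Injective (Matrix.GeneralLinearGroup.map (n := n) f) := by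
  intro g h hgh
  apply Units.ext
  ext p q
  apply hf
  have := congrArg (fun u : GL n B => (u : Matrix n n B) p q) hgh
  simpa using this

/-- The ultrapower of a finitely generated linear group over a commutative ring is good. -/
theorem good_of_linear {E : Type} [Group E] {r : ℕ} (a : Fin r → E)
    (ha : Subgroup.closure (Set.range a) = ⊤) {S : Type} [CommRing S] {d : ℕ}
    (φ : E →* GL (Fin d) S) (hφ : Function.Injective φ) : Good (UP E) := by
  classical
  -- the ring of coefficients
  let T : Set S := Set.range (fun t : Fin r × Fin d × Fin d × Bool =>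
    ((if t.2.2.2 then φ (a t.1) else (φ (a t.1))⁻¹ : GL (Fin d) S) : Matrix (Fin d) (Fin d) S)
      t.2.1 t.2.2.1)
  have hTfin : T.Finite := Set.finite_range _
  let A : Subalgebra ℤ S := Algebra.adjoin ℤ T
  have hAN : IsNoetherianRing A :=
    isNoetherianRing_of_fg ⟨hTfin.toFinset, by simp [A]⟩
  have hTA : ∀ (i : Fin r) (p q : Fin d) (b : Bool),
      ((if b then φ (a i) else (φ (a i))⁻¹ : GL (Fin d) S) : Matrix (Fin d) (Fin d) S) p q ∈ A :=
    fun i p q b => Algebra.subset_adjoin ⟨(i, p, q, b), rfl⟩
  let ιA : A →+* S := A.val.toRingHom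
  have hιA : Function.Injective ιA := Subtype.val_injective
  let F : GL (Fin d) A →* GL (Fin d) S := Matrix.GeneralLinearGroup.map ιA
  have hF : Function.Injective F := glmap_injective ιA hιA
  have hrange : ∀ e, φ e ∈ F.range := by
    have h1 : Subgroup.closure (Set.range a) ≤ F.range.comap φ := by
      rw [Subgroup.closure_le]
      rintro _ ⟨i, rfl⟩
      change φ (a i) ∈ F.range
      let X : Matrix (Fin d) (Fin d) A := fun p q => ⟨(φ (a i) : Matrix (Fin d) (Fin d) S) p q, by
        simpa using hTA i p q true⟩
      let Y : Matrix (Fin d) (Fin d) A :=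
        fun p q => ⟨(((φ (a i))⁻¹ : GL (Fin d) S) : Matrix (Fin d) (Fin d) S) p q, by
          simpa using hTA i p q false⟩
      have hX : ιA.mapMatrix X = (φ (a i) : Matrix (Fin d) (Fin d) S) := by
        ext p q
        rfl
      have hY : ιA.mapMatrix Y = (((φ (a i))⁻¹ : GL (Fin d) S) : Matrix (Fin d) (Fin d) S) := by
        ext p q
        rfl
      have hinj : Function.Injective (ιA.mapMatrix (m := Fin d)) := by
        intro M N hMN
        ext p q
        have := congrArg (fun Z : Matrix (Fin d) (Fin d) S => Z p q) hMN
        exact this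
      refine ⟨⟨X, Y, ?_, ?_⟩, ?_⟩
      · apply hinj
        rw [map_mul, hX, hY, map_one]
        exact (φ (a i)).mul_inv
      · apply hinj
        rw [map_mul, hX, hY, map_one]
        exact (φ (a i)).inv_mul
      · apply Units.ext
        exact hX
    intro e
    have h2 : e ∈ F.range.comap φ := by
      apply h1
      rw [ha]
      exact Subgroup.mem_top e
    exact h2
  let ψ : E →* GL (Fin d) A :=
    (MonoidHom.ofInjective hF).symm.toMonoidHom.comp (φ.codRestrict F.range hrange)
  have hψ : ∀ e, F (ψ e) = φ e := by
    intro e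
    have h1 : (MonoidHom.ofInjective hF) (ψ e) = φ.codRestrict F.range hrange e := by
      simp [ψ]
    exact congrArg Subtype.val h1
  have hψinj : Function.Injective ψ := by
    intro x y hxy
    apply hφ
    rw [← hψ x, ← hψ y, hxy]
  obtain ⟨J, hJ, B, hB, f, hf1, hf2⟩ := exists_rings A
  let Ψ : E →* ∀ j, GL (Fin d) (B j) :=
    MonoidHom.pi fun j => (Matrix.GeneralLinearGroup.map (f j)).comp ψ
  refine good_up hf1 Ψ ?_
  rw [injective_iff_map_eq_one]
  intro e he
  apply (injective_iff_map_eq_one ψ).mp hψinj
  apply Units.ext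
  ext p q
  have h3 : (ψ e : Matrix (Fin d) (Fin d) A) p q - (1 : Matrix (Fin d) (Fin d) A) p q = 0 := by
    apply hf2
    intro j
    have h4 := congrFun he j
    have h5 := congrArg (fun u : GL (Fin d) (B j) => (u : Matrix (Fin d) (Fin d) (B j)) p q) h4
    rw [map_sub, sub_eq_zero]
    have h6 : f j ((1 : Matrix (Fin d) (Fin d) A) p q) = (1 : Matrix (Fin d) (Fin d) (B j)) p q := by
      rw [Matrix.one_apply, Matrix.one_apply]
      split_ifs <;> simp
    rw [h6]
    exact h5
  have h7 := sub_eq_zero.mp h3
  rw [h7]
  rfl

end Pool.Agent.Work.MP_41f637_al.Lin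

end
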