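import Mathlib

/-!
# MP_41f637_al: metabelian groups are linear of degree two over commutative rings
-/

set_option autoImplicit false

noncomputable section

namespace Pool.Agent.Work.MP_41f637_al.Lin

open Matrix

/-- A metabelian group embeds in `GL_2` over a commutative ring (Kaloujnine–Krasner embedding in an
unrestricted wreath product of abelian groups, and a square zero extension of a group ring). -/
theorem metabelian_linear {G : Type} [Group G]
    (hM : ∀ x ∈ commutator G, ∀ y ∈ commutator G, x * y = y * x) :
    ∃ (R : Type) (_ : CommRing R) (φ : G →* GL (Fin 2) R), Function.Injective φ := by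
  classical
  let instM : CommGroup (commutator G) :=
    { (inferInstance : Group (commutator G)) with
      mul_comm := fun x y => Subtype.ext (hM x x.2 y y.2) }
  let Q := Abelianization G
  let N := Q → Additive (commutator G)
  -- the shift action
  let sh : Q →* Module.End ℤ N :=
    { toFun := fun q => AddMonoidHom.toIntLinearMap
        { toFun := fun f t => f (q⁻¹ * t)
          map_zero' := rfl
          map_add' := fun f g => rfl }
      map_one' := by
        ext f t
        simp
      map_mul' := by
        intro p q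
        ext f t
        simp [mul_assoc] }
  have hsh : ∀ (q : Q) (f : N) (t : Q), sh q f t = f (q⁻¹ * t) := fun q f t => rfl
  let A := MonoidAlgebra ℤ Q
  let act : A →ₐ[ℤ] Module.End ℤ N := MonoidAlgebra.lift ℤ (Module.End ℤ N) Q sh
  let _ : Module A N := Module.compHom N act.toRingHom
  let _ : Module Aᵐᵒᵖ N := Module.compHom N ((RingHom.id A).fromOpposite mul_comm)
  have : IsCentralScalar A N := ⟨fun r m => rfl⟩
  let R := TrivSqZeroExt A N
  have hsmul : ∀ (q : Q) (f : N), (MonoidAlgebra.of ℤ Q q : A) • f = sh q f := by
    intro q f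
    change act (MonoidAlgebra.of ℤ Q q) f = sh q f
    rw [MonoidAlgebra.lift_of]
  -- the cocycle
  have hsurj : Function.Surjective (Abelianization.of : G →* Q) := QuotientGroup.mk'_surjective _
  let s : Q → G := fun q => (hsurj q).choose
  have hs : ∀ q, (Abelianization.of (s q) : Q) = q := fun q => (hsurj q).choose_spec
  have hmem : ∀ (g : G) (t : Q), (s t)⁻¹ * g * s ((Abelianization.of g)⁻¹ * t) ∈ commutator G := by
    intro g t
    rw [← Abelianization.ker_of, MonoidHom.mem_ker, map_mul, map_mul, map_inv, hs, hs]
    simp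
  let c : G → N := fun g t => Additive.ofMul ⟨_, hmem g t⟩
  have hc1 : c 1 = 0 := by
    funext t
    apply Additive.toMul.injective
    apply Subtype.ext
    change (s t)⁻¹ * 1 * s ((Abelianization.of 1)⁻¹ * t) = 1
    simp
  have hcmul : ∀ g h, c (g * h) = sh (Abelianization.of g) (c h) + c g := by
    intro g h
    funext t
    rw [Pi.add_apply, hsh, add_comm]
    apply Additive.toMul.injective
    apply Subtype.ext
    change (s t)⁻¹ * (g * h) * s ((Abelianization.of (g * h))⁻¹ * t) =
      (s t)⁻¹ * g * s ((Abelianization.of g)⁻¹ * t) * ((s ((Abelianization.of g)⁻¹ * t))⁻¹ * h *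
        s ((Abelianization.of h)⁻¹ * ((Abelianization.of g)⁻¹ * t)))
    have h1 : (Abelianization.of (g * h) : Q)⁻¹ * t
        = (Abelianization.of h)⁻¹ * ((Abelianization.of g)⁻¹ * t) := by
      rw [map_mul, _root_.mul_inv_rev, mul_assoc]
    rw [h1]
    group
  let X : G →* Matrix (Fin 2) (Fin 2) R :=
    { toFun := fun g => !![TrivSqZeroExt.inl (MonoidAlgebra.of ℤ Q (Abelianization.of g)),
        TrivSqZeroExt.inr (c g); 0, 1]
      map_one' := by
        rw [hc1, map_one, map_one, TrivSqZeroExt.inl_one, TrivSqZeroExt.inr_zero]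
        exact Matrix.one_fin_two.symm
      map_mul' := by
        intro g h
        rw [Matrix.mul_fin_two, map_mul, map_mul, hcmul]
        simp only [mul_zero, add_zero, mul_one, zero_mul, zero_add]
        rw [← TrivSqZeroExt.inl_mul, TrivSqZeroExt.inl_mul_inr, hsmul, TrivSqZeroExt.inr_add] }
  refine ⟨R, inferInstance, X.toHomUnits, ?_⟩
  rw [injective_iff_map_eq_one]
  intro g hg
  have h1 : X g = 1 := by
    have := congrArg (fun u : GL (Fin 2) R => (u : Matrix (Fin 2) (Fin 2) R)) hg
    exact this
  have h2 : (TrivSqZeroExt.inl (MonoidAlgebra.of ℤ Q (Abelianization.of g)) : R) = 1 := by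
    have := congrArg (fun u : Matrix (Fin 2) (Fin 2) R => u 0 0) h1
    simpa [X] using this
  have h3 : (TrivSqZeroExt.inr (c g) : R) = 0 := by
    have := congrArg (fun u : Matrix (Fin 2) (Fin 2) R => u 0 1) h1
    simpa [X] using this
  have h4 : (Abelianization.of g : Q) = 1 := by
    rw [← TrivSqZeroExt.inl_one] at h2
    have h5 := TrivSqZeroExt.inl_injective h2
    exact MonoidAlgebra.of_injective (by rw [h5, map_one])
  have h5 : c g = 0 := by
    rw [← TrivSqZeroExt.inr_zero] at h3
    exact TrivSqZeroExt.inr_injective h3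
  have h6 : c g 1 = 0 := congrFun h5 1
  have h7 : (s 1)⁻¹ * g * s ((Abelianization.of g)⁻¹ * 1) = 1 :=
    congrArg (fun a => ((Additive.toMul a : commutator G) : G)) h6
  rw [h4, inv_one, mul_one] at h7
  have h8 : g = s 1 * ((s 1)⁻¹ * g * s 1) * (s 1)⁻¹ := by group
  rw [h8, h7]
  simp

end Pool.Agent.Work.MP_41f637_al.Lin

end
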