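import Mathlib

/-!
# MP_41f637_al: discrimination implies strong discrimination under a residual condition

Core argument, for an abstract relatively free group `G` with free generators `a`.
-/

set_option autoImplicit false

namespace Pool.Agent.Work.MP_41f637_al

open Subgroup

/-- A subgroup of a finite nilpotent group is everything if, for every homomorphism to an abelian
group killing it, the `D`-th powers of all values are trivial, with `D` prime to the order. -/
theorem nilpotent_gen.{u} {Γ : Type u} [Group Γ] [Finite Γ] [Group.IsNilpotent Γ] (H : Subgroup Γ)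
    (D : ℤ) (hD : ∀ q : ℕ, q.Prime → q ∣ Nat.card Γ → ¬ (q : ℤ) ∣ D)
    (hH : ∀ (A : Type u) [CommGroup A] (χ : Γ →* A), (∀ h ∈ H, χ h = 1) → ∀ g, (χ g) ^ D = 1) :
    H = ⊤ := by
  by_contra hne
  obtain h | ⟨K, hK, hHK⟩ := eq_top_or_exists_le_coatom H
  · exact hne h
  have hKn : K.Normal :=
    NormalizerCondition.normal_of_coatom K Group.normalizerCondition_of_isNilpotent hK
  have : Nontrivial (Γ ⧸ K) := by
    rw [QuotientGroup.nontrivial_iff]
    exact hK.1
  have hlt : commutator (Γ ⧸ K) < ⊤ := Group.IsSolvable.commutator_lt_top_of_nontrivial (Γ ⧸ K)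
  have hnt : Nontrivial (Abelianization (Γ ⧸ K)) := by
    have : Nontrivial ((Γ ⧸ K) ⧸ commutator (Γ ⧸ K)) := by
      rw [QuotientGroup.nontrivial_iff]
      exact hlt.ne
    exact this
  have hcardne : Nat.card (Abelianization (Γ ⧸ K)) ≠ 1 := by
    intro h
    rw [Nat.card_eq_one_iff_unique] at h
    exact not_subsingleton _ h.1
  let χ : Γ →* Abelianization (Γ ⧸ K) := Abelianization.of.comp (QuotientGroup.mk' K)
  have hχs : Function.Surjective χ :=
    (QuotientGroup.mk_surjective).comp (QuotientGroup.mk'_surjective K)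
  obtain ⟨q, hq, hqd⟩ := Nat.exists_prime_and_dvd hcardne
  have hfin : Finite (Abelianization (Γ ⧸ K)) := Finite.of_surjective χ hχs
  have : Fact q.Prime := ⟨hq⟩
  obtain ⟨z, hz⟩ := exists_prime_orderOf_dvd_card' q hqd
  obtain ⟨g, rfl⟩ := hχs z
  have h1 : (χ g) ^ D = 1 := by
    refine hH _ χ ?_ g
    intro h hh
    have : (QuotientGroup.mk' K) h = 1 := by
      rw [QuotientGroup.mk'_apply, QuotientGroup.eq_one_iff]
      exact hHK hh
    simp only [χ, MonoidHom.comp_apply, this, map_one]
  have h2 : ((orderOf (χ g) : ℕ) : ℤ) ∣ D := orderOf_dvd_iff_zpow_eq_one.mpr h1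
  rw [hz] at h2
  have h3 : q ∣ Nat.card Γ := hqd.trans (Subgroup.card_dvd_of_surjective χ hχs)
  exact hD q hq h3 h2

/-- Exponent vector of an element of the free group. -/
def expo (r : ℕ) : FreeGroup (Fin r) →* Multiplicative (Fin r → ℤ) :=
  FreeGroup.lift (fun l => Multiplicative.ofAdd (Pi.single l 1))

theorem expo_apply {r : ℕ} {A : Type*} [CommGroup A] (χ : FreeGroup (Fin r) →* A)
    (w : FreeGroup (Fin r)) :
    χ w = ∏ l, (χ (FreeGroup.of l)) ^ ((expo r w).toAdd l) := by
  let ψ : FreeGroup (Fin r) →* A :=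
    { toFun := fun w => ∏ l, (χ (FreeGroup.of l)) ^ ((expo r w).toAdd l)
      map_one' := by simp
      map_mul' := by
        intro u v
        simp only [map_mul, toAdd_mul, Pi.add_apply, zpow_add, Finset.prod_mul_distrib] }
  have h : χ = ψ := by
    refine FreeGroup.ext_hom _ _ ?_
    intro l
    change _ = ∏ m, (χ (FreeGroup.of m)) ^ ((expo r (FreeGroup.of l)).toAdd m)
    rw [Finset.prod_eq_single l]
    · simp [expo]
    · intro m _ hm
      simp [expo, Pi.single_apply, hm]
    · intro h
      exact absurd (Finset.mem_univ _) h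
  exact congrArg (fun f : FreeGroup (Fin r) →* A => f w) h

theorem zpow_sum_aux {ι : Type*} [Fintype ι] {A : Type*} [CommGroup A] (c : A) (f : ι → ℤ) :
    c ^ (∑ j, f j) = ∏ j, c ^ (f j) := by
  classical
  have : ∀ s : Finset ι, c ^ (∑ j ∈ s, f j) = ∏ j ∈ s, c ^ (f j) := by
    intro s
    induction s using Finset.induction_on with
    | empty => simp
    | insert a s ha ih => rw [Finset.sum_insert ha, Finset.prod_insert ha, zpow_add, ih]
  exact this Finset.univ

/-- If `∏ m, c m ^ Y j m = 1` for all `j` then `c l ^ det Y = 1`. -/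
theorem det_pow {r : ℕ} {A : Type*} [CommGroup A] (c : Fin r → A) (Y : Matrix (Fin r) (Fin r) ℤ)
    (h : ∀ j, ∏ m, (c m) ^ (Y j m) = 1) (l : Fin r) : (c l) ^ (Y.det) = 1 := by
  have h1 : ∏ j, (∏ m, (c m) ^ (Y j m)) ^ (Y.adjugate l j) = 1 := by
    refine Finset.prod_eq_one ?_
    intro j _
    rw [h j, one_zpow]
  have h2 : ∏ j, (∏ m, (c m) ^ (Y j m)) ^ (Y.adjugate l j)
      = ∏ m, (c m) ^ ((Y.adjugate * Y) l m) := by
    have : ∀ j, (∏ m, (c m) ^ (Y j m)) ^ (Y.adjugate l j)
        = ∏ m, (c m) ^ (Y.adjugate l j * Y j m) := by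
      intro j
      rw [← Finset.prod_zpow]
      refine Finset.prod_congr rfl ?_
      intro m _
      rw [← zpow_mul, mul_comm]
    simp only [this]
    rw [Finset.prod_comm]
    refine Finset.prod_congr rfl ?_
    intro m _
    rw [Matrix.mul_apply]
    exact (zpow_sum_aux (c m) (fun j => Y.adjugate l j * Y j m)).symm
  rw [h2, Matrix.adjugate_mul] at h1
  rw [Finset.prod_eq_single l] at h1
  · simpa using h1
  · intro m _ hm
    simp [Matrix.one_apply, hm.symm]
  · intro hh
    exact absurd (Finset.mem_univ _) hh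

end Pool.Agent.Work.MP_41f637_al
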