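import Mathlib

/-!
# MP_41f637_al: equationally Noetherian groups (definitions)
-/

set_option autoImplicit false

namespace Pool.Agent.Work.MP_41f637_al.Lin

/-- The value of an element of the free product `Γ * F(x_1, …, x_n)` (a group word in the unknowns
`x_i` with parameters in `Γ`) at a point of `Γ ^ n`. -/
noncomputable def evalW {Γ : Type*} [Group Γ] {n : ℕ} (x : Fin n → Γ) :
    Monoid.Coprod Γ (FreeGroup (Fin n)) →* Γ :=
  Monoid.Coprod.lift (MonoidHom.id Γ) (FreeGroup.lift x)

/-- A group `Γ` is equationally Noetherian if every system of equations with parameters in `Γ` and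
finitely many unknowns is equivalent to a finite subsystem. -/
def EqNoetherian (Γ : Type*) [Group Γ] : Prop :=
  ∀ (n : ℕ) (S : Set (Monoid.Coprod Γ (FreeGroup (Fin n)))),
    ∃ T : Finset (Monoid.Coprod Γ (FreeGroup (Fin n))), (T : Set _) ⊆ S ∧
      ∀ x : Fin n → Γ, (∀ w ∈ T, evalW x w = 1) → ∀ w ∈ S, evalW x w = 1

end Pool.Agent.Work.MP_41f637_al.Lin
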