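import Pool.Agent.Work.MP_41f637_al.Core

/-!
# MP_41f637_al: the abstract core theorem
-/

set_option autoImplicit false

namespace Pool.Agent.Work.MP_41f637_al

open Subgroup

/-- Two evaluations of a free group word agree after a homomorphism if they agree on generators. -/
theorem lift_congr {G P ι : Type*} [Group G] [Group P] (φ : G →* P) (f g : ι → G)
    (h : ∀ i, φ (f i) = φ (g i)) (w : FreeGroup ι) :
    φ (FreeGroup.lift f w) = φ (FreeGroup.lift g w) := by
  have : φ.comp (FreeGroup.lift f) = φ.comp (FreeGroup.lift g) := by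
    refine FreeGroup.ext_hom _ _ ?_
    intro i
    simp [h i]
  exact congrArg (fun F : FreeGroup ι →* P => F w) this

/-- Step 1: nonvanishing is kept when `y j` is replaced by `y j * a j ^ K`, `K` divisible. -/
theorem step1 {G : Type} [Group G] {r k : ℕ} (a : Fin r → G)
    (hres : ∀ g : G, g ≠ 1 → ∃ (P : Type) (_ : Group P) (_ : Finite P), ∃ φ : G →* P, φ g ≠ 1)
    (ws : Finset (FreeGroup (Fin r ⊕ Fin k))) (y : Fin r → G) (x : Fin k → G)
    (h : ∀ w ∈ ws, FreeGroup.lift (Sum.elim y x) w ≠ 1) :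
    ∃ Q : ℕ, 0 < Q ∧ ∀ K : ℕ, Q ∣ K → ∀ w ∈ ws,
      FreeGroup.lift (Sum.elim (fun j => y j * a j ^ K) x) w ≠ 1 := by
  classical
  induction ws using Finset.induction_on with
  | empty => exact ⟨1, one_pos, fun _ _ w hw => absurd hw (Finset.notMem_empty w)⟩
  | insert v ws hv ih =>
    obtain ⟨Q, hQ, hQ'⟩ := ih (fun w hw => h w (Finset.mem_insert_of_mem hw))
    obtain ⟨P, gP, fP, φ, hφ⟩ := hres _ (h v (Finset.mem_insert_self v ws))
    refine ⟨Q * Nat.card P, Nat.mul_pos hQ Nat.card_pos, ?_⟩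
    intro K hK w hw
    rw [Finset.mem_insert] at hw
    rcases hw with rfl | hw
    · intro h1
      apply hφ
      have h2 : φ (FreeGroup.lift (Sum.elim (fun j => y j * a j ^ K) x) w)
          = φ (FreeGroup.lift (Sum.elim y x) w) := by
        apply lift_congr
        rintro (j | i)
        · simp only [Sum.elim_inl, map_mul, map_pow]
          have h3 : (φ (a j)) ^ K = 1 := by
            obtain ⟨c, rfl⟩ := (Dvd.intro_left Q rfl : Nat.card P ∣ Q * Nat.card P).trans hK
            rw [pow_mul, pow_card_eq_one', one_pow]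
          rw [h3, mul_one]
        · rfl
      rw [← h2, h1, map_one]
    · exact hQ' K ((Dvd.intro _ rfl).trans hK) w hw

/-- A matrix becomes nonsingular after adding a suitable multiple `K` of the identity. -/
theorem exists_det_ne_zero {r : ℕ} (Y : Matrix (Fin r) (Fin r) ℤ) (Q : ℕ) (hQ : 0 < Q) :
    ∃ K : ℕ, Q ∣ K ∧ (Y + (K : ℤ) • (1 : Matrix (Fin r) (Fin r) ℤ)).det ≠ 0 := by
  by_contra hcon
  push Not at hcon
  have hp : (-Y).charpoly = 0 := by
    apply Polynomial.eq_zero_of_infinite_isRoot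
    have hinj : Function.Injective (fun n : ℕ => ((Q * n : ℕ) : ℤ)) := by
      intro m n hmn
      have hmn' : ((Q * m : ℕ) : ℤ) = ((Q * n : ℕ) : ℤ) := hmn
      have : Q * m = Q * n := by exact_mod_cast hmn'
      exact Nat.eq_of_mul_eq_mul_left hQ this
    refine (Set.infinite_range_of_injective hinj).mono ?_
    rintro _ ⟨n, rfl⟩
    have := hcon (Q * n) (Dvd.intro _ rfl)
    change Polynomial.eval _ _ = 0
    rw [Matrix.eval_charpoly, sub_neg_eq_add, add_comm, ← this]
    congr 2
    ext i j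
    rw [Matrix.scalar_apply, Matrix.diagonal_apply, Matrix.smul_apply, Matrix.one_apply,
      smul_eq_mul, mul_ite, mul_one, mul_zero]
  exact (Matrix.charpoly_monic (-Y)).ne_zero hp

/-- The core theorem. -/
theorem core {G : Type} [Group G] {r k : ℕ} (a : Fin r → G)
    (hgen : Subgroup.closure (Set.range a) = ⊤)
    (hfree : ∀ t : Fin r → G, ∃ φ : G →* G, ∀ j, φ (a j) = t j)
    (hres : ∀ g : G, g ≠ 1 → ∀ M : ℕ, ∃ p : ℕ, M < p ∧ p.Prime ∧
      ∃ (P : Type) (_ : Group P) (_ : Finite P), IsPGroup p P ∧ ∃ φ : G →* P, φ g ≠ 1)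
    (ws : Finset (FreeGroup (Fin r ⊕ Fin k))) (y : Fin r → G) (x : Fin k → G)
    (h : ∀ w ∈ ws, FreeGroup.lift (Sum.elim y x) w ≠ 1) :
    ∃ z : Fin k → G, ∀ w ∈ ws, FreeGroup.lift (Sum.elim a z) w ≠ 1 := by
  classical
  -- step 1
  obtain ⟨Q, hQ, hQ'⟩ := step1 a (fun g hg => by
    obtain ⟨p, -, -, P, gP, fP, -, φ, hφ⟩ := hres g hg 0
    exact ⟨P, gP, fP, φ, hφ⟩) ws y x h
  let π : FreeGroup (Fin r) →* G := FreeGroup.lift a
  have hπ : Function.Surjective π := by
    rw [← MonoidHom.range_eq_top, FreeGroup.range_lift_eq_closure, hgen]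
  choose u hu using fun j => hπ (y j)
  let Y : Matrix (Fin r) (Fin r) ℤ := fun j m => (expo r (u j)).toAdd m
  obtain ⟨K, hK, hdet⟩ := exists_det_ne_zero Y Q hQ
  let y' : Fin r → G := fun j => y j * a j ^ K
  have h' : ∀ w ∈ ws, FreeGroup.lift (Sum.elim y' x) w ≠ 1 := hQ' K hK
  let D : ℤ := (Y + (K : ℤ) • (1 : Matrix (Fin r) (Fin r) ℤ)).det
  -- step 2
  have hsel : ∀ w : {w // w ∈ ws}, ∃ p : ℕ, D.natAbs < p ∧ p.Prime ∧
      ∃ (P : Type) (_ : Group P) (_ : Finite P), IsPGroup p P ∧
        ∃ φ : G →* P, φ (FreeGroup.lift (Sum.elim y' x) w.1) ≠ 1 :=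
    fun w => hres _ (h' w.1 w.2) D.natAbs
  choose p hpD hp P gP fP hP φ hφ using hsel
  have hnil : ∀ w, Group.IsNilpotent (P w) := by
    intro w
    have : Fact (p w).Prime := ⟨hp w⟩
    exact (hP w).isNilpotent
  let Φ : G →* (∀ w, P w) := MonoidHom.pi φ
  let Φ0 : G →* Φ.range := Φ.rangeRestrict
  have hΦ0 : Function.Surjective Φ0 := Φ.rangeRestrict_surjective
  let H : Subgroup G := Subgroup.closure (Set.range y')
  have hH : H.map Φ0 = ⊤ := by
    refine nilpotent_gen (H.map Φ0) D ?_ ?_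
    · intro q hq hqd hqD
      have h1 : q ∣ Nat.card (∀ w, P w) := hqd.trans (Subgroup.card_subgroup_dvd_card _)
      rw [Nat.card_pi] at h1
      obtain ⟨w, -, hw⟩ := (Nat.Prime.prime hq).exists_mem_finset_dvd h1
      have : Fact (p w).Prime := ⟨hp w⟩
      obtain ⟨n, hn⟩ := IsPGroup.iff_card.mp (hP w)
      rw [hn] at hw
      have h2 : q = p w := (Nat.prime_dvd_prime_iff_eq hq (hp w)).mp (hq.dvd_of_dvd_pow hw)
      have h3 : q ≤ D.natAbs := Nat.le_of_dvd (Int.natAbs_pos.mpr hdet) (Int.natCast_dvd.mp hqD)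
      have h4 := hpD w
      omega
    · intro A _ χ hχ g
      let ψ : FreeGroup (Fin r) →* A := (χ.comp Φ0).comp π
      have hψ : ∀ j, ψ (u j * FreeGroup.of j ^ K) = 1 := by
        intro j
        have : π (u j * FreeGroup.of j ^ K) = y' j := by
          simp only [map_mul, map_pow, hu, y', π, FreeGroup.lift_apply_of]
        simp only [ψ, MonoidHom.comp_apply, this]
        apply hχ
        exact Subgroup.mem_map_of_mem _ (Subgroup.subset_closure ⟨j, rfl⟩)
      have hc : ∀ l, (ψ (FreeGroup.of l)) ^ D = 1 := by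
        intro l
        refine det_pow (fun m => ψ (FreeGroup.of m)) _ ?_ l
        intro j
        have h5 := expo_apply ψ (u j * FreeGroup.of j ^ K)
        rw [hψ j] at h5
        rw [h5]
        refine Finset.prod_congr rfl ?_
        intro m _
        congr 1
        have h11 : (expo r (u j * FreeGroup.of j ^ K)).toAdd m
            = (expo r (u j)).toAdd m + (K : ℤ) * (if j = m then 1 else 0) := by
          rw [map_mul, map_pow, toAdd_mul, toAdd_pow, Pi.add_apply, Pi.smul_apply]
          congr 1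
          rw [nsmul_eq_mul]
          congr 1
          rw [expo, FreeGroup.lift_apply_of, toAdd_ofAdd, Pi.single_apply]
          by_cases hjm : j = m
          · rw [if_pos hjm, if_pos hjm.symm]
          · rw [if_neg hjm, if_neg (Ne.symm hjm)]
        rw [h11, Matrix.add_apply, Matrix.smul_apply, Matrix.one_apply, smul_eq_mul]
      obtain ⟨g', rfl⟩ := hΦ0 g
      obtain ⟨v, rfl⟩ := hπ g'
      have h6 := expo_apply ψ v
      change (ψ v) ^ D = 1
      rw [h6, ← Finset.prod_zpow]
      refine Finset.prod_eq_one ?_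
      intro l _
      rw [← zpow_mul, mul_comm, zpow_mul, hc l, one_zpow]
  -- conclusion
  obtain ⟨θ, hθ⟩ := hfree y'
  have hHθ : H = θ.range := by
    have h7 : H = (Subgroup.closure (Set.range a)).map θ := by
      have h12 : Set.range y' = θ '' Set.range a := by
        ext g
        constructor
        · rintro ⟨j, rfl⟩
          exact ⟨a j, ⟨j, rfl⟩, hθ j⟩
        · rintro ⟨_, ⟨j, rfl⟩, rfl⟩
          exact ⟨j, (hθ j).symm⟩
      rw [MonoidHom.map_closure, ← h12]
    rw [h7, hgen, ← MonoidHom.range_eq_map]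
  have hz : ∀ i, ∃ z : G, Φ (θ z) = Φ (x i) := by
    intro i
    have h8 : Φ0 (x i) ∈ H.map Φ0 := by
      rw [hH]
      exact Subgroup.mem_top _
    obtain ⟨g, hg, hgx⟩ := h8
    rw [hHθ] at hg
    obtain ⟨z, rfl⟩ := hg
    exact ⟨z, congrArg Subtype.val hgx⟩
  choose z hz using hz
  refine ⟨z, ?_⟩
  intro w hw hcon
  apply hφ ⟨w, hw⟩
  have h9 : θ (FreeGroup.lift (Sum.elim a z) w)
      = FreeGroup.lift (Sum.elim y' (fun i => θ (z i))) w := by
    have : θ.comp (FreeGroup.lift (Sum.elim a z))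
        = FreeGroup.lift (Sum.elim y' (fun i => θ (z i))) := by
      refine FreeGroup.ext_hom _ _ ?_
      rintro (j | i)
      · simp [hθ]
      · simp
    exact congrArg (fun F : FreeGroup (Fin r ⊕ Fin k) →* G => F w) this
  rw [hcon, map_one] at h9
  have h10 : φ ⟨w, hw⟩ (FreeGroup.lift (Sum.elim y' (fun i => θ (z i))) w)
      = φ ⟨w, hw⟩ (FreeGroup.lift (Sum.elim y' x) w) := by
    apply lift_congr
    rintro (j | i)
    · rfl
    · exact congrFun (hz i) ⟨w, hw⟩
  rw [← h10, ← h9, map_one]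

end Pool.Agent.Work.MP_41f637_al
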