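import Pool.Agent.Work.MP_41f637_al.TP

set_option autoImplicit false

namespace Pool.Agent.Work.MP_41f637_al.TP

/-- every single inequality with constants from `F_r` and `q` unknowns which is solvable in some
`F_s` is solvable in `F_r` -/
def Single (W : Set (FreeGroup ℕ)) (r q : ℕ) : Prop :=
  ∀ (w : FreeGroup (Fin r ⊕ Fin q)) (s : ℕ) (hs : r ≤ s),
    (∃ x : Fin q → RF W s,
      FreeGroup.lift
        (Sum.elim
          (fun j : Fin r => (QuotientGroup.mk (FreeGroup.of (Fin.castLE hs j)) : RF W s))
          x) w ≠ 1) →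
    ∃ y : Fin q → RF W r,
      FreeGroup.lift
        (Sum.elim
          (fun j : Fin r => (QuotientGroup.mk (FreeGroup.of j) : RF W r))
          y) w ≠ 1

/-- the endomorphism of `F_r` given by a tuple -/
def endo (W : Set (FreeGroup ℕ)) {s r : ℕ} (y : Fin s → RF W r) : RF W s →* RF W r :=
  QuotientGroup.lift (verb W s) (FreeGroup.lift y) (verb_le_ker W s r (FreeGroup.lift y))

@[simp] lemma endo_mk (W : Set (FreeGroup ℕ)) {s r : ℕ} (y : Fin s → RF W r)
    (g : FreeGroup (Fin s)) : endo W y (QuotientGroup.mk g) = FreeGroup.lift y g := rfl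

/-- the inclusion `F_q → F_r` -/
def incl (W : Set (FreeGroup ℕ)) {q r : ℕ} (hq : q ≤ r) : RF W q →* RF W r :=
  endo W (fun j => (QuotientGroup.mk (FreeGroup.of (Fin.castLE hq j)) : RF W r))

lemma incl_injective (W : Set (FreeGroup ℕ)) {q r : ℕ} (hq : q ≤ r) :
    Function.Injective (incl W hq) := by
  let ρ : RF W r →* RF W q :=
    endo W (fun j : Fin r => if h : (j : ℕ) < q then
      (QuotientGroup.mk (FreeGroup.of (⟨j, h⟩ : Fin q)) : RF W q) else 1)
  have h1 : (ρ.comp (incl W hq)).comp (QuotientGroup.mk' (verb W q)) =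
      QuotientGroup.mk' (verb W q) := by
    ext j
    simp [ρ, incl]
  intro g h hgh
  obtain ⟨g, rfl⟩ := QuotientGroup.mk_surjective g
  obtain ⟨h, rfl⟩ := QuotientGroup.mk_surjective h
  have h2 := DFunLike.congr_fun h1 g
  have h3 := DFunLike.congr_fun h1 h
  simp only [MonoidHom.comp_apply, QuotientGroup.mk'_apply] at h2 h3
  rw [← h2, ← h3, hgh]

/-- `N ∩ F_q` generates the variety -/
def Gen (W : Set (FreeGroup ℕ)) {q r : ℕ} (hq : q ≤ r) (N : Subgroup (RF W r)) : Prop :=
  ∀ (s : ℕ) (w : FreeGroup (Fin s)), w ∉ verb W s →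
    ∃ f : Fin s → RF W q, (∀ i, incl W hq (f i) ∈ N) ∧ FreeGroup.lift (incl W hq ∘ f) w ≠ 1

lemma lift_sumElim_comp {α β : Type} {G H : Type} [Group G] [Group H] (a : α → G) (b : β → G)
    (φ : G →* H) (w : FreeGroup (α ⊕ β)) :
    φ (FreeGroup.lift (Sum.elim a b) w) = FreeGroup.lift (Sum.elim (φ ∘ a) (φ ∘ b)) w := by
  have : φ.comp (FreeGroup.lift (Sum.elim a b)) = FreeGroup.lift (Sum.elim (φ ∘ a) (φ ∘ b)) := by
    ext i
    rcases i with i | i <;> simp
  exact DFunLike.congr_fun this w

/-- the key step: a single word with small unknowns -/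
lemma small (W : Set (FreeGroup ℕ)) {q r : ℕ} (hq : q ≤ r) (k : ℕ) (hS : Single W r q)
    (N : Subgroup (RF W r))
    (hN : ∀ θ : RF W r →* RF W r, ∀ g ∈ N, θ g ∈ N)
    (w : FreeGroup (Fin r ⊕ Fin k)) (b : Fin r → RF W r) (m : Fin k → RF W q)
    (hm : ∀ i, incl W hq (m i) ∈ N)
    (hw : FreeGroup.lift (Sum.elim b (incl W hq ∘ m)) w ≠ 1) :
    ∃ n : Fin k → RF W r, (∀ i, n i ∈ N) ∧
      FreeGroup.lift
        (Sum.elim
          (fun j : Fin r => (QuotientGroup.mk (FreeGroup.of j) : RF W r))
          n) w ≠ 1 := by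
  classical
  have hsurj : ∀ i, ∃ μ : FreeGroup (Fin q), (QuotientGroup.mk μ : RF W q) = m i :=
    fun i => QuotientGroup.mk_surjective _
  choose μ hμ using hsurj
  -- the word `w(a, μ(x))`
  let w' : FreeGroup (Fin r ⊕ Fin q) :=
    FreeGroup.lift (Sum.elim (fun j => FreeGroup.of (Sum.inl j))
      (fun i => FreeGroup.map Sum.inr (μ i))) w
  have key : ∀ {G : Type} [Group G] (c : Fin r → G) (y : Fin q → G),
      FreeGroup.lift (Sum.elim c y) w' =
        FreeGroup.lift (Sum.elim c (fun i => FreeGroup.lift y (μ i))) w := by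
    intro G _ c y
    have h1 : (FreeGroup.lift (Sum.elim c y)).comp
        (FreeGroup.lift (Sum.elim (fun j => FreeGroup.of (Sum.inl j))
          (fun i => FreeGroup.map Sum.inr (μ i)))) =
        FreeGroup.lift (Sum.elim c (fun i => FreeGroup.lift y (μ i))) := by
      ext i
      rcases i with i | i
      · simp
      · simp only [MonoidHom.comp_apply, FreeGroup.lift_apply_of, Sum.elim_inr]
        have h2 : (FreeGroup.lift (Sum.elim c y)).comp (FreeGroup.map Sum.inr) =
            FreeGroup.lift y := by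
          ext j
          simp
        exact DFunLike.congr_fun h2 (μ i)
    exact DFunLike.congr_fun h1 w
  have hle : r ≤ r + q := Nat.le_add_right _ _
  have hmk : ∀ i, FreeGroup.lift
      (fun j => (QuotientGroup.mk (FreeGroup.of (Fin.castLE hq j)) : RF W r)) (μ i) =
      incl W hq (m i) := by
    intro i
    rw [← hμ i]
    rfl
  obtain ⟨y, hy⟩ := hS w' (r + q) hle ⟨fun j => QuotientGroup.mk (FreeGroup.of (Fin.natAdd r j)), by
    intro h1
    apply hw
    let Φ : RF W (r + q) →* RF W r :=
      endo W (Fin.append b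
        (fun j => (QuotientGroup.mk (FreeGroup.of (Fin.castLE hq j)) : RF W r)))
    have h2 := congrArg Φ h1
    rw [map_one, lift_sumElim_comp, key] at h2
    have h3 : (Φ ∘ fun j : Fin r =>
        (QuotientGroup.mk (FreeGroup.of (Fin.castLE hle j)) : RF W (r + q))) = b := by
      funext j
      simp only [Function.comp_apply, Φ, endo_mk, FreeGroup.lift_apply_of]
      exact Fin.append_left _ _ j
    have h4 : (Φ ∘ fun j : Fin q =>
        (QuotientGroup.mk (FreeGroup.of (Fin.natAdd r j)) : RF W (r + q))) =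
        (fun j => (QuotientGroup.mk (FreeGroup.of (Fin.castLE hq j)) : RF W r)) := by
      funext j
      simp only [Function.comp_apply, Φ, endo_mk, FreeGroup.lift_apply_of]
      exact Fin.append_right _ _ j
    rw [h3, h4] at h2
    have h5 : (fun i => FreeGroup.lift
        (fun j => (QuotientGroup.mk (FreeGroup.of (Fin.castLE hq j)) : RF W r)) (μ i)) =
        incl W hq ∘ m := by
      funext i
      exact hmk i
    rw [h5] at h2
    exact h2⟩
  rw [key] at hy
  refine ⟨fun i => FreeGroup.lift y (μ i), ?_, hy⟩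
  intro i
  -- the endomorphism of `F_r` extending `a_j ↦ y_j`, `j < q`
  let θ : RF W r →* RF W r :=
    endo W (fun j : Fin r => if h : (j : ℕ) < q then y ⟨j, h⟩ else 1)
  have h1 := hN θ _ (hm i)
  have h2 : θ (incl W hq (m i)) = FreeGroup.lift y (μ i) := by
    rw [← hmk i]
    have h3 : θ.comp (FreeGroup.lift
        (fun j => (QuotientGroup.mk (FreeGroup.of (Fin.castLE hq j)) : RF W r))) =
        FreeGroup.lift y := by
      ext j
      simp [θ]
    exact DFunLike.congr_fun h3 (μ i)
  rwa [h2] at h1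

/-- The general theorem: a filtering family of fully invariant subgroups which generate `V`. -/
theorem general (W : Set (FreeGroup ℕ)) {q r : ℕ} (hq : q ≤ r) (hS : Single W r q)
    (F : Set (Subgroup (RF W r))) (hne : F.Nonempty)
    (hinv : ∀ N ∈ F, ∀ θ : RF W r →* RF W r, ∀ g ∈ N, θ g ∈ N)
    (hgen : ∀ N ∈ F, Gen W hq N)
    (hsep : ∀ N ∈ F, ∀ g : RF W r, g ≠ 1 → ∃ N' ∈ F, N' ≤ N ∧ g ∉ N') :
    StrongDisc W r := by
  classical
  intro k ws s hs hx
  obtain ⟨x, hx⟩ := hx
  have main : ∀ T : Finset (FreeGroup (Fin r ⊕ Fin k)), T ⊆ ws →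
      ∃ y : Fin k → RF W r, ∃ N ∈ F, ∀ n : Fin k → RF W r, (∀ i, n i ∈ N) → ∀ w ∈ T,
        FreeGroup.lift
        (Sum.elim
          (fun j : Fin r => (QuotientGroup.mk (FreeGroup.of j) : RF W r))
          (fun i => y i * n i)) w ≠ 1 := by
    intro T
    induction T using Finset.induction_on with
    | empty =>
      intro _
      obtain ⟨N, hN⟩ := hne
      exact ⟨1, N, hN, by simp⟩
    | insert w T hwT ih =>
      intro hT
      obtain ⟨y, N, hN, hy⟩ := ih (fun v hv => hT (Finset.mem_insert_of_mem hv))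
      have hsurj : ∀ i, ∃ η : FreeGroup (Fin r), (QuotientGroup.mk η : RF W r) = y i :=
        fun i => QuotientGroup.mk_surjective _
      choose η hη using hsurj
      -- the word `w(a, y(a) x)`
      let w' : FreeGroup (Fin r ⊕ Fin k) :=
        FreeGroup.lift (Sum.elim (fun j => FreeGroup.of (Sum.inl j))
          (fun i => FreeGroup.map Sum.inl (η i) * FreeGroup.of (Sum.inr i))) w
      have key : ∀ {G : Type} [Group G] (c : Fin r → G) (z : Fin k → G),
          FreeGroup.lift (Sum.elim c z) w' =
            FreeGroup.lift (Sum.elim c (fun i => FreeGroup.lift c (η i) * z i)) w := by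
        intro G _ c z
        have h1 : (FreeGroup.lift (Sum.elim c z)).comp
            (FreeGroup.lift (Sum.elim (fun j => FreeGroup.of (Sum.inl j))
              (fun i => FreeGroup.map Sum.inl (η i) * FreeGroup.of (Sum.inr i)))) =
            FreeGroup.lift (Sum.elim c (fun i => FreeGroup.lift c (η i) * z i)) := by
          ext i
          rcases i with i | i
          · simp
          · simp only [MonoidHom.comp_apply, FreeGroup.lift_apply_of, Sum.elim_inr, map_mul]
            have h2 : (FreeGroup.lift (Sum.elim c z)).comp (FreeGroup.map Sum.inl) =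
                FreeGroup.lift c := by
              ext j
              simp
            rw [← DFunLike.congr_fun h2 (η i)]
            rfl
        exact DFunLike.congr_fun h1 w
      -- `w'` is not a law: it is non-trivial in `F_s`
      have hw1 := hx w (hT (Finset.mem_insert_self _ _))
      -- transfer to a word in finitely many variables
      let e : FreeGroup (Fin r ⊕ Fin k) →* FreeGroup (Fin (r + k)) :=
        FreeGroup.map finSumFinEquiv
      have hw2 : e w' ∉ verb W (r + k) := by
        intro hmem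
        apply hw1
        let a' : Fin r → RF W s := fun j => QuotientGroup.mk (FreeGroup.of (Fin.castLE hs j))
        let z' : Fin k → RF W s := fun i => (FreeGroup.lift a' (η i))⁻¹ * x i
        have h3 := verb_le_ker W (r + k) s (FreeGroup.lift (Fin.append a' z')) hmem
        rw [MonoidHom.mem_ker] at h3
        have h4 : (FreeGroup.lift (Fin.append a' z')).comp e =
            FreeGroup.lift (Sum.elim a' z') := by
          ext i
          rcases i with i | i
          · simp [e]
          · simp [e]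
        have h5 := DFunLike.congr_fun h4 w'
        rw [MonoidHom.comp_apply, h3, key] at h5
        have h6 : (fun i => FreeGroup.lift a' (η i) * z' i) = x := by
          funext i
          simp [z']
        rw [h6] at h5
        exact h5.symm
      obtain ⟨f, hfN, hf⟩ := hgen N hN (r + k) (e w') hw2
      have h6 : (FreeGroup.lift (incl W hq ∘ f)).comp e =
          FreeGroup.lift (Sum.elim (fun j => incl W hq (f (Fin.castAdd k j)))
            (incl W hq ∘ fun i => f (Fin.natAdd r i))) := by
        ext i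
        rcases i with i | i
        · simp [e]
        · simp [e]
      have h7 := DFunLike.congr_fun h6 w'
      rw [MonoidHom.comp_apply] at h7
      rw [h7] at hf
      obtain ⟨n, hn, hn'⟩ := small W hq k hS N (hinv N hN) w' _ _ (fun i => hfN _) hf
      rw [key] at hn'
      have h8 : ∀ i, FreeGroup.lift (fun j => (QuotientGroup.mk (FreeGroup.of j) : RF W r)) (η i)
          = y i := by
        intro i
        have h9 : FreeGroup.lift (fun j => (QuotientGroup.mk (FreeGroup.of j) : RF W r)) =
            QuotientGroup.mk' (verb W r) := by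
          ext j
          simp
        rw [h9]
        exact hη i
      simp only [h8] at hn'
      obtain ⟨N', hN'F, hN'le, hN'⟩ := hsep N hN _ hn'
      refine ⟨fun i => y i * n i, N', hN'F, ?_⟩
      intro n' hn'mem v hv
      rcases Finset.mem_insert.1 hv with rfl | hv
      · -- congruence modulo the normal subgroup `N'`
        intro h10
        apply hN'
        have hnorm : N'.Normal := by
          refine ⟨fun g hg c => ?_⟩
          have := hinv N' hN'F (MulAut.conj c).toMonoidHom g hg
          simpa using this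
        have h11 := congrArg (QuotientGroup.mk' N') h10
        rw [map_one, lift_sumElim_comp] at h11
        have h12 : (QuotientGroup.mk' N' ∘ fun i => y i * n i * n' i) =
            (QuotientGroup.mk' N' ∘ fun i => y i * n i) := by
          funext i
          simp only [Function.comp_apply, map_mul]
          have : QuotientGroup.mk' N' (n' i) = 1 := (QuotientGroup.eq_one_iff _).2 (hn'mem i)
          rw [this, mul_one]
        rw [h12, ← lift_sumElim_comp] at h11
        exact (QuotientGroup.eq_one_iff _).1 h11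
      · have := hy (fun i => n i * n' i) (fun i => N.mul_mem (hn i) (hN'le (hn'mem i))) v hv
        simpa [mul_assoc] using this
  obtain ⟨y, N, hN, hy⟩ := main ws (Finset.Subset.refl _)
  refine ⟨y, fun w hw => ?_⟩
  have := hy (fun _ => 1) (fun _ => N.one_mem) w hw
  simpa using this

/-- residual finiteness -/
def ResFin (G : Type) [Group G] : Prop :=
  ∀ g : G, g ≠ 1 → ∃ (Q : Type) (_ : Group Q) (_ : Finite Q) (φ : G →* Q), φ g ≠ 1

instance finite_hom (W : Set (FreeGroup ℕ)) (r : ℕ) (P : Type) [Group P] [Finite P] :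
    Finite (RF W r →* P) := by
  refine Finite.of_injective
    (fun ψ : RF W r →* P => fun j : Fin r => ψ (QuotientGroup.mk (FreeGroup.of j))) ?_
  intro ψ ψ' h
  have h1 : ψ.comp (QuotientGroup.mk' (verb W r)) = ψ'.comp (QuotientGroup.mk' (verb W r)) := by
    ext j
    exact congrFun h j
  refine MonoidHom.ext fun g => ?_
  obtain ⟨g, rfl⟩ := QuotientGroup.mk_surjective g
  exact DFunLike.congr_fun h1 g

/-- residually finite relatively free groups: single inequalities suffice -/
theorem resFin_single (W : Set (FreeGroup ℕ)) {q r : ℕ} (hq : q ≤ r) (hR : ResFin (RF W r))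
    (hD : Disc W q) (hS : Single W r q) : StrongDisc W r := by
  classical
  refine general W hq hS
    {N | N.FiniteIndex ∧ ∀ θ : RF W r →* RF W r, ∀ g ∈ N, θ g ∈ N} ⟨⊤, ?_, ?_⟩ ?_ ?_ ?_
  · exact inferInstance
  · intro θ g _
    trivial
  · exact fun N hN => hN.2
  · rintro N ⟨hN, -⟩ s w hw
    have hfi : (N.comap (incl W hq)).FiniteIndex := by
      refine ⟨?_⟩
      have h1 : N.relIndex ⊤ ≠ 0 := by
        rw [Subgroup.relIndex_top_right]
        exact hN.index_ne_zero
      have h2 := Subgroup.relIndex_comap_ne_zero (incl W hq) h1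
      rwa [Subgroup.comap_top, Subgroup.relIndex_top_right] at h2
    obtain ⟨f, hf⟩ := disc_finiteIndex W q hD (N.comap (incl W hq)) s w hw
    refine ⟨fun i => f i, fun i => (f i).2, fun h => hf ?_⟩
    apply incl_injective W hq
    rw [map_one, ← h]
    have h1 : (incl W hq).comp (FreeGroup.lift (fun i => (f i : RF W q))) =
        FreeGroup.lift (incl W hq ∘ fun i => (f i : RF W q)) := by
      ext i
      simp
    exact DFunLike.congr_fun h1 w
  · rintro N ⟨hN, hinv⟩ g hg
    obtain ⟨Q, i1, i2, φ, hφ⟩ := hR g hg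
    have hNn : N.Normal := by
      refine ⟨fun g hg c => ?_⟩
      have := hinv (MulAut.conj c).toMonoidHom g hg
      simpa using this
    have hker : φ.ker.FiniteIndex := inferInstance
    have hM : (N ⊓ φ.ker).FiniteIndex := inferInstance
    have hMn : (N ⊓ φ.ker).Normal := inferInstance
    have hfin : Finite (RF W r ⧸ (N ⊓ φ.ker)) := inferInstance
    have hle : (⨅ ψ : RF W r →* (RF W r ⧸ (N ⊓ φ.ker)), ψ.ker) ≤ N ⊓ φ.ker := by
      intro x hx
      have h1 := (Subgroup.mem_iInf.1 hx) (QuotientGroup.mk' (N ⊓ φ.ker))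
      exact (QuotientGroup.eq_one_iff x).1 h1
    refine ⟨⨅ ψ : RF W r →* (RF W r ⧸ (N ⊓ φ.ker)), ψ.ker, ⟨?_, ?_⟩, ?_, ?_⟩
    · have : ∀ ψ : RF W r →* (RF W r ⧸ (N ⊓ φ.ker)), ψ.ker.FiniteIndex := fun ψ => inferInstance
      exact Subgroup.finiteIndex_iInf this
    · intro θ x hx
      rw [Subgroup.mem_iInf] at hx ⊢
      intro ψ
      exact hx (ψ.comp θ)
    · exact hle.trans inf_le_left
    · intro h
      exact hφ (hle h).2

/-- Joins: if `V` is the join of the varieties `V_i` and in each `F_r(V_i)` the single inequalities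
(solvable in some `F_s(V_i)`) are solvable, then the same holds for `V`. -/
lemma single_join (W : Set (FreeGroup ℕ)) {I : Type} (U : I → Set (FreeGroup ℕ)) (q r : ℕ)
    (hJ : ∀ s, verb W s = ⨅ i, verb (U i) s) (hU : ∀ i, Single (U i) r q) : Single W r q := by
  intro w s hs ⟨x, hx⟩
  have hsurj : ∀ j, ∃ ξ : FreeGroup (Fin s), (QuotientGroup.mk ξ : RF W s) = x j :=
    fun j => QuotientGroup.mk_surjective _
  choose ξ hξ using hsurj
  let v : FreeGroup (Fin s) := FreeGroup.lift (Sum.elim
    (fun j : Fin r => FreeGroup.of (Fin.castLE hs j)) ξ) w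
  have hmk : ∀ (T : Set (FreeGroup ℕ)), (QuotientGroup.mk v : RF T s) =
      FreeGroup.lift (Sum.elim
        (fun j : Fin r => (QuotientGroup.mk (FreeGroup.of (Fin.castLE hs j)) : RF T s))
        (fun j => (QuotientGroup.mk (ξ j) : RF T s))) w := by
    intro T
    exact lift_sumElim_comp _ _ (QuotientGroup.mk' (verb T s)) w
  have hv : v ∉ verb W s := by
    intro h
    apply hx
    have h1 := hmk W
    rw [(QuotientGroup.eq_one_iff v).2 h] at h1
    have h2 : (fun j => (QuotientGroup.mk (ξ j) : RF W s)) = x := funext hξ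
    rw [h2] at h1
    exact h1.symm
  rw [hJ s, Subgroup.mem_iInf] at hv
  push Not at hv
  obtain ⟨i, hi⟩ := hv
  obtain ⟨y, hy⟩ := hU i w s hs ⟨fun j => QuotientGroup.mk (ξ j), by
    intro h
    apply hi
    rw [← hmk] at h
    exact (QuotientGroup.eq_one_iff v).1 h⟩
  have hsurj : ∀ j, ∃ η : FreeGroup (Fin r), (QuotientGroup.mk η : RF (U i) r) = y j :=
    fun j => QuotientGroup.mk_surjective _
  choose η hη using hsurj
  let u : FreeGroup (Fin r) := FreeGroup.lift (Sum.elim FreeGroup.of η) w
  have hmk2 : ∀ (T : Set (FreeGroup ℕ)), (QuotientGroup.mk u : RF T r) =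
      FreeGroup.lift (Sum.elim
        (fun j : Fin r => (QuotientGroup.mk (FreeGroup.of j) : RF T r))
        (fun j => (QuotientGroup.mk (η j) : RF T r))) w := by
    intro T
    exact lift_sumElim_comp _ _ (QuotientGroup.mk' (verb T r)) w
  refine ⟨fun j => QuotientGroup.mk (η j), fun h => hy ?_⟩
  rw [← hmk2] at h
  have h1 : u ∈ verb W r := (QuotientGroup.eq_one_iff u).1 h
  rw [hJ r, Subgroup.mem_iInf] at h1
  have h2 : (fun j => (QuotientGroup.mk (η j) : RF (U i) r)) = y := funext hη
  rw [← h2, ← hmk2]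
  exact (QuotientGroup.eq_one_iff u).2 (h1 i)

lemma resFin_join (W : Set (FreeGroup ℕ)) {I : Type} (U : I → Set (FreeGroup ℕ)) (r : ℕ)
    (hJ : ∀ s, verb W s = ⨅ i, verb (U i) s) (hU : ∀ i, ResFin (RF (U i) r)) :
    ResFin (RF W r) := by
  intro g hg
  obtain ⟨v, rfl⟩ := QuotientGroup.mk_surjective g
  have hv : v ∉ verb W r := fun h => hg ((QuotientGroup.eq_one_iff v).2 h)
  rw [hJ r, Subgroup.mem_iInf] at hv
  push Not at hv
  obtain ⟨i, hi⟩ := hv
  obtain ⟨Q, i1, i2, φ, hφ⟩ := hU i (QuotientGroup.mk v)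
    (fun h => hi ((QuotientGroup.eq_one_iff v).1 h))
  have hle : verb W r ≤ verb (U i) r := by
    rw [hJ r]; exact iInf_le _ i
  refine ⟨Q, i1, i2, QuotientGroup.lift (verb W r) (φ.comp (QuotientGroup.mk' (verb (U i) r)))
    (fun x hx => ?_), fun h => hφ ?_⟩
  · rw [MonoidHom.mem_ker, MonoidHom.comp_apply]
    have : QuotientGroup.mk' (verb (U i) r) x = 1 := (QuotientGroup.eq_one_iff x).2 (hle hx)
    rw [this, map_one]
  · exact h

/-- strong discrimination implies the condition on single inequalities -/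
lemma single_of_strongDisc (W : Set (FreeGroup ℕ)) (r q : ℕ) (h : StrongDisc W r) :
    Single W r q := by
  classical
  intro w s hs ⟨x, hx⟩
  obtain ⟨y, hy⟩ := h q {w} s hs ⟨x, by simpa using hx⟩
  exact ⟨y, by simpa using hy⟩

/-- The quotients `F_r / K` with `K [F_r, F_r] F_r ^ M = F_r` generate the variety. -/
def PerfGen (W : Set (FreeGroup ℕ)) (r M : ℕ) : Prop :=
  ∀ (s : ℕ) (w : FreeGroup (Fin s)), w ∉ verb W s →
    ∃ K : Subgroup (RF W r), K.Normal ∧
      K ⊔ commutator (RF W r) ⊔ Subgroup.closure (Set.range fun x : RF W r => x ^ M) = ⊤ ∧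
      ∃ f : Fin s → RF W r, FreeGroup.lift f w ∉ K

theorem perfGen_single (W : Set (FreeGroup ℕ)) (r k M : ℕ)
    (hR : ResNil (RF W r) (fun n => ∀ p : ℕ, p.Prime → p ∣ n → p ∣ M))
    (hP : PerfGen W r M) : Single W r k := by
  classical
  intro w s hs ⟨x, hx⟩
  let E : FreeGroup (Fin r ⊕ Fin k) →* FreeGroup (Fin (r + k)) := FreeGroup.map finSumFinEquiv
  have hnon : E w ∉ verb W (r + k) := by
    intro hmem
    have h1 := verb_le_ker W (r + k) s (FreeGroup.lift (fun q => (Sum.elim
          (fun j : Fin r => (QuotientGroup.mk (FreeGroup.of (Fin.castLE hs j)) : RF W s))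
          x) (finSumFinEquiv.symm q))) hmem
    apply hx
    rw [MonoidHom.mem_ker, ← MonoidHom.comp_apply] at h1
    rw [← h1]
    congr 1
    ext q
    simp [E]
  obtain ⟨K, hKn, hK, f, hf⟩ := hP (r + k) (E w) hnon
  obtain ⟨y, hy⟩ := core W r k M {w} (fun l => f (Fin.castAdd k l)) (fun l => f (Fin.natAdd r l))
    K hK (by
      intro v hv h1
      rw [Finset.mem_singleton] at hv
      subst hv
      apply hf
      have h2 : FreeGroup.lift f (E v) = FreeGroup.lift (Sum.elim
          (fun l => f (Fin.castAdd k l)) (fun l => f (Fin.natAdd r l))) v := by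
        rw [← MonoidHom.comp_apply]
        congr 1
        ext q
        rcases q with q | q <;> simp [E]
      rw [h2]
      exact h1) hR
  exact ⟨y, hy w (Finset.mem_singleton_self w)⟩

lemma resFin_of_resNil {G : Type} [Group G] {S : ℕ → Prop} (h : ResNil G S) : ResFin G := by
  intro g hg
  obtain ⟨Q, i1, i2, -, -, φ, hφ⟩ := h g hg
  exact ⟨Q, i1, i2, φ, hφ⟩

theorem join_main (W : Set (FreeGroup ℕ)) {I : Type} (U : I → Set (FreeGroup ℕ)) (r : ℕ)
    (hJ : ∀ s, verb W s = ⨅ i, verb (U i) s)
    (hU : ∀ i, (ResFin (RF (U i) r) ∧ StrongDisc (U i) r) ∨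
      ∃ M : ℕ, ResNil (RF (U i) r) (fun n => ∀ p : ℕ, p.Prime → p ∣ n → p ∣ M) ∧
        PerfGen (U i) r M)
    (hD : Disc W r) : StrongDisc W r := by
  refine resFin_single W le_rfl (resFin_join W U r hJ fun i => ?_) hD
    (single_join W U r r hJ fun i => ?_)
  · rcases hU i with ⟨h, -⟩ | ⟨M, h, -⟩
    · exact h
    · exact resFin_of_resNil h
  · rcases hU i with ⟨-, h⟩ | ⟨M, h1, h2⟩
    · exact single_of_strongDisc (U i) r r h
    · exact perfGen_single (U i) r r M h1 h2

theorem perfGen_main (W : Set (FreeGroup ℕ)) (r M : ℕ)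
    (hres : ∃ H : Subgroup (RF W r), H.FiniteIndex ∧
      ResNil H (fun n => ∀ p : ℕ, p.Prime → p ∣ n → p ∣ M))
    (hD : Disc W r) (hP : PerfGen W r M) : StrongDisc W r := by
  have hR := resNil_of_virtually W r hD _ hres
  exact resFin_single W le_rfl (resFin_of_resNil hR) hD (perfGen_single W r r M hR hP)

lemma PerfDisc.gen {W : Set (FreeGroup ℕ)} {r M : ℕ} (h : PerfDisc W r M) : PerfGen W r M := by
  classical
  intro s w hw
  obtain ⟨K, h1, h2, f, hf⟩ := h s {w} (by simpa using hw)
  exact ⟨K, h1, h2, f, hf w (Finset.mem_singleton_self w)⟩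

end Pool.Agent.Work.MP_41f637_al.TP
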