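import Pool.Agent.Work.MP_41f637_al.Rel

/-!
# MP_41f637_al: from single inequalities to finite systems
-/

set_option autoImplicit false

namespace Pool.Agent.Work.MP_41f637_al

/-- Nonvanishing is kept when `z i` is replaced by `z i ^ A * u i ^ B` with `A = 1`, `B = 0`
modulo a suitable `Q`. -/
theorem robust {G : Type} [Group G] {r k : ℕ} (a : Fin r → G)
    (hres : ∀ g : G, g ≠ 1 → ∃ (P : Type) (_ : Group P) (_ : Finite P), ∃ φ : G →* P, φ g ≠ 1)
    (ws : Finset (FreeGroup (Fin r ⊕ Fin k))) (z : Fin k → G)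
    (h : ∀ w ∈ ws, FreeGroup.lift (Sum.elim a z) w ≠ 1) :
    ∃ Q : ℕ, 0 < Q ∧ ∀ A B : ℕ, A ≡ 1 [MOD Q] → B ≡ 0 [MOD Q] → ∀ u : Fin k → G, ∀ w ∈ ws,
      FreeGroup.lift (Sum.elim a (fun i => z i ^ A * u i ^ B)) w ≠ 1 := by
  classical
  induction ws using Finset.induction_on with
  | empty => exact ⟨1, one_pos, fun _ _ _ _ _ w hw => absurd hw (Finset.notMem_empty w)⟩
  | insert v ws hv ih =>
    obtain ⟨Q, hQ, hQ'⟩ := ih (fun w hw => h w (Finset.mem_insert_of_mem hw))
    obtain ⟨P, gP, fP, φ, hφ⟩ := hres _ (h v (Finset.mem_insert_self v ws))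
    refine ⟨Q * Nat.card P, Nat.mul_pos hQ Nat.card_pos, ?_⟩
    intro A B hA hB u w hw
    rw [Finset.mem_insert] at hw
    rcases hw with rfl | hw
    · intro h1
      apply hφ
      have h2 : φ (FreeGroup.lift (Sum.elim a (fun i => z i ^ A * u i ^ B)) w)
          = φ (FreeGroup.lift (Sum.elim a z) w) := by
        apply lift_congr
        rintro (j | i)
        · rfl
        · simp only [Sum.elim_inr, map_mul, map_pow]
          have hA' : A ≡ 1 [MOD Nat.card P] := hA.of_dvd (Dvd.intro_left Q rfl)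
          have hB' : B ≡ 0 [MOD Nat.card P] := hB.of_dvd (Dvd.intro_left Q rfl)
          rw [← pow_mod_natCard (φ (z i)) A, ← pow_mod_natCard (φ (u i)) B]
          rw [show A % Nat.card P = 1 % Nat.card P from hA',
            show B % Nat.card P = 0 % Nat.card P from hB']
          rw [pow_mod_natCard, pow_mod_natCard, pow_one, pow_zero, mul_one]
      rw [← h2, h1, map_one]
    · exact hQ' A B (hA.of_dvd (Dvd.intro _ rfl)) (hB.of_dvd (Dvd.intro _ rfl)) u w hw

/-- Strong discrimination from single inequalities. -/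
theorem strong {G : Type} [Group G] {r k : ℕ} (a : Fin r → G)
    (hres : ∀ g : G, g ≠ 1 → ∀ M : ℕ, ∃ p : ℕ, M < p ∧ p.Prime ∧
      ∃ (P : Type) (_ : Group P) (_ : Finite P), IsPGroup p P ∧ ∃ φ : G →* P, φ g ≠ 1)
    (ws : Finset (FreeGroup (Fin r ⊕ Fin k)))
    (h : ∀ w ∈ ws, ∃ z : Fin k → G, FreeGroup.lift (Sum.elim a z) w ≠ 1) :
    ∃ z : Fin k → G, ∀ w ∈ ws, FreeGroup.lift (Sum.elim a z) w ≠ 1 := by
  classical
  induction ws using Finset.induction_on with
  | empty => exact ⟨fun _ => 1, fun w hw => absurd hw (Finset.notMem_empty w)⟩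
  | insert v ws hv ih =>
    obtain ⟨z, hz⟩ := ih (fun w hw => h w (Finset.mem_insert_of_mem hw))
    obtain ⟨y, hy⟩ := h v (Finset.mem_insert_self v ws)
    obtain ⟨Q, hQ, hQ'⟩ := robust a (fun g hg => by
      obtain ⟨p, -, -, P, gP, fP, -, φ, hφ⟩ := hres g hg 0
      exact ⟨P, gP, fP, φ, hφ⟩) ws z hz
    obtain ⟨p, hpQ, hp, P, gP, fP, hP, φ, hφ⟩ := hres _ hy Q
    have : Fact p.Prime := ⟨hp⟩
    obtain ⟨n, hn⟩ := IsPGroup.iff_card.mp hP
    have hcop : Nat.Coprime Q (Nat.card P) := by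
      rw [hn]
      apply Nat.Coprime.pow_right
      rw [Nat.coprime_comm, Nat.Prime.coprime_iff_not_dvd hp]
      intro hd
      have := Nat.le_of_dvd hQ hd
      omega
    obtain ⟨A, hA1, hA2⟩ := Nat.chineseRemainder hcop 1 0
    obtain ⟨B, hB1, hB2⟩ := Nat.chineseRemainder hcop 0 1
    refine ⟨fun i => z i ^ A * y i ^ B, ?_⟩
    intro w hw
    rw [Finset.mem_insert] at hw
    rcases hw with rfl | hw
    · intro h1
      apply hφ
      have h2 : φ (FreeGroup.lift (Sum.elim a (fun i => z i ^ A * y i ^ B)) w)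
          = φ (FreeGroup.lift (Sum.elim a y) w) := by
        apply lift_congr
        rintro (j | i)
        · rfl
        · simp only [Sum.elim_inr, map_mul, map_pow]
          rw [← pow_mod_natCard (φ (z i)) A, ← pow_mod_natCard (φ (y i)) B]
          rw [show A % Nat.card P = 0 % Nat.card P from hA2,
            show B % Nat.card P = 1 % Nat.card P from hB2]
          rw [pow_mod_natCard, pow_mod_natCard, pow_one, pow_zero, one_mul]
      rw [← h2, h1, map_one]
    · exact hQ' A B hA1 hB1 y w hw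

end Pool.Agent.Work.MP_41f637_al
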