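import Mathlib

set_option autoImplicit false

namespace Pool.Agent.Work.MP_41f637_al.TP

/-- The verbal subgroup of the free group of rank `s` given by the laws `W`. -/
abbrev verb (W : Set (FreeGroup ℕ)) (s : ℕ) : Subgroup (FreeGroup (Fin s)) :=
  Subgroup.normalClosure
    {g : FreeGroup (Fin s) | ∃ u ∈ W, ∃ φ : FreeGroup ℕ →* FreeGroup (Fin s), φ u = g}

/-- The relatively free group of rank `s` of the variety with laws `W`. -/
abbrev RF (W : Set (FreeGroup ℕ)) (s : ℕ) : Type := FreeGroup (Fin s) ⧸ verb W s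

/-- `F_r` discriminates the variety. -/
def Disc (W : Set (FreeGroup ℕ)) (r : ℕ) : Prop :=
  ∀ (s : ℕ) (ws : Finset (FreeGroup (Fin s))),
    (∀ w ∈ ws, w ∉ verb W s) →
    ∃ f : Fin s → RF W r, ∀ w ∈ ws, FreeGroup.lift f w ≠ 1

/-- `F_r` strongly discriminates the variety. -/
def StrongDisc (W : Set (FreeGroup ℕ)) (r : ℕ) : Prop :=
  ∀ (k : ℕ) (ws : Finset (FreeGroup (Fin r ⊕ Fin k))) (s : ℕ) (hs : r ≤ s),
    (∃ x : Fin k → RF W s,
      ∀ w ∈ ws, FreeGroup.lift
        (Sum.elim
          (fun j : Fin r => (QuotientGroup.mk (FreeGroup.of (Fin.castLE hs j)) : RF W s))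
          x) w ≠ 1) →
    ∃ y : Fin k → RF W r,
      ∀ w ∈ ws, FreeGroup.lift
        (Sum.elim
          (fun j : Fin r => (QuotientGroup.mk (FreeGroup.of j) : RF W r))
          y) w ≠ 1

/-- every hom from the free group to a relatively free group kills the verbal subgroup -/
lemma verb_le_ker (W : Set (FreeGroup ℕ)) (s r : ℕ) (f : FreeGroup (Fin s) →* RF W r) :
    verb W s ≤ f.ker := by
  refine Subgroup.normalClosure_le_normal ?_
  rintro g ⟨u, hu, φ, rfl⟩
  have hsurj : ∀ n : ℕ, ∃ g : FreeGroup (Fin r), (QuotientGroup.mk g : RF W r) = f (φ (FreeGroup.of n)) :=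
    fun n => QuotientGroup.mk_surjective _
  choose g hg using hsurj
  have hcomp : f.comp φ = (QuotientGroup.mk' (verb W r)).comp (FreeGroup.lift g) := by
    ext n
    simp [hg n]
  have h1 : f (φ u) = QuotientGroup.mk' (verb W r) (FreeGroup.lift g u) := by
    have := DFunLike.congr_fun hcomp u
    simpa using this
  have h2 : FreeGroup.lift g u ∈ verb W r := by
    refine Subgroup.subset_normalClosure ⟨u, hu, FreeGroup.lift g, rfl⟩
  show φ u ∈ f.ker
  rw [MonoidHom.mem_ker, h1]
  exact (QuotientGroup.eq_one_iff _).2 h2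

/-- the verbal subgroup is fully invariant -/
lemma verb_map (W : Set (FreeGroup ℕ)) (s r : ℕ) (f : FreeGroup (Fin s) →* FreeGroup (Fin r))
    {w : FreeGroup (Fin s)} (hw : w ∈ verb W s) : f w ∈ verb W r := by
  have := verb_le_ker W s r ((QuotientGroup.mk' (verb W r)).comp f) hw
  rw [MonoidHom.mem_ker] at this
  exact (QuotientGroup.eq_one_iff _).1 this

/-- discrimination passes to subgroups of finite index (one word) -/
lemma disc_finiteIndex (W : Set (FreeGroup ℕ)) (r : ℕ) (hD : Disc W r)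
    (H : Subgroup (RF W r)) [H.FiniteIndex] (s : ℕ) (w : FreeGroup (Fin s)) (hw : w ∉ verb W s) :
    ∃ f : Fin s → H, FreeGroup.lift (fun i => (f i : RF W r)) w ≠ 1 := by
  classical
  have : Finite (RF W r ⧸ H) := inferInstance
  let _ : Fintype (Fin s → RF W r ⧸ H) := Fintype.ofFinite _
  set M : ℕ := Fintype.card (Fin s → RF W r ⧸ H) + 1 with hM
  let e : Fin M × Fin s ≃ Fin (M * s) := finProdFinEquiv
  let σ : Fin M → Fin M → (FreeGroup (Fin s) →* FreeGroup (Fin (M * s))) := fun i j =>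
    FreeGroup.lift (fun l => (FreeGroup.of (e (i, l)))⁻¹ * FreeGroup.of (e (j, l)))
  let τ : Fin M → (FreeGroup (Fin (M * s)) →* FreeGroup (Fin s)) := fun j =>
    FreeGroup.lift (fun q => if (e.symm q).1 = j then FreeGroup.of (e.symm q).2 else 1)
  have hτσ : ∀ i j, i ≠ j → ∀ v, τ j (σ i j v) = v := by
    intro i j hij v
    have : (τ j).comp (σ i j) = MonoidHom.id _ := by
      ext l
      simp [τ, σ, hij]
    have := DFunLike.congr_fun this v
    simpa using this
  obtain ⟨f, hf⟩ := hD (M * s)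
    ((Finset.univ.filter (fun q : Fin M × Fin M => q.1 ≠ q.2)).image (fun q => σ q.1 q.2 w))
    (by
      intro v hv hv'
      rw [Finset.mem_image] at hv
      obtain ⟨q, hq, rfl⟩ := hv
      have hq' : q.1 ≠ q.2 := (Finset.mem_filter.1 hq).2
      apply hw
      have := verb_map W _ _ (τ q.2) hv'
      rwa [hτσ _ _ hq'] at this)
  obtain ⟨i, j, hij, hEq⟩ := Fintype.exists_ne_map_eq_of_card_lt
    (fun i : Fin M => (fun l : Fin s => (QuotientGroup.mk (f (e (i, l))) : RF W r ⧸ H)))
    (by simp [hM])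
  have hmem : ∀ l, (f (e (i, l)))⁻¹ * f (e (j, l)) ∈ H := fun l =>
    QuotientGroup.eq.1 (congrFun hEq l)
  refine ⟨fun l => ⟨_, hmem l⟩, ?_⟩
  have h1 := hf (σ i j w) (Finset.mem_image.2 ⟨(i, j), by simp [hij], rfl⟩)
  have h2 : (FreeGroup.lift f).comp (σ i j) =
      FreeGroup.lift (fun l => (f (e (i, l)))⁻¹ * f (e (j, l))) := by
    ext l
    simp [σ]
  have h3 := DFunLike.congr_fun h2 w
  simp only [MonoidHom.comp_apply] at h3
  rw [h3] at h1
  exact h1

/-- exponent sum -/
def expo {r : ℕ} (j : Fin r) : FreeGroup (Fin r) →* Multiplicative ℤ :=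
  FreeGroup.lift (fun i => if i = j then Multiplicative.ofAdd 1 else 1)

lemma lift_comm {r : ℕ} {A : Type} [CommGroup A] (v : Fin r → A) (β : FreeGroup (Fin r)) :
    FreeGroup.lift v β = ∏ j, v j ^ (Multiplicative.toAdd (expo j β)) := by
  classical
  induction β using FreeGroup.induction_on with
  | C1 => simp
  | of i =>
    simp only [FreeGroup.lift_apply_of, expo]
    rw [Finset.prod_eq_single i]
    · simp
    · intro j _ hj
      simp [Ne.symm hj]
    · simp
  | inv_of i h =>
    rw [map_inv, h, ← Finset.prod_inv_distrib]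
    refine Finset.prod_congr rfl fun j _ => ?_
    rw [map_inv, toAdd_inv, zpow_neg]
  | mul a b ha hb =>
    rw [map_mul, ha, hb, ← Finset.prod_mul_distrib]
    refine Finset.prod_congr rfl fun j _ => ?_
    rw [map_mul, toAdd_mul, zpow_add]

lemma zpow_sum' {A ι : Type} [CommGroup A] (a : A) (s : Finset ι) (f : ι → ℤ) :
    a ^ (∑ i ∈ s, f i) = ∏ i ∈ s, a ^ (f i) := by
  classical
  induction s using Finset.induction_on with
  | empty => simp
  | insert i s hi ih => rw [Finset.sum_insert hi, Finset.prod_insert hi, zpow_add, ih]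

lemma det_kill {r : ℕ} {A : Type} [CommGroup A] (v : Fin r → A) (B : Matrix (Fin r) (Fin r) ℤ)
    (hB : ∀ l, ∏ j, v j ^ (B l j) = 1) (j : Fin r) : v j ^ B.det = 1 := by
  classical
  have h1 : B.adjugate * B = B.det • (1 : Matrix (Fin r) (Fin r) ℤ) := Matrix.adjugate_mul B
  have h2 : ∏ i, v i ^ ((B.adjugate * B) j i) = 1 := by
    calc ∏ i, v i ^ ((B.adjugate * B) j i)
        = ∏ i, ∏ l, (v i ^ (B l i)) ^ (B.adjugate j l) := by
          refine Finset.prod_congr rfl fun i _ => ?_
          rw [Matrix.mul_apply, zpow_sum']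
          refine Finset.prod_congr rfl fun l _ => ?_
          rw [← zpow_mul, mul_comm]
      _ = ∏ l, ∏ i, (v i ^ (B l i)) ^ (B.adjugate j l) := Finset.prod_comm
      _ = ∏ l : Fin r, (1 : A) := by
          refine Finset.prod_congr rfl fun l _ => ?_
          rw [Finset.prod_zpow, hB l, one_zpow]
      _ = 1 := by simp
  rw [h1] at h2
  rw [Finset.prod_eq_single j] at h2
  · simpa using h2
  · intro i _ hi
    simp [Ne.symm hi]
  · simp

/-- generation in finite nilpotent groups of order prime to the determinant -/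
lemma generate {r : ℕ} {Q : Type} [Group Q] [Finite Q] (hnil : Group.IsNilpotent Q)
    (h : Fin r → Q) (hgen : Subgroup.closure (Set.range h) = ⊤)
    (β : Fin r → FreeGroup (Fin r))
    (hcop : (Nat.card Q).Coprime
      (Matrix.det (Matrix.of fun l j => Multiplicative.toAdd (expo j (β l)))).natAbs) :
    Subgroup.closure (Set.range fun l => FreeGroup.lift h (β l)) = ⊤ := by
  classical
  rcases eq_top_or_exists_le_coatom
    (Subgroup.closure (Set.range fun l => FreeGroup.lift h (β l))) with hS | ⟨M, hM, hSM⟩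
  · exact hS
  exfalso
  have hMn : M.Normal := by
    have := (Group.isNilpotent_of_finite_tfae (G := Q)).out 0 2
    exact this.1 hnil M hM
  obtain ⟨x, hx⟩ : ∃ x, x ∉ M := by
    by_contra hcon
    push Not at hcon
    exact hM.1 (eq_top_iff.2 fun y _ => hcon y)
  have hsup : M ⊔ Subgroup.zpowers x = ⊤ := by
    refine hM.2 _ (lt_of_le_of_ne le_sup_left ?_)
    intro heq
    apply hx
    rw [heq]
    exact Subgroup.mem_sup_right (Subgroup.mem_zpowers x)
  have hcyc : ∀ q : Q, ∃ n : ℤ, (QuotientGroup.mk q : Q ⧸ M) = (QuotientGroup.mk x : Q ⧸ M) ^ n := by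
    intro q
    have hq : q ∈ M ⊔ Subgroup.zpowers x := by rw [hsup]; trivial
    rw [Subgroup.mem_sup_of_normal_left] at hq
    obtain ⟨y, hy, z, hz, rfl⟩ := hq
    obtain ⟨n, rfl⟩ := Subgroup.mem_zpowers_iff.1 hz
    refine ⟨n, ?_⟩
    rw [QuotientGroup.mk_mul, (QuotientGroup.eq_one_iff y).2 hy, one_mul, QuotientGroup.mk_zpow]
  have hcomm : ∀ a b : Q ⧸ M, a * b = b * a := by
    intro a b
    obtain ⟨a', rfl⟩ := QuotientGroup.mk_surjective a
    obtain ⟨b', rfl⟩ := QuotientGroup.mk_surjective b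
    obtain ⟨m, hm⟩ := hcyc a'
    obtain ⟨n, hn⟩ := hcyc b'
    rw [hm, hn, ← zpow_add, ← zpow_add, add_comm]
  let _ : CommGroup (Q ⧸ M) := { (inferInstance : Group (Q ⧸ M)) with mul_comm := hcomm }
  have hv := det_kill (fun j => (QuotientGroup.mk (h j) : Q ⧸ M))
    (Matrix.of fun l j => Multiplicative.toAdd (expo j (β l))) (by
      intro l
      have h1 := lift_comm (fun j => (QuotientGroup.mk (h j) : Q ⧸ M)) (β l)
      have h2 : FreeGroup.lift (fun j => (QuotientGroup.mk (h j) : Q ⧸ M)) =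
          (QuotientGroup.mk' M).comp (FreeGroup.lift h) := by
        ext j
        simp
      have h3 : FreeGroup.lift (fun j => (QuotientGroup.mk (h j) : Q ⧸ M)) (β l) = 1 := by
        rw [h2, MonoidHom.comp_apply]
        exact (QuotientGroup.eq_one_iff _).2 (hSM (Subgroup.subset_closure ⟨l, rfl⟩))
      rw [h3] at h1
      simpa using h1.symm)
  apply hM.1
  rw [eq_top_iff, ← hgen, Subgroup.closure_le]
  rintro _ ⟨j, rfl⟩
  have h1 : (QuotientGroup.mk (h j) : Q ⧸ M) ^ (Nat.card Q) = 1 := by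
    rw [← QuotientGroup.mk_pow, pow_card_eq_one', QuotientGroup.mk_one]
  have h2 : (QuotientGroup.mk (h j) : Q ⧸ M) ^
      (Matrix.det (Matrix.of fun l j => Multiplicative.toAdd (expo j (β l)))).natAbs = 1 := by
    have h3 := hv j
    rcases Int.natAbs_eq
      (Matrix.det (Matrix.of fun l j => Multiplicative.toAdd (expo j (β l)))) with h4 | h4
    · rw [h4, zpow_natCast] at h3
      exact h3
    · rw [h4, zpow_neg, zpow_natCast, inv_eq_one] at h3
      exact h3
  have h5 := pow_gcd_eq_one.2 ⟨h1, h2⟩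
  rw [hcop, pow_one] at h5
  exact (QuotientGroup.eq_one_iff _).1 h5

/-- residual property: non-trivial elements survive in finite nilpotent quotients whose order
satisfies `S` -/
def ResNil (G : Type) [Group G] (S : ℕ → Prop) : Prop :=
  ∀ g : G, g ≠ 1 → ∃ (Q : Type) (_ : Group Q) (_ : Finite Q),
    Group.IsNilpotent Q ∧ S (Nat.card Q) ∧ ∃ φ : G →* Q, φ g ≠ 1

/-- residual property: non-trivial elements survive in images of finite exponent prime to `M` -/
def ResExp (G : Type) [Group G] (M : ℕ) : Prop :=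
  ∀ g : G, g ≠ 1 → ∃ (P : Type) (_ : Group P) (e : ℕ),
    0 < e ∧ e.Coprime M ∧ (∀ x : P, x ^ e = 1) ∧ ∃ φ : G →* P, φ g ≠ 1

lemma exists_hom_finiteIndex (W : Set (FreeGroup ℕ)) (r : ℕ) (hD : Disc W r)
    (H : Subgroup (RF W r)) [H.FiniteIndex] (g : RF W r) (hg : g ≠ 1) :
    ∃ θ : RF W r →* H, θ g ≠ 1 := by
  obtain ⟨w, rfl⟩ := QuotientGroup.mk_surjective g
  have hw : w ∉ verb W r := fun h => hg ((QuotientGroup.eq_one_iff _).2 h)
  obtain ⟨f, hf⟩ := disc_finiteIndex W r hD H r w hw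
  have hcomp : (H.subtype).comp (FreeGroup.lift f) = FreeGroup.lift (fun i => (f i : RF W r)) := by
    ext i
    simp
  have hker : verb W r ≤ (FreeGroup.lift f).ker := by
    intro v hv
    have h1 := verb_le_ker W r r (FreeGroup.lift (fun i => (f i : RF W r))) hv
    rw [MonoidHom.mem_ker, ← hcomp, MonoidHom.comp_apply] at h1
    rw [MonoidHom.mem_ker]
    exact H.subtype_injective (by simpa using h1)
  refine ⟨QuotientGroup.lift (verb W r) (FreeGroup.lift f) hker, ?_⟩
  intro h1
  apply hf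
  rw [← hcomp, MonoidHom.comp_apply]
  have h2 : FreeGroup.lift f w = 1 := by simpa using h1
  rw [h2, map_one]

lemma resNil_of_virtually (W : Set (FreeGroup ℕ)) (r : ℕ) (hD : Disc W r) (S : ℕ → Prop)
    (hres : ∃ H : Subgroup (RF W r), H.FiniteIndex ∧ ResNil H S) : ResNil (RF W r) S := by
  obtain ⟨H, hH, hHres⟩ := hres
  intro g hg
  obtain ⟨θ, hθ⟩ := exists_hom_finiteIndex W r hD H g hg
  obtain ⟨Q, i1, i2, h3, h4, φ, hφ⟩ := hHres _ hθ
  exact ⟨Q, i1, i2, h3, h4, φ.comp θ, hφ⟩

lemma resExp_of_virtually (W : Set (FreeGroup ℕ)) (r : ℕ) (hD : Disc W r) (M : ℕ)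
    (hres : ∃ H : Subgroup (RF W r), H.FiniteIndex ∧ ResExp H M) : ResExp (RF W r) M := by
  obtain ⟨H, hH, hHres⟩ := hres
  intro g hg
  obtain ⟨θ, hθ⟩ := exists_hom_finiteIndex W r hD H g hg
  obtain ⟨P, i1, e, h2, h3, h4, φ, hφ⟩ := hHres _ hθ
  exact ⟨P, i1, e, h2, h3, h4, φ.comp θ, hφ⟩

/-- finitely many non-trivial elements survive simultaneously -/
lemma resNil_finset {G : Type} [Group G] {S : ℕ → Prop} (hG : ResNil G S) (hS1 : S 1)
    (hSmul : ∀ a b, S a → S b → S (a * b)) {ι : Type} (T : Finset ι)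
    (g : ι → G) (hg : ∀ i ∈ T, g i ≠ 1) :
    ∃ (Q : Type) (_ : Group Q) (_ : Finite Q),
      Group.IsNilpotent Q ∧ S (Nat.card Q) ∧ ∃ φ : G →* Q, ∀ i ∈ T, φ (g i) ≠ 1 := by
  classical
  induction T using Finset.induction_on with
  | empty =>
    refine ⟨Unit, inferInstance, inferInstance, inferInstance, ?_, 1, by simp⟩
    simpa using hS1
  | insert a T ha ih =>
    obtain ⟨Q, i1, i2, h1, h2, φ, hφ⟩ := ih (fun i hi => hg i (Finset.mem_insert_of_mem hi))
    obtain ⟨Q', i1', i2', h1', h2', φ', hφ'⟩ := hG (g a) (hg a (Finset.mem_insert_self _ _))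
    refine ⟨Q × Q', inferInstance, inferInstance, ?_, ?_, φ.prod φ', ?_⟩
    · exact Group.isNilpotent_prod
    · rw [Nat.card_prod]
      exact hSmul _ _ h2 h2'
    · intro i hi
      rcases Finset.mem_insert.1 hi with rfl | hi
      · intro h
        exact hφ' (congrArg Prod.snd h)
      · intro h
        exact hφ i hi (congrArg Prod.fst h)

lemma resExp_finset {G : Type} [Group G] {M : ℕ} (hG : ResExp G M) {ι : Type} (T : Finset ι)
    (g : ι → G) (hg : ∀ i ∈ T, g i ≠ 1) :
    ∃ (P : Type) (_ : Group P) (e : ℕ),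
      0 < e ∧ e.Coprime M ∧ (∀ x : P, x ^ e = 1) ∧ ∃ φ : G →* P, ∀ i ∈ T, φ (g i) ≠ 1 := by
  classical
  induction T using Finset.induction_on with
  | empty =>
    exact ⟨Unit, inferInstance, 1, one_pos, by simp, by simp, 1, by simp⟩
  | insert a T ha ih =>
    obtain ⟨Q, i1, e, h1, h2, h3, φ, hφ⟩ := ih (fun i hi => hg i (Finset.mem_insert_of_mem hi))
    obtain ⟨Q', i1', e', h1', h2', h3', φ', hφ'⟩ := hG (g a) (hg a (Finset.mem_insert_self _ _))
    refine ⟨Q × Q', inferInstance, e * e', Nat.mul_pos h1 h1', Nat.Coprime.mul_left h2 h2', ?_,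
      φ.prod φ', ?_⟩
    · rintro ⟨x, y⟩
      refine Prod.ext ?_ ?_
      · simp [pow_mul, h3]
      · simp [mul_comm e e', pow_mul, h3']
    · intro i hi
      rcases Finset.mem_insert.1 hi with rfl | hi
      · intro h
        exact hφ' (congrArg Prod.snd h)
      · intro h
        exact hφ i hi (congrArg Prod.fst h)

/-- a matrix that is the identity modulo `M` has determinant prime to `M` -/
lemma det_coprime {r : ℕ} (B : Matrix (Fin r) (Fin r) ℤ) (M : ℕ)
    (hB : ∀ i j, (M : ℤ) ∣ B i j - (1 : Matrix (Fin r) (Fin r) ℤ) i j) (p : ℕ) (hp : p.Prime)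
    (hpM : p ∣ M) : ¬ p ∣ B.det.natAbs := by
  classical
  intro h
  have h1 : ((B.det : ℤ) : ZMod p) = 1 := by
    have h4 := RingHom.map_det (Int.castRingHom (ZMod p)) B
    have h5 : (Int.castRingHom (ZMod p)).mapMatrix B = 1 := by
      ext i j
      have h6 : ((p : ℕ) : ℤ) ∣ B i j - (1 : Matrix (Fin r) (Fin r) ℤ) i j :=
        dvd_trans (Int.natCast_dvd_natCast.2 hpM) (hB i j)
      have h7 : (((B i j - (1 : Matrix (Fin r) (Fin r) ℤ) i j : ℤ)) : ZMod p) = 0 :=
        (ZMod.intCast_zmod_eq_zero_iff_dvd _ _).2 h6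
      rw [Int.cast_sub, sub_eq_zero] at h7
      simp only [RingHom.mapMatrix_apply, Matrix.map_apply, eq_intCast]
      rw [h7]
      simp only [Matrix.one_apply]
      split_ifs <;> simp
    rw [h5, Matrix.det_one] at h4
    simpa using h4
  have h2 : ((B.det : ℤ) : ZMod p) = 0 :=
    (ZMod.intCast_zmod_eq_zero_iff_dvd _ _).2 (Int.natCast_dvd.2 h)
  rw [h2] at h1
  have : Fact (1 < p) := ⟨hp.one_lt⟩
  exact zero_ne_one h1

/-- elements of `[F, F] F^M` have lifts with exponent sums divisible by `M` -/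
lemma lift_expo (W : Set (FreeGroup ℕ)) (r M : ℕ) (u : RF W r)
    (hu : u ∈ commutator (RF W r) ⊔ Subgroup.closure (Set.range fun x : RF W r => x ^ M)) :
    ∃ υ : FreeGroup (Fin r), (QuotientGroup.mk υ : RF W r) = u ∧
      ∀ j, (M : ℤ) ∣ Multiplicative.toAdd (expo j υ) := by
  let T : Subgroup (FreeGroup (Fin r)) :=
    { carrier := {υ | ∀ j, (M : ℤ) ∣ Multiplicative.toAdd (expo j υ)}
      one_mem' := by intro j; simp
      mul_mem' := by
        intro a b ha hb j
        rw [map_mul, toAdd_mul]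
        exact dvd_add (ha j) (hb j)
      inv_mem' := by
        intro a ha j
        rw [map_inv, toAdd_inv]
        exact (dvd_neg).2 (ha j) }
  have hT : commutator (RF W r) ⊔ Subgroup.closure (Set.range fun x : RF W r => x ^ M) ≤
      T.map (QuotientGroup.mk' (verb W r)) := by
    refine sup_le ?_ ?_
    · rw [commutator_eq_closure, Subgroup.closure_le]
      rintro _ ⟨x, y, rfl⟩
      obtain ⟨x, rfl⟩ := QuotientGroup.mk_surjective x
      obtain ⟨y, rfl⟩ := QuotientGroup.mk_surjective y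
      refine ⟨x * y * x⁻¹ * y⁻¹, ?_, rfl⟩
      intro j
      simp only [map_mul, map_inv, toAdd_mul, toAdd_inv]
      have : (Multiplicative.toAdd (expo j x) + Multiplicative.toAdd (expo j y) +
        -Multiplicative.toAdd (expo j x) + -Multiplicative.toAdd (expo j y)) = 0 := by ring
      rw [this]
      exact dvd_zero _
    · rw [Subgroup.closure_le]
      rintro _ ⟨x, rfl⟩
      obtain ⟨x, rfl⟩ := QuotientGroup.mk_surjective x
      refine ⟨x ^ M, ?_, rfl⟩
      intro j
      rw [map_pow, toAdd_pow]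
      exact ⟨Multiplicative.toAdd (expo j x), by simp⟩
  obtain ⟨υ, hυ, rfl⟩ := hT hu
  exact ⟨υ, rfl, hυ⟩

/-- The two-stage argument. -/
lemma core (W : Set (FreeGroup ℕ)) (r k M : ℕ) (ws : Finset (FreeGroup (Fin r ⊕ Fin k)))
    (b : Fin r → RF W r) (c : Fin k → RF W r)
    (K : Subgroup (RF W r)) [K.Normal]
    (hK : K ⊔ commutator (RF W r) ⊔ Subgroup.closure (Set.range fun x : RF W r => x ^ M) = ⊤)
    (hbc : ∀ w ∈ ws, FreeGroup.lift (Sum.elim b c) w ∉ K)
    (hR : ResNil (RF W r) (fun n => ∀ p : ℕ, p.Prime → p ∣ n → p ∣ M)) :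
    ∃ y : Fin k → RF W r,
      ∀ w ∈ ws, FreeGroup.lift
        (Sum.elim
          (fun j : Fin r => (QuotientGroup.mk (FreeGroup.of j) : RF W r))
          y) w ≠ 1 := by
  classical
  have hex : ∀ l : Fin r, ∃ (κ : RF W r) (υ : FreeGroup (Fin r)), κ ∈ K ∧
      b l * κ = QuotientGroup.mk (FreeGroup.of l * υ) ∧
      ∀ j, (M : ℤ) ∣ Multiplicative.toAdd (expo j υ) := by
    intro l
    have h1 : (b l)⁻¹ * QuotientGroup.mk (FreeGroup.of l) ∈
        K ⊔ (commutator (RF W r) ⊔ Subgroup.closure (Set.range fun x : RF W r => x ^ M)) := by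
      rw [← sup_assoc, hK]; trivial
    rw [Subgroup.mem_sup_of_normal_left] at h1
    obtain ⟨κ, hκ, u, hu, hku⟩ := h1
    obtain ⟨υ, hυ, hυM⟩ := lift_expo W r M u⁻¹ (inv_mem hu)
    refine ⟨κ, υ, hκ, ?_, hυM⟩
    rw [QuotientGroup.mk_mul, hυ]
    have h2 : κ = (b l)⁻¹ * QuotientGroup.mk (FreeGroup.of l) * u⁻¹ := by
      rw [← hku]; group
    rw [h2]
    group
  choose κ υ hκ hbκ hυ using hex
  let β' : Fin r → FreeGroup (Fin r) := fun l => FreeGroup.of l * υ l
  let b' : Fin r → RF W r := fun l => QuotientGroup.mk (β' l)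
  have hdet : ∀ p : ℕ, p.Prime → p ∣ M →
      ¬ p ∣ (Matrix.det (Matrix.of fun l j => Multiplicative.toAdd (expo j (β' l)))).natAbs := by
    intro p hp hpM
    refine det_coprime _ M ?_ p hp hpM
    intro i j
    have h1 : (Matrix.of fun l j => Multiplicative.toAdd (expo j (β' l))) i j -
        (1 : Matrix (Fin r) (Fin r) ℤ) i j = Multiplicative.toAdd (expo j (υ i)) := by
      simp only [Matrix.of_apply, β', map_mul, toAdd_mul, Matrix.one_apply]
      have h2 : Multiplicative.toAdd (expo j (FreeGroup.of i)) = if i = j then 1 else 0 := by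
        simp only [expo, FreeGroup.lift_apply_of]
        split_ifs <;> simp
      rw [h2]
      ring
    rw [h1]
    exact hυ i j
  have hb'c : ∀ w ∈ ws, FreeGroup.lift (Sum.elim b' c) w ≠ 1 := by
    intro w hw h1
    apply hbc w hw
    have h2 : (QuotientGroup.mk' K).comp (FreeGroup.lift (Sum.elim b c)) =
        (QuotientGroup.mk' K).comp (FreeGroup.lift (Sum.elim b' c)) := by
      ext q
      rcases q with q | q
      · simp only [MonoidHom.comp_apply, FreeGroup.lift_apply_of, Sum.elim_inl,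
          QuotientGroup.mk'_apply]
        rw [QuotientGroup.eq]
        have h3 : b' q = b q * κ q := (hbκ q).symm
        rw [h3, inv_mul_cancel_left]
        exact hκ q
      · simp
    have h3 := DFunLike.congr_fun h2 w
    simp only [MonoidHom.comp_apply] at h3
    rw [h1, map_one] at h3
    exact (QuotientGroup.eq_one_iff _).1 h3
  -- the second quotient
  obtain ⟨Q, iQ1, iQ2, hQn, hQc, φ, hφ⟩ := resNil_finset hR
    (fun p hp h1 => absurd (Nat.dvd_one.1 h1) hp.one_lt.ne')
    (fun a b ha hb p hp h1 => by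
      rcases (Nat.Prime.dvd_mul hp).1 h1 with h2 | h2
      · exact ha p hp h2
      · exact hb p hp h2) ws
    (fun w => FreeGroup.lift (Sum.elim b' c) w) hb'c
  let π : FreeGroup (Fin r) →* Q := φ.comp (QuotientGroup.mk' (verb W r))
  let Q0 : Subgroup Q := π.range
  let h : Fin r → Q0 := fun l => ⟨π (FreeGroup.of l), ⟨_, rfl⟩⟩
  have hlift : ∀ v : FreeGroup (Fin r), (FreeGroup.lift h v : Q) = π v := by
    intro v
    have h1 : (Q0.subtype).comp (FreeGroup.lift h) = π := by
      ext l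
      simp [h]
    exact DFunLike.congr_fun h1 v
  have hgen : Subgroup.closure (Set.range h) = ⊤ := by
    rw [← FreeGroup.range_lift_eq_closure, eq_top_iff]
    rintro ⟨_, ⟨v, rfl⟩⟩ -
    exact ⟨v, Subtype.ext (hlift v)⟩
  have hcop : (Nat.card Q0).Coprime
      (Matrix.det (Matrix.of fun l j => Multiplicative.toAdd (expo j (β' l)))).natAbs := by
    refine Nat.coprime_of_dvd ?_
    intro p hp h1 h2
    exact hdet p hp (hQc p hp (h1.trans (Subgroup.card_subgroup_dvd_card Q0))) h2
  have hgen' := generate (Q := Q0) (Subgroup.isNilpotent Q0) h hgen β' hcop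
  -- express the `c l` through the `b' l` in `Q`
  have hc : ∀ l : Fin k, ∃ t : FreeGroup (Fin r),
      FreeGroup.lift (fun j => φ (b' j)) t = φ (c l) := by
    intro l
    obtain ⟨γ, hγ⟩ := QuotientGroup.mk_surjective (s := verb W r) (c l)
    have h1 : (⟨π γ, ⟨γ, rfl⟩⟩ : Q0) ∈
        Subgroup.closure (Set.range fun l => FreeGroup.lift h (β' l)) := by
      rw [hgen']; trivial
    rw [← FreeGroup.range_lift_eq_closure] at h1
    obtain ⟨t, ht⟩ := h1
    refine ⟨t, ?_⟩
    have h2 : (Q0.subtype).comp (FreeGroup.lift (fun l => FreeGroup.lift h (β' l))) =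
        FreeGroup.lift (fun j => φ (b' j)) := by
      ext j
      simp only [MonoidHom.comp_apply, FreeGroup.lift_apply_of, Subgroup.coe_subtype]
      exact hlift (β' j)
    rw [← h2, MonoidHom.comp_apply, ht]
    show π γ = φ (c l)
    rw [← hγ]
    rfl
  choose t ht using hc
  refine ⟨fun l => QuotientGroup.mk (t l), ?_⟩
  intro w hw h1
  apply hφ w hw
  -- the endomorphism `a l ↦ b' l`
  let θ : RF W r →* RF W r := QuotientGroup.lift (verb W r) (FreeGroup.lift b')
    (verb_le_ker W r r _)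
  have h2 : (φ.comp θ).comp (FreeGroup.lift (Sum.elim
      (fun j : Fin r => (QuotientGroup.mk (FreeGroup.of j) : RF W r))
      (fun l => QuotientGroup.mk (t l)))) = φ.comp (FreeGroup.lift (Sum.elim b' c)) := by
    ext q
    rcases q with q | q
    · simp [θ]
    · simp only [MonoidHom.comp_apply, FreeGroup.lift_apply_of, Sum.elim_inr]
      rw [← ht q]
      show φ (FreeGroup.lift b' (t q)) = _
      rw [← MonoidHom.comp_apply]
      congr 1
      ext j
      simp
  have h3 := DFunLike.congr_fun h2 w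
  simp only [MonoidHom.comp_apply] at h3
  rw [← h3, h1, map_one, map_one]

/-- The quotients `F_r / K` with `K [F_r, F_r] F_r ^ M = F_r` (equivalently: without quotients of
prime order dividing `M`) discriminate the variety. -/
def PerfDisc (W : Set (FreeGroup ℕ)) (r M : ℕ) : Prop :=
  ∀ (s : ℕ) (ws : Finset (FreeGroup (Fin s))), (∀ w ∈ ws, w ∉ verb W s) →
    ∃ K : Subgroup (RF W r), K.Normal ∧
      K ⊔ commutator (RF W r) ⊔ Subgroup.closure (Set.range fun x : RF W r => x ^ M) = ⊤ ∧
      ∃ f : Fin s → RF W r, ∀ w ∈ ws, FreeGroup.lift f w ∉ K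

lemma PerfDisc.disc {W : Set (FreeGroup ℕ)} {r M : ℕ} (h : PerfDisc W r M) : Disc W r := by
  intro s ws hws
  obtain ⟨K, -, -, f, hf⟩ := h s ws hws
  exact ⟨f, fun w hw h1 => hf w hw (h1 ▸ K.one_mem)⟩

theorem main (W : Set (FreeGroup ℕ)) (r M : ℕ)
    (hres : ∃ H : Subgroup (RF W r), H.FiniteIndex ∧
      ResNil H (fun n => ∀ p : ℕ, p.Prime → p ∣ n → p ∣ M))
    (hD : PerfDisc W r M) : StrongDisc W r := by
  classical
  have hR := resNil_of_virtually W r hD.disc _ hres
  intro k ws s hs ⟨x, hx⟩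
  let E : FreeGroup (Fin r ⊕ Fin k) →* FreeGroup (Fin (r + k)) := FreeGroup.map finSumFinEquiv
  have hnon : ∀ w ∈ ws, E w ∉ verb W (r + k) := by
    intro w hw hmem
    have h1 := verb_le_ker W (r + k) s (FreeGroup.lift (fun q => (Sum.elim
          (fun j : Fin r => (QuotientGroup.mk (FreeGroup.of (Fin.castLE hs j)) : RF W s))
          x) (finSumFinEquiv.symm q))) hmem
    apply hx w hw
    rw [MonoidHom.mem_ker, ← MonoidHom.comp_apply] at h1
    rw [← h1]
    congr 1
    ext q
    simp [E]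
  obtain ⟨K, hKn, hK, f, hf⟩ := hD (r + k) (ws.image E) (by
    intro v hv
    obtain ⟨w, hw, rfl⟩ := Finset.mem_image.1 hv
    exact hnon w hw)
  refine core W r k M ws (fun l => f (Fin.castAdd k l)) (fun l => f (Fin.natAdd r l)) K hK ?_ hR
  intro w hw h1
  apply hf (E w) (Finset.mem_image_of_mem _ hw)
  have h2 : FreeGroup.lift f (E w) = FreeGroup.lift (Sum.elim
      (fun l => f (Fin.castAdd k l)) (fun l => f (Fin.natAdd r l))) w := by
    rw [← MonoidHom.comp_apply]
    congr 1
    ext q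
    rcases q with q | q <;> simp [E]
  rw [h2]
  exact h1

/-- discrimination by a group which is residually of finite exponent prime to `M` -/
lemma perfDisc_of_exp (W : Set (FreeGroup ℕ)) (r M : ℕ) (hD : Disc W r)
    (hres : ∃ H : Subgroup (RF W r), H.FiniteIndex ∧ ResExp H M) : PerfDisc W r M := by
  classical
  intro s ws hws
  obtain ⟨f, hf⟩ := hD s ws hws
  obtain ⟨P, iP, e, he, heM, hPe, φ, hφ⟩ := resExp_finset (resExp_of_virtually W r hD M hres) ws
    (fun w => FreeGroup.lift f w) hf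
  refine ⟨φ.ker, inferInstance, ?_, f, fun w hw h1 => hφ w hw h1⟩
  rw [eq_top_iff]
  intro x _
  have h1 : x ^ e ∈ φ.ker ⊔ commutator (RF W r) ⊔
      Subgroup.closure (Set.range fun x : RF W r => x ^ M) := by
    refine Subgroup.mem_sup_left (Subgroup.mem_sup_left ?_)
    rw [MonoidHom.mem_ker, map_pow, hPe]
  have h2 : x ^ M ∈ φ.ker ⊔ commutator (RF W r) ⊔
      Subgroup.closure (Set.range fun x : RF W r => x ^ M) :=
    Subgroup.mem_sup_right (Subgroup.subset_closure ⟨x, rfl⟩)
  obtain ⟨u, v, huv⟩ := Nat.isCoprime_iff_coprime.2 heM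
  have h3 : x = (x ^ e) ^ u * (x ^ M) ^ v := by
    rw [← zpow_natCast x e, ← zpow_natCast x M, ← zpow_mul, ← zpow_mul, ← zpow_add,
      mul_comm (e : ℤ) u, mul_comm (M : ℤ) v, huv, zpow_one]
  rw [h3]
  exact mul_mem (zpow_mem h1 u) (zpow_mem h2 v)

end Pool.Agent.Work.MP_41f637_al.TP
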