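import Mathlib

/-!
# MP_41f637_al: verbal Zariski topologies on the powers of a group
-/

set_option autoImplicit false

namespace Pool.Agent.Work.MP_41f637_al.Lin

open TopologicalSpace Set

/-- Word maps with parameters on the power `ι → Γ`. -/
def WM (Γ : Type*) [Group Γ] (ι : Type*) : Subgroup ((ι → Γ) → Γ) :=
  Subgroup.closure (Set.range (fun (i : ι) (x : ι → Γ) => x i) ∪
    Set.range (fun (c : Γ) (_ : ι → Γ) => c))

/-- The Zariski topology: the coarsest topology on `ι → Γ` for which the solution set of every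
equation with parameters is closed. -/
@[instance_reducible]
def zar (Γ : Type*) [Group Γ] (ι : Type*) : TopologicalSpace (ι → Γ) :=
  generateFrom {U | ∃ f ∈ WM Γ ι, U = {x | f x ≠ 1}}

attribute [local instance] zar

section basic

variable {Γ : Type*} [Group Γ] {ι κ : Type*}

theorem proj_mem (i : ι) : (fun x : ι → Γ => x i) ∈ WM Γ ι :=
  Subgroup.subset_closure (Or.inl ⟨i, rfl⟩)

theorem const_mem (c : Γ) : (fun _ : ι → Γ => c) ∈ WM Γ ι :=
  Subgroup.subset_closure (Or.inr ⟨c, rfl⟩)

theorem comp_mem {g : (κ → Γ) → (ι → Γ)} (hg : ∀ i, (fun x => g x i) ∈ WM Γ κ)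
    {f : (ι → Γ) → Γ} (hf : f ∈ WM Γ ι) : (fun x => f (g x)) ∈ WM Γ κ := by
  induction hf using Subgroup.closure_induction with
  | mem f hf =>
    rcases hf with ⟨i, rfl⟩ | ⟨c, rfl⟩
    · exact hg i
    · exact const_mem c
  | one => exact (WM Γ κ).one_mem
  | mul f f' _ _ h h' => exact (WM Γ κ).mul_mem h h'
  | inv f _ h => exact (WM Γ κ).inv_mem h

theorem lift_mem {σ : Type*} {g : (κ → Γ) → (σ → Γ)} (hg : ∀ i, (fun x => g x i) ∈ WM Γ κ)
    (w : FreeGroup σ) : (fun x => FreeGroup.lift (g x) w) ∈ WM Γ κ := by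
  induction w using FreeGroup.induction_on with
  | C1 =>
    simp only [map_one]
    exact (WM Γ κ).one_mem
  | of i => simpa only [FreeGroup.lift_apply_of] using hg i
  | inv_of i h =>
    simp only [map_inv]
    exact (WM Γ κ).inv_mem h
  | mul u v hu hv =>
    simp only [map_mul]
    exact (WM Γ κ).mul_mem hu hv

theorem isOpen_ne {f : (ι → Γ) → Γ} (hf : f ∈ WM Γ ι) : IsOpen {x | f x ≠ 1} :=
  isOpen_generateFrom_of_mem ⟨f, hf, rfl⟩

theorem isClosed_eq {f : (ι → Γ) → Γ} (hf : f ∈ WM Γ ι) : IsClosed {x | f x = 1} := by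
  rw [← isOpen_compl_iff]
  exact isOpen_ne hf

theorem continuous_of_mem {g : (κ → Γ) → (ι → Γ)} (hg : ∀ i, (fun x => g x i) ∈ WM Γ κ) :
    Continuous g := by
  rw [show (zar Γ ι) = generateFrom {U | ∃ f ∈ WM Γ ι, U = {x | f x ≠ 1}} from rfl,
    continuous_generateFrom_iff]
  rintro _ ⟨f, hf, rfl⟩
  exact isOpen_ne (comp_mem hg hf)

theorem continuous_mul_left' (c : ι → Γ) : Continuous (fun x : ι → Γ => c * x) :=
  continuous_of_mem fun i => (WM Γ ι).mul_mem (const_mem (c i)) (proj_mem i)

theorem continuous_mul_right' (c : ι → Γ) : Continuous (fun x : ι → Γ => x * c) :=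
  continuous_of_mem fun i => (WM Γ ι).mul_mem (proj_mem i) (const_mem (c i))

theorem continuous_inv'' : Continuous (fun x : ι → Γ => x⁻¹) :=
  continuous_of_mem fun i => (WM Γ ι).inv_mem (proj_mem i)

end basic

section group

variable {X : Type*} [Group X] [TopologicalSpace X]

/-- The closure of a subgroup. -/
def clo (hl : ∀ c, Continuous (fun x : X => c * x)) (hr : ∀ c, Continuous (fun x : X => x * c))
    (hi : Continuous (fun x : X => x⁻¹)) (H : Subgroup X) : Subgroup X where
  carrier := closure (H : Set X)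
  one_mem' := subset_closure H.one_mem
  inv_mem' := by
    intro x hx
    have : closure (H : Set X) ⊆ (fun x : X => x⁻¹) ⁻¹' closure (H : Set X) := by
      apply closure_minimal _ (isClosed_closure.preimage hi)
      intro y hy
      exact subset_closure (H.inv_mem hy)
    exact this hx
  mul_mem' := by
    intro x y hx hy
    have h1 : ∀ h ∈ H, closure (H : Set X) ⊆ (fun x : X => h * x) ⁻¹' closure (H : Set X) := by
      intro h hh
      apply closure_minimal _ (isClosed_closure.preimage (hl h))
      intro y hy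
      exact subset_closure (H.mul_mem hh hy)
    have h2 : closure (H : Set X) ⊆ (fun x : X => x * y) ⁻¹' closure (H : Set X) := by
      apply closure_minimal _ (isClosed_closure.preimage (hr y))
      intro h hh
      exact h1 h hh hy
    exact h2 hx

/-- Every closed subgroup of a Noetherian group (with separately continuous multiplication)
contains an irreducible closed subgroup of finite index. -/
theorem exists_irreducible [NoetherianSpace X]
    (hl : ∀ c, Continuous (fun x : X => c * x)) (hr : ∀ c, Continuous (fun x : X => x * c))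
    (hi : Continuous (fun x : X => x⁻¹)) (H : Subgroup X) (hH : IsClosed (H : Set X)) :
    ∃ H0 : Subgroup X, H0 ≤ H ∧ IsClosed (H0 : Set X) ∧ H0.relIndex H ≠ 0 ∧
      IsIrreducible (H0 : Set X) := by
  classical
  -- the family of closed subgroups of finite index in `H`
  let P : Closeds X → Prop := fun C => ∃ K : Subgroup X, K ≤ H ∧ (K : Set X) = C ∧ K.relIndex H ≠ 0
  have hP : ∃ C, P C := ⟨⟨H, hH⟩, H, le_rfl, rfl, by simp⟩
  obtain ⟨C0, ⟨H0, hle, hC0, hidx⟩, hmin⟩ :
      ∃ C0, P C0 ∧ ∀ C, P C → ¬ C < C0 := by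
    have hwf : WellFounded ((· < ·) : Closeds X → Closeds X → Prop) := wellFounded_lt
    obtain ⟨C, hC1, hC2⟩ := hwf.has_min {C | P C} hP
    exact ⟨C, hC1, hC2⟩
  have hcl : IsClosed (H0 : Set X) := by
    rw [hC0]; exact C0.isClosed
  refine ⟨H0, hle, hcl, hidx, ?_⟩
  obtain ⟨S, hSf, hScl, hS, hSU⟩ := NoetherianSpace.exists_finite_set_isClosed_irreducible hcl
  have hSne : S.Nonempty := by
    rcases S.eq_empty_or_nonempty with h | h
    · exfalso
      have h1 : (1 : X) ∈ (H0 : Set X) := H0.one_mem
      rw [hSU, h, sUnion_empty] at h1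
      exact h1
    · exact h
  -- a maximal element of `S`
  obtain ⟨C, hCS, hCmax⟩ : ∃ C ∈ S, ∀ D ∈ S, C ⊆ D → D = C := by
    obtain ⟨C, hC⟩ := hSf.exists_maximal hSne
    refine ⟨C, hC.1, fun D hD hCD => ?_⟩
    exact (hC.2 hD hCD).antisymm hCD
  have hsub : ∀ D ∈ S, D ⊆ (H0 : Set X) := fun D hD => by
    rw [hSU]; exact subset_sUnion_of_mem hD
  have hCmax' : ∀ D : Set X, IsClosed D → IsIrreducible D → D ⊆ (H0 : Set X) → C ⊆ D → D = C := by
    intro D hD hDi hDH hCD
    lift S to Finset (Set X) using hSf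
    obtain ⟨t, htS, ht⟩ := isIrreducible_iff_sUnion_isClosed.1 hDi S hScl (hSU ▸ hDH)
    have : t = C := hCmax t htS (hCD.trans ht)
    rw [this] at ht
    exact ht.antisymm hCD
  -- translates
  have htrcl : ∀ (h : X) (D : Set X), IsClosed D → IsClosed ((fun x => h * x) '' D) := by
    intro h D hD
    have : (fun x => h * x) '' D = (fun x => h⁻¹ * x) ⁻¹' D := by
      ext x
      constructor
      · rintro ⟨y, hy, rfl⟩
        simpa using hy
      · intro hx
        exact ⟨h⁻¹ * x, hx, by simp⟩
    rw [this]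
    exact hD.preimage (hl _)
  have htrirr : ∀ (h : X) (D : Set X), IsIrreducible D → IsIrreducible ((fun x => h * x) '' D) := by
    intro h D hD
    exact hD.image _ (hl h).continuousOn
  have htrS : ∀ h ∈ H0, (fun x => h * x) '' C ∈ S := by
    intro h hh
    have h1 : (fun x => h * x) '' C ⊆ (H0 : Set X) := by
      rintro _ ⟨y, hy, rfl⟩
      exact H0.mul_mem hh (hsub C hCS hy)
    lift S to Finset (Set X) using hSf
    obtain ⟨t, htS, ht⟩ := isIrreducible_iff_sUnion_isClosed.1 (htrirr h C (hS C hCS)) S hScl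
      (hSU ▸ h1)
    have h2 : C ⊆ (fun x => h⁻¹ * x) '' t := by
      intro x hx
      exact ⟨h * x, ht ⟨x, hx, rfl⟩, by simp⟩
    have h3 : (fun x => h⁻¹ * x) '' t = C := by
      refine hCmax' _ (htrcl _ _ (hScl t htS)) (htrirr _ _ (hS t htS)) ?_ h2
      rintro _ ⟨y, hy, rfl⟩
      exact H0.mul_mem (H0.inv_mem hh) (hsub t htS hy)
    have h4 : (fun x => h * x) '' C = t := by
      rw [← h3]
      ext x
      constructor
      · rintro ⟨_, ⟨z, hz, rfl⟩, rfl⟩
        simpa using hz
      · intro hx
        exact ⟨h⁻¹ * x, ⟨x, hx, rfl⟩, by simp⟩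
    rw [h4]
    exact htS
  -- the stabilizer
  let K : Subgroup X :=
    { carrier := {h | h ∈ H0 ∧ (fun x => h * x) '' C = C}
      one_mem' := ⟨H0.one_mem, by simp⟩
      mul_mem' := by
        rintro a b ⟨ha, ha'⟩ ⟨hb, hb'⟩
        refine ⟨H0.mul_mem ha hb, ?_⟩
        have : (fun x => a * b * x) '' C = (fun x => a * x) '' ((fun x => b * x) '' C) := by
          rw [image_image]
          simp [mul_assoc]
        rw [this, hb', ha']
      inv_mem' := by
        rintro a ⟨ha, ha'⟩
        refine ⟨H0.inv_mem ha, ?_⟩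
        conv_lhs => rw [← ha']
        rw [image_image]
        simp }
  have hKle : K ≤ H0 := fun x hx => hx.1
  have hKcl : IsClosed (K : Set X) := by
    have : (K : Set X) = (H0 : Set X) ∩ ((⋂ c ∈ C, (fun x => x * c) ⁻¹' C) ∩
        (⋂ c ∈ C, (fun x => x⁻¹ * c) ⁻¹' C)) := by
      ext h
      constructor
      · rintro ⟨hh, hC⟩
        refine ⟨hh, ?_, ?_⟩
        · simp only [mem_iInter, mem_preimage]
          intro c hc
          rw [← hC]
          exact ⟨c, hc, rfl⟩
        · simp only [mem_iInter, mem_preimage]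
          intro c hc
          rw [← hC] at hc
          obtain ⟨c', hc', rfl⟩ := hc
          simpa using hc'
      · rintro ⟨hh, h1, h2⟩
        simp only [mem_iInter, mem_preimage] at h1 h2
        refine ⟨hh, ?_⟩
        apply Subset.antisymm
        · rintro _ ⟨c, hc, rfl⟩
          exact h1 c hc
        · intro c hc
          exact ⟨h⁻¹ * c, h2 c hc, by simp⟩
    rw [this]
    refine hcl.inter (IsClosed.inter ?_ ?_)
    · exact isClosed_biInter fun c _ => (hScl C hCS).preimage (hr c)
    · exact isClosed_biInter fun c _ => (hScl C hCS).preimage ((hr c).comp hi)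
  have hKidx : K.relIndex H0 ≠ 0 := by
    have hfin : Finite (H0 ⧸ K.subgroupOf H0) := by
      have : Finite S := hSf
      let F : (H0 ⧸ K.subgroupOf H0) → S := fun q => ⟨(fun x => (q.out : X) * x) '' C,
        htrS _ q.out.2⟩
      refine Finite.of_injective F ?_
      intro q q' hqq
      have h1 : (fun x => (q.out : X) * x) '' C = (fun x => (q'.out : X) * x) '' C :=
        congrArg Subtype.val hqq
      rw [← QuotientGroup.out_eq' q, ← QuotientGroup.out_eq' q', QuotientGroup.eq]
      rw [Subgroup.mem_subgroupOf]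
      refine ⟨(q.out⁻¹ * q'.out).2, ?_⟩
      have h2 : (fun x => ((q.out⁻¹ * q'.out : H0) : X) * x) '' C
          = (fun x => (q.out : X)⁻¹ * x) '' ((fun x => (q'.out : X) * x) '' C) := by
        rw [image_image]
        simp [mul_assoc]
      rw [h2, ← h1, image_image]
      simp
    exact Subgroup.index_ne_zero_of_finite
  have hKH : K.relIndex H ≠ 0 := by
    rw [← Subgroup.relIndex_mul_relIndex K H0 H hKle hle]
    exact mul_ne_zero hKidx hidx
  have hKeq : (K : Set X) = H0 := by
    by_contra hne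
    refine hmin ⟨K, hKcl⟩ ⟨K, hKle.trans hle, rfl, hKH⟩ ?_
    rw [lt_iff_le_and_ne]
    constructor
    · change (K : Set X) ⊆ C0
      rw [← hC0]
      exact hKle
    · intro h
      apply hne
      rw [hC0, ← h]
      rfl
  obtain ⟨c, hc⟩ := (hS C hCS).nonempty
  have hHC : (H0 : Set X) = C := by
    apply Subset.antisymm
    · intro g hg
      have h1 : g * c⁻¹ ∈ (K : Set X) := by
        rw [hKeq]
        exact H0.mul_mem hg (H0.inv_mem (hsub C hCS hc))
      have h2 := h1.2
      rw [← h2]
      exact ⟨c, hc, by simp⟩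
    · exact hsub C hCS
  rw [hHC]
  exact hS C hCS

end group

end Pool.Agent.Work.MP_41f637_al.Lin
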