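import Pool.Agent.Work.MP_41f637_al.ZarUltra
import Pool.Agent.Work.MP_41f637_al.EN

/-!
# MP_41f637_al: equationally Noetherian groups
-/

set_option autoImplicit false

noncomputable section

namespace Pool.Agent.Work.MP_41f637_al.Lin

open TopologicalSpace Set Filter

attribute [local instance] zar

section

variable {Γ : Type*} [Group Γ]

theorem exists_coprod {n : ℕ} {f : (Fin n → Γ) → Γ} (hf : f ∈ WM Γ (Fin n)) :
    ∃ w : Monoid.Coprod Γ (FreeGroup (Fin n)), ∀ x, evalW x w = f x := by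
  induction hf using Subgroup.closure_induction with
  | mem f hf =>
    rcases hf with ⟨i, rfl⟩ | ⟨c, rfl⟩
    · exact ⟨Monoid.Coprod.inr (FreeGroup.of i), fun x => by simp [evalW]⟩
    · exact ⟨Monoid.Coprod.inl c, fun x => by simp [evalW]⟩
  | one => exact ⟨1, fun x => by simp⟩
  | mul f f' _ _ h h' =>
    obtain ⟨w, hw⟩ := h
    obtain ⟨w', hw'⟩ := h'
    exact ⟨w * w', fun x => by simp [hw, hw']⟩
  | inv f _ h =>
    obtain ⟨w, hw⟩ := h
    exact ⟨w⁻¹, fun x => by simp [hw]⟩

theorem noetherian_of_eqNoetherian (h : EqNoetherian Γ) (n : ℕ) :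
    NoetherianSpace (Fin n → Γ) := by
  classical
  rw [noetherianSpace_iff_isCompact]
  intro s
  apply isCompact_generateFrom rfl
  intro P hP hs
  obtain ⟨T, hTS, hT⟩ := h n {w | {x : Fin n → Γ | evalW x w ≠ 1} ∈ P}
  refine ⟨(T.image (fun w => {x : Fin n → Γ | evalW x w ≠ 1}) : Set (Set (Fin n → Γ))), ?_, ?_, ?_⟩
  · intro U hU
    rw [Finset.mem_coe, Finset.mem_image] at hU
    obtain ⟨w, hw, rfl⟩ := hU
    exact hTS hw
  · exact Finset.finite_toSet _
  · intro x hx
    by_contra hcon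
    obtain ⟨U, hUP, hxU⟩ := hs hx
    obtain ⟨f, hf, rfl⟩ := hP hUP
    obtain ⟨w, hw⟩ := exists_coprod hf
    apply hxU
    rw [← hw]
    refine hT x ?_ w ?_
    · intro w' hw'
      by_contra h1
      apply hcon
      refine ⟨{x : Fin n → Γ | evalW x w' ≠ 1}, ?_, h1⟩
      rw [Finset.mem_coe, Finset.mem_image]
      exact ⟨w', hw', rfl⟩
    · change {x : Fin n → Γ | evalW x w ≠ 1} ∈ P
      simpa only [hw] using hUP

theorem noetherian_of_equiv {ι κ : Type} (e : ι ≃ κ) [NoetherianSpace (ι → Γ)] :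
    NoetherianSpace (κ → Γ) := by
  refine noetherianSpace_of_surjective (fun (z : ι → Γ) (k : κ) => z (e.symm k))
    (continuous_reindex _) ?_
  intro z
  exact ⟨fun i => z (e i), by funext k; simp⟩

end

theorem good_of_eqNoetherian {L : Type*} [Group L] (h : EqNoetherian (UP L)) : Good (UP L) := by
  have h1 : ∀ (ι : Type) [Finite ι], NoetherianSpace (ι → UP L) := by
    intro ι _
    obtain ⟨n, ⟨e⟩⟩ := Finite.exists_equiv_fin ι
    have := noetherian_of_eqNoetherian h n
    exact noetherian_of_equiv e.symm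
  refine ⟨fun ι _ => h1 ι, ?_⟩
  intro ι _ X Z hX hZ hXZ
  have := h1 ι
  exact sat_up X Z hX hZ hXZ

end Pool.Agent.Work.MP_41f637_al.Lin

end
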