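import Mathlib

/-!
# MP_41f637_al: discrimination passes to subgroups of finite index
-/

set_option autoImplicit false

namespace Pool.Agent.Work.MP_41f637_al.Lin

/-- `w` is not a law of `Γ`. -/
def Nonlaw (Γ : Type*) [Group Γ] {σ : Type*} (w : FreeGroup σ) : Prop :=
  ∃ g : σ → Γ, FreeGroup.lift g w ≠ 1

theorem lift_lift {G σ τ : Type*} [Group G] (f : τ → G) (u : σ → FreeGroup τ) (w : FreeGroup σ) :
    FreeGroup.lift f (FreeGroup.lift u w) = FreeGroup.lift (fun i => FreeGroup.lift f (u i)) w := by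
  have h : (FreeGroup.lift f).comp (FreeGroup.lift u)
      = FreeGroup.lift (fun i => FreeGroup.lift f (u i)) := by
    refine FreeGroup.ext_hom _ _ ?_
    intro i
    simp
  exact congrArg (fun F : FreeGroup σ →* G => F w) h

theorem hom_lift {G G' σ : Type*} [Group G] [Group G'] (θ : G →* G') (u : σ → G)
    (w : FreeGroup σ) : θ (FreeGroup.lift u w) = FreeGroup.lift (fun i => θ (u i)) w := by
  have h : θ.comp (FreeGroup.lift u) = FreeGroup.lift (fun i => θ (u i)) := by
    refine FreeGroup.ext_hom _ _ ?_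
    intro i
    simp
  exact congrArg (fun F : FreeGroup σ →* G' => F w) h

theorem pigeon {Γ E : Type*} [Group Γ] [Group E]
    (hD : ∀ (s : ℕ) (ws : Finset (FreeGroup (Fin s))), (∀ w ∈ ws, Nonlaw Γ w) →
      ∃ f : Fin s → E, ∀ w ∈ ws, FreeGroup.lift f w ≠ 1)
    (M : Subgroup E) (hM : M.index ≠ 0) (n : ℕ) (w : FreeGroup (Fin n)) (hw : Nonlaw Γ w) :
    ∃ u : Fin n → E, (∀ i, u i ∈ M) ∧ FreeGroup.lift u w ≠ 1 := by
  classical
  set q := M.index with hq
  have : M.FiniteIndex := ⟨hM⟩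
  have hfin : Fintype (E ⧸ M) := Fintype.ofFinite _
  have hcard : Fintype.card (E ⧸ M) < Fintype.card (Fin (q + 1)) := by
    rw [Fintype.card_fin, ← Nat.card_eq_fintype_card]
    exact Nat.lt_succ_self _
  let e : Fin n × Fin (q + 1) ≃ Fin (n * (q + 1)) := finProdFinEquiv
  let Wd : (Fin n → Fin (q + 1)) × (Fin n → Fin (q + 1)) → FreeGroup (Fin (n * (q + 1))) :=
    fun ab => FreeGroup.lift (fun i => (FreeGroup.of (e (i, ab.1 i)))⁻¹ *
      FreeGroup.of (e (i, ab.2 i))) w
  let ws : Finset (FreeGroup (Fin (n * (q + 1)))) :=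
    (Finset.univ.filter (fun ab : (Fin n → Fin (q + 1)) × (Fin n → Fin (q + 1)) =>
      ∀ i, ab.1 i ≠ ab.2 i)).image Wd
  obtain ⟨f, hf⟩ := hD (n * (q + 1)) ws (by
    intro v hv
    obtain ⟨ab, hab, rfl⟩ := Finset.mem_image.mp hv
    rw [Finset.mem_filter] at hab
    obtain ⟨g, hg⟩ := hw
    refine ⟨fun t => if (e.symm t).2 = ab.2 (e.symm t).1 then g (e.symm t).1 else 1, ?_⟩
    change FreeGroup.lift _ (FreeGroup.lift _ w) ≠ 1
    rw [lift_lift]
    convert hg using 3
    funext i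
    simp [hab.2 i])
  have hpig : ∀ i : Fin n, ∃ j j' : Fin (q + 1), j ≠ j' ∧
      (f (e (i, j)) : E ⧸ M) = (f (e (i, j')) : E ⧸ M) := by
    intro i
    exact Fintype.exists_ne_map_eq_of_card_lt (fun j => (f (e (i, j)) : E ⧸ M)) hcard
  choose a b hab heq using hpig
  refine ⟨fun i => (f (e (i, a i)))⁻¹ * f (e (i, b i)), fun i => ?_, ?_⟩
  · exact QuotientGroup.eq.mp (heq i)
  · have h1 := hf (Wd (a, b)) (Finset.mem_image_of_mem _ (by simpa using hab))
    change FreeGroup.lift f (FreeGroup.lift _ w) ≠ 1 at h1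
    rw [lift_lift] at h1
    simpa using h1

end Pool.Agent.Work.MP_41f637_al.Lin
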