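import Pool.Agent.Work.MP_41f637_al.ZarPow
import Pool.Agent.Work.MP_41f637_al.ZarPigeon

/-!
# MP_41f637_al: discrimination implies strong discrimination over groups with a good Zariski topology
-/

set_option autoImplicit false

namespace Pool.Agent.Work.MP_41f637_al.Lin

open TopologicalSpace Set

attribute [local instance] zar

/-- The finite powers of `Γ` are Noetherian for the Zariski topologies, and a closed set covered by
countably many closed sets is covered by finitely many of them. -/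
structure Good (Γ : Type*) [Group Γ] : Prop where
  noeth : ∀ (ι : Type) [Finite ι], NoetherianSpace (ι → Γ)
  sat : ∀ (ι : Type) [Finite ι] (X : Set (ι → Γ)) (Z : ℕ → Set (ι → Γ)), IsClosed X →
    (∀ l, IsClosed (Z l)) → X ⊆ ⋃ l, Z l → ∃ N : ℕ, X ⊆ ⋃ l ∈ Finset.range N, Z l

section aux

variable {Γ E : Type*} [Group Γ] [Group E]

theorem nonlaw_map {σ τ : Type*} (e : σ ≃ τ) {w : FreeGroup σ} (hw : Nonlaw Γ w) :
    Nonlaw Γ (FreeGroup.map e w) := by
  obtain ⟨g, hg⟩ := hw
  refine ⟨fun t => g (e.symm t), ?_⟩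
  rw [FreeGroup.map_eq_lift, lift_lift]
  simpa using hg

theorem lift_map_equiv {σ τ : Type*} (e : σ ≃ τ) (w : FreeGroup σ) (u : τ → E) :
    FreeGroup.lift u (FreeGroup.map e w) = FreeGroup.lift (fun i => u (e i)) w := by
  rw [FreeGroup.map_eq_lift, lift_lift]
  simp

theorem pigeon' (hD : ∀ (s : ℕ) (ws : Finset (FreeGroup (Fin s))), (∀ w ∈ ws, Nonlaw Γ w) →
      ∃ f : Fin s → E, ∀ w ∈ ws, FreeGroup.lift f w ≠ 1)
    (M : Subgroup E) (hM : M.index ≠ 0) (σ : Type) [Finite σ] (w : FreeGroup σ)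
    (hw : Nonlaw Γ w) :
    ∃ u : σ → E, (∀ i, u i ∈ M) ∧ FreeGroup.lift u w ≠ 1 := by
  obtain ⟨n, ⟨e⟩⟩ := Finite.exists_equiv_fin σ
  obtain ⟨u, hu, hu'⟩ := pigeon hD M hM n _ (nonlaw_map e hw)
  refine ⟨fun i => u (e i), fun i => hu _, ?_⟩
  rwa [lift_map_equiv] at hu'

/-- All words that are not laws of `Γ` are not laws of the subgroup. -/
def Full (K : Subgroup (Unit → Γ)) : Prop := ∀ (σ : Type) [Finite σ] (w : FreeGroup σ),
  Nonlaw Γ w → ∃ g ∈ pw σ (K : Set (Unit → Γ)), FreeGroup.lift g w ≠ 1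

theorem exists_word {r : ℕ} {a : Fin r → E} (ha : Subgroup.closure (Set.range a) = ⊤) (e : E) :
    ∃ w : FreeGroup (Fin r), FreeGroup.lift a w = e := by
  have : e ∈ (FreeGroup.lift a).range := by
    rw [FreeGroup.range_lift_eq_closure, ha]
    exact Subgroup.mem_top e
  exact this

end aux

theorem main_abs {Γ E : Type*} [Group Γ] [Group E] (hG : Good Γ) {r : ℕ} (a : Fin r → E)
    (ha : Subgroup.closure (Set.range a) = ⊤)
    (hE1 : ∀ y : Fin r → Γ, ∃ θ : E →* Γ, ∀ j, θ (a j) = y j)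
    (hE2 : ∀ e : E, e ≠ 1 → ∃ θ : E →* Γ, θ e ≠ 1)
    (hD : ∀ (s : ℕ) (ws : Finset (FreeGroup (Fin s))), (∀ w ∈ ws, Nonlaw Γ w) →
      ∃ f : Fin s → E, ∀ w ∈ ws, FreeGroup.lift f w ≠ 1)
    (m : ℕ) (ws : Finset (FreeGroup (Fin r ⊕ Fin m))) (hws : ∀ w ∈ ws, Nonlaw Γ w) :
    ∃ z : Fin m → E, ∀ w ∈ ws, FreeGroup.lift (Sum.elim a z) w ≠ 1 := by
  classical
  have := hG.noeth Unit
  -- nontrivial elements of `E` come from words which are not laws
  have hEw : ∀ e : E, e ≠ 1 → ∃ w : FreeGroup (Fin r), FreeGroup.lift a w = e ∧ Nonlaw Γ w := by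
    intro e he
    obtain ⟨w, rfl⟩ := exists_word ha e
    obtain ⟨θ, hθ⟩ := hE2 _ he
    rw [hom_lift] at hθ
    exact ⟨w, rfl, _, hθ⟩
  have hrange : ∀ (K : Subgroup (Unit → Γ)) (θ : E →* Γ), (∀ j, (fun _ : Unit => θ (a j)) ∈ K) →
      ∀ e, (fun _ : Unit => θ e) ∈ K := by
    intro K θ h e
    have h1 : Subgroup.closure (Set.range a) ≤ K.comap ((Pi.constMonoidHom Unit Γ).comp θ) := by
      rw [Subgroup.closure_le]
      rintro _ ⟨j, rfl⟩
      exact h j
    have h2 : e ∈ K.comap ((Pi.constMonoidHom Unit Γ).comp θ) := by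
      apply h1
      rw [ha]
      exact Subgroup.mem_top e
    exact h2
  -- a minimal closed subgroup generating the variety
  obtain ⟨G1, hG1cl, hG1full, hG1min⟩ : ∃ K : Subgroup (Unit → Γ), IsClosed (K : Set (Unit → Γ)) ∧
      Full K ∧ ∀ K' : Subgroup (Unit → Γ), K' ≤ K → IsClosed (K' : Set (Unit → Γ)) → Full K' →
        K' = K := by
    let P : Closeds (Unit → Γ) → Prop := fun C =>
      ∃ K : Subgroup (Unit → Γ), (K : Set (Unit → Γ)) = (C : Set (Unit → Γ)) ∧ Full K
    have hP : ∃ C, P C := by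
      refine ⟨⊤, ⊤, rfl, ?_⟩
      intro σ _ w hw
      obtain ⟨g, hg⟩ := hw
      exact ⟨g, fun k => Subgroup.mem_top _, hg⟩
    have hwf : WellFounded ((· < ·) : Closeds (Unit → Γ) → Closeds (Unit → Γ) → Prop) :=
      wellFounded_lt
    obtain ⟨C, ⟨K, hKC, hK⟩, hmin⟩ := hwf.has_min {C | P C} hP
    refine ⟨K, by rw [hKC]; exact C.isClosed, hK, ?_⟩
    intro K' hle hcl hfull
    by_contra hne
    refine hmin ⟨K', hcl⟩ ⟨K', rfl, hfull⟩ ?_
    rw [lt_iff_le_and_ne]
    constructor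
    · change (K' : Set (Unit → Γ)) ⊆ C
      rw [← hKC]
      exact hle
    · intro h
      apply hne
      apply SetLike.coe_injective
      rw [hKC, ← h]
      rfl
  -- it is irreducible
  have hG1irr : IsIrreducible (G1 : Set (Unit → Γ)) := by
    obtain ⟨G0, hle, hcl, hidx, hirr⟩ := exists_irreducible continuous_mul_left'
      continuous_mul_right' continuous_inv'' G1 hG1cl
    have hfull : Full G0 := by
      intro σ _ w hw
      let N0 : Subgroup G1 := (G0.subgroupOf G1).normalCore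
      have : (G0.subgroupOf G1).FiniteIndex := ⟨hidx⟩
      have hN0 : N0.FiniteIndex := Subgroup.finiteIndex_normalCore _
      have : Finite (G1 ⧸ N0) := Subgroup.finite_quotient_of_finiteIndex
      have hfinhom : Finite (E →* (G1 ⧸ N0)) := by
        refine Finite.of_injective (fun ψ => (fun j => ψ (a j) : Fin r → G1 ⧸ N0)) ?_
        intro ψ ψ' h
        refine MonoidHom.eq_of_eqOn_dense ha ?_
        rintro _ ⟨j, rfl⟩
        exact congrFun h j
      let M : Subgroup E := ⨅ ψ : E →* (G1 ⧸ N0), ψ.ker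
      have hM : M.FiniteIndex := by
        refine Subgroup.finiteIndex_iInf fun ψ => ?_
        exact Subgroup.finiteIndex_ker ψ
      obtain ⟨u, hu, hu'⟩ := pigeon' hD M hM.index_ne_zero σ w hw
      obtain ⟨w', hw', hw'n⟩ := hEw _ hu'
      obtain ⟨g, hg, hgw⟩ := hG1full (Fin r) w' hw'n
      obtain ⟨θ, hθ⟩ := hE1 g
      have hθG : ∀ e, (fun _ : Unit => θ e) ∈ G1 := hrange G1 θ (fun j => by rw [hθ]; exact hg j)
      refine ⟨fun i => θ (u i), ?_, ?_⟩
      · intro i
        let ψ0 : E →* G1 := ((Pi.constMonoidHom Unit Γ).comp θ).codRestrict G1 hθG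
        have h1 : u i ∈ ((QuotientGroup.mk' N0).comp ψ0).ker :=
          (Subgroup.mem_iInf.mp (hu i)) _
        rw [MonoidHom.mem_ker, MonoidHom.comp_apply, QuotientGroup.mk'_apply,
          QuotientGroup.eq_one_iff] at h1
        exact Subgroup.normalCore_le (G0.subgroupOf G1) h1
      · rw [← hom_lift, ← hw', hom_lift]
        simpa [hθ] using hgw
    rw [hG1min G0 hle hcl hfull] at hirr
    exact hirr
  -- a very general point
  obtain ⟨y, hyG, hy⟩ : ∃ y ∈ pw (Fin r) (G1 : Set (Unit → Γ)), ∀ (n : ℕ)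
      (w : FreeGroup (Fin r ⊕ Fin n)), Nonlaw Γ w →
      ∃ z ∈ pw (Fin n) (G1 : Set (Unit → Γ)), FreeGroup.lift (Sum.elim y z) w ≠ 1 := by
    by_contra hcon
    push Not at hcon
    let I := Σ n : ℕ, FreeGroup (Fin r ⊕ Fin n)
    let Z : I → Set (Fin r → Γ) := fun p =>
      ⋂ z ∈ pw (Fin p.1) (G1 : Set (Unit → Γ)), {y | FreeGroup.lift (Sum.elim y z) p.2 = 1}
    have hZcl : ∀ p, IsClosed (Z p) := by
      intro p
      refine isClosed_biInter fun z _ => isClosed_eq ?_
      refine lift_mem (g := fun y : Fin r → Γ => Sum.elim y z) ?_ p.2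
      rintro (i | i)
      · exact proj_mem i
      · exact const_mem _
    have hcount : Countable I := by
      have : ∀ n : ℕ, Countable (FreeGroup (Fin r ⊕ Fin n)) := fun n => by
        unfold FreeGroup
        infer_instance
      infer_instance
    obtain ⟨enc, henc⟩ := exists_injective_nat I
    let Z' : ℕ → Set (Fin r → Γ) := fun l =>
      if h : ∃ p : I, enc p = l ∧ Nonlaw Γ p.2 then Z h.choose else ∅
    have hZ'cl : ∀ l, IsClosed (Z' l) := by
      intro l
      by_cases h : ∃ p : I, enc p = l ∧ Nonlaw Γ p.2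
      · simp only [Z', dif_pos h]
        exact hZcl _
      · simp only [Z', dif_neg h]
        exact isClosed_empty
    have hcover : pw (Fin r) (G1 : Set (Unit → Γ)) ⊆ ⋃ l, Z' l := by
      intro y hyG
      obtain ⟨n, w, hw, hw'⟩ := hcon y hyG
      have h : ∃ p : I, enc p = enc ⟨n, w⟩ ∧ Nonlaw Γ p.2 := ⟨⟨n, w⟩, rfl, hw⟩
      have hch : h.choose = ⟨n, w⟩ := henc h.choose_spec.1
      refine mem_iUnion.mpr ⟨enc ⟨n, w⟩, ?_⟩
      simp only [Z', dif_pos h]
      rw [hch]
      simp only [Z, mem_iInter, mem_ofPred_eq]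
      exact hw'
    obtain ⟨N, hN⟩ := hG.sat (Fin r) _ Z' (isClosed_pw hG1cl) hZ'cl hcover
    obtain ⟨l, hl⟩ : ∃ l, pw (Fin r) (G1 : Set (Unit → Γ)) ⊆ Z' l := by
      obtain ⟨t, htS, ht⟩ := isIrreducible_iff_sUnion_isClosed.1 (irreducible_pw (Fin r) hG1irr)
        ((Finset.range N).image Z') (by
          intro t ht
          obtain ⟨l, -, rfl⟩ := Finset.mem_image.mp ht
          exact hZ'cl l) (by
          refine hN.trans ?_
          intro x hx
          simp only [mem_iUnion] at hx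
          obtain ⟨l, hl, hx⟩ := hx
          exact ⟨Z' l, by simpa using ⟨l, by simpa using hl, rfl⟩, hx⟩)
      obtain ⟨l, -, rfl⟩ := Finset.mem_image.mp htS
      exact ⟨l, ht⟩
    by_cases h : ∃ p : I, enc p = l ∧ Nonlaw Γ p.2
    · simp only [Z', dif_pos h] at hl
      obtain ⟨g, hg, hgw⟩ := hG1full _ _ h.choose_spec.2
      have h1 := hl (show (fun i => g (Sum.inl i)) ∈ pw (Fin r) (G1 : Set (Unit → Γ)) from
        fun i => hg (Sum.inl i))
      simp only [Z, mem_iInter, mem_ofPred_eq] at h1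
      have h2 := h1 (fun i => g (Sum.inr i)) (fun i => hg (Sum.inr i))
      apply hgw
      rw [← h2]
      congr 2
      funext i
      rcases i with i | i <;> rfl
    · simp only [Z', dif_neg h] at hl
      obtain ⟨x, hx⟩ := (irreducible_pw (Fin r) hG1irr).nonempty
      exact hl hx
  obtain ⟨θ, hθ⟩ := hE1 y
  have hθG : ∀ e, (fun _ : Unit => θ e) ∈ G1 := hrange G1 θ (fun j => by rw [hθ]; exact hyG j)
  have hθinj : ∀ e, e ≠ 1 → θ e ≠ 1 := by
    intro e he
    obtain ⟨w, rfl, hw⟩ := hEw e he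
    have hw2 : Nonlaw Γ (FreeGroup.map (Sum.inl : Fin r → Fin r ⊕ Fin 0) w) := by
      obtain ⟨g, hg⟩ := hw
      refine ⟨Sum.elim g (fun _ => 1), ?_⟩
      rw [FreeGroup.map_eq_lift, lift_lift]
      simpa using hg
    obtain ⟨z, -, hz⟩ := hy 0 _ hw2
    rw [FreeGroup.map_eq_lift, lift_lift] at hz
    rw [hom_lift]
    simpa [hθ] using hz
  let Θ : E →* (Unit → Γ) := (Pi.constMonoidHom Unit Γ).comp θ
  have hΘG : Θ.range ≤ G1 := by
    rintro _ ⟨e, rfl⟩
    exact hθG e
  let H : Subgroup (Unit → Γ) := clo continuous_mul_left' continuous_mul_right' continuous_inv''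
    Θ.range
  have hHcoe : (H : Set (Unit → Γ)) = closure (Θ.range : Set (Unit → Γ)) := rfl
  have hHcl : IsClosed (H : Set (Unit → Γ)) := by
    rw [hHcoe]; exact isClosed_closure
  have hHG : H ≤ G1 := by
    have : (H : Set (Unit → Γ)) ⊆ G1 := by
      rw [hHcoe]
      exact closure_minimal hΘG hG1cl
    exact this
  obtain ⟨H0, hH0le, hH0cl, hH0idx, hH0irr⟩ := exists_irreducible continuous_mul_left'
      continuous_mul_right' continuous_inv'' H hHcl
  have hH0full : Full H0 := by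
    intro σ _ w hw
    have hidx : (H0.comap Θ).index ≠ 0 := by
      rw [Subgroup.index_comap]
      intro h
      apply hH0idx
      refine Subgroup.relIndex_eq_zero_of_le_right ?_ h
      exact fun x hx => subset_closure hx
    obtain ⟨u, hu, hu'⟩ := pigeon' hD (H0.comap Θ) hidx σ w hw
    refine ⟨fun i => θ (u i), fun i => hu i, ?_⟩
    rw [← hom_lift]
    exact hθinj _ hu'
  have hdense : (G1 : Set (Unit → Γ)) ⊆ closure (Θ.range : Set (Unit → Γ)) := by
    rw [← hHcoe, ← hG1min H0 (hH0le.trans hHG) hH0cl hH0full]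
    exact hH0le
  -- conclusion
  by_contra hcon
  push Not at hcon
  let A : FreeGroup (Fin r ⊕ Fin m) → Set (Fin m → Γ) := fun w =>
    {z | FreeGroup.lift (Sum.elim y z) w = 1}
  have hAcl : ∀ w, IsClosed (A w) := by
    intro w
    refine isClosed_eq ?_
    refine lift_mem (g := fun z : Fin m → Γ => Sum.elim y z) ?_ w
    rintro (i | i)
    · exact const_mem _
    · exact proj_mem i
  have hUcl : IsClosed (⋃ w ∈ ws, A w) := isClosed_biUnion_finset fun w _ => hAcl w
  have hsub : pw (Fin m) (Θ.range : Set (Unit → Γ)) ⊆ ⋃ w ∈ ws, A w := by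
    intro z hz
    choose e he using hz
    obtain ⟨w, hw, hw1⟩ := hcon e
    simp only [mem_iUnion]
    refine ⟨w, hw, ?_⟩
    change FreeGroup.lift (Sum.elim y z) w = 1
    have h1 : Sum.elim y z = fun i => θ (Sum.elim a e i) := by
      funext i
      rcases i with i | i
      · simp [hθ]
      · exact (congrFun (he i) ()).symm
    rw [h1, ← hom_lift, hw1, map_one]
  have hsub' : pw (Fin m) (G1 : Set (Unit → Γ)) ⊆ ⋃ w ∈ ws, A w :=
    (closure_pw (Fin m) hdense).trans (closure_minimal hsub hUcl)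
  obtain ⟨t, htS, ht⟩ := isIrreducible_iff_sUnion_isClosed.1 (irreducible_pw (Fin m) hG1irr)
    (ws.image A) (by
      intro t ht
      obtain ⟨w, -, rfl⟩ := Finset.mem_image.mp ht
      exact hAcl w) (by
      refine hsub'.trans ?_
      intro x hx
      simp only [mem_iUnion] at hx
      obtain ⟨w, hw, hx⟩ := hx
      exact ⟨A w, by simpa using ⟨w, hw, rfl⟩, hx⟩)
  obtain ⟨w, hw, rfl⟩ := Finset.mem_image.mp htS
  obtain ⟨z, hz, hz'⟩ := hy m w (hws w hw)
  exact hz' (ht hz)

end Pool.Agent.Work.MP_41f637_al.Lin
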