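import Pool.Agent.Work.MP_41f637_al.Zar

/-!
# MP_41f637_al: powers of irreducible sets in the Zariski topologies
-/

set_option autoImplicit false

namespace Pool.Agent.Work.MP_41f637_al.Lin

open TopologicalSpace Set

attribute [local instance] zar

section slices

variable {X Y Z : Type*} [TopologicalSpace X] [TopologicalSpace Y] [TopologicalSpace Z]

theorem irreducible_image2 {m : X → Y → Z} (h1 : ∀ x, Continuous (m x))
    (h2 : ∀ y, Continuous (fun x => m x y)) {A : Set X} {B : Set Y} (hA : IsIrreducible A)
    (hB : IsIrreducible B) : IsIrreducible (image2 m A B) := by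
  refine ⟨hA.nonempty.image2 hB.nonempty, ?_⟩
  rw [isPreirreducible_iff_isClosed_union_isClosed]
  intro Z1 Z2 hZ1 hZ2 hsub
  have key : ∀ x ∈ A, (∀ y ∈ B, m x y ∈ Z1) ∨ (∀ y ∈ B, m x y ∈ Z2) := by
    intro x hx
    have := (isPreirreducible_iff_isClosed_union_isClosed.1 hB.isPreirreducible)
      (m x ⁻¹' Z1) (m x ⁻¹' Z2) (hZ1.preimage (h1 x)) (hZ2.preimage (h1 x))
      (fun y hy => hsub (mem_image2_of_mem hx hy))
    rcases this with h | h
    · exact Or.inl fun y hy => h hy
    · exact Or.inr fun y hy => h hy
  have hc1 : IsClosed (⋂ y ∈ B, (fun x => m x y) ⁻¹' Z1) :=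
    isClosed_biInter fun y _ => hZ1.preimage (h2 y)
  have hc2 : IsClosed (⋂ y ∈ B, (fun x => m x y) ⁻¹' Z2) :=
    isClosed_biInter fun y _ => hZ2.preimage (h2 y)
  rcases (isPreirreducible_iff_isClosed_union_isClosed.1 hA.isPreirreducible) _ _ hc1 hc2
    (fun x hx => by
      rcases key x hx with h | h
      · exact Or.inl (by simpa using h)
      · exact Or.inr (by simpa using h)) with h | h
  · left
    rintro _ ⟨x, hx, y, hy, rfl⟩
    have := h hx
    simp only [mem_iInter, mem_preimage] at this
    exact this y hy
  · right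
    rintro _ ⟨x, hx, y, hy, rfl⟩
    have := h hx
    simp only [mem_iInter, mem_preimage] at this
    exact this y hy

theorem closure_image2 {m : X → Y → Z} (h1 : ∀ x, Continuous (m x))
    (h2 : ∀ y, Continuous (fun x => m x y)) {A A0 : Set X} {B B0 : Set Y} (hA : A ⊆ closure A0)
    (hB : B ⊆ closure B0) : image2 m A B ⊆ closure (image2 m A0 B0) := by
  rintro _ ⟨x, hx, y, hy, rfl⟩
  have e1 : ∀ x0 ∈ A0, m x0 y ∈ closure (image2 m A0 B0) := by
    intro x0 hx0
    have : closure B0 ⊆ (m x0) ⁻¹' closure (image2 m A0 B0) := by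
      apply closure_minimal _ (isClosed_closure.preimage (h1 x0))
      intro y0 hy0
      exact subset_closure (mem_image2_of_mem hx0 hy0)
    exact this (hB hy)
  have e2 : closure A0 ⊆ (fun x => m x y) ⁻¹' closure (image2 m A0 B0) :=
    closure_minimal e1 (isClosed_closure.preimage (h2 y))
  exact e2 (hA hx)

end slices

section pw

variable {Γ : Type*} [Group Γ]

/-- The power of a set of points of `Γ` (seen in `Unit → Γ`). -/
def pw (κ : Type*) (A : Set (Unit → Γ)) : Set (κ → Γ) := {z | ∀ k, (fun _ => z k) ∈ A}

theorem isClosed_pw {κ : Type*} {A : Set (Unit → Γ)} (hA : IsClosed A) : IsClosed (pw κ A) := by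
  have : pw κ A = ⋂ k : κ, (fun (z : κ → Γ) (_ : Unit) => z k) ⁻¹' A := by
    ext z
    simp [pw]
  rw [this]
  exact isClosed_iInter fun k => hA.preimage (continuous_of_mem fun _ => proj_mem k)

omit [Group Γ] in
/-- reindexing -/
theorem pw_equiv {κ κ' : Type*} (e : κ ≃ κ') (A : Set (Unit → Γ)) :
    pw κ' A = (fun (z : κ → Γ) (k : κ') => z (e.symm k)) '' pw κ A := by
  ext z
  constructor
  · intro hz
    exact ⟨fun k => z (e k), fun k => hz (e k), by funext k; simp⟩
  · rintro ⟨y, hy, rfl⟩ k
    exact hy (e.symm k)

theorem continuous_reindex {κ κ' : Type*} (e : κ' → κ) :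
    Continuous (fun (z : κ → Γ) (k : κ') => z (e k)) :=
  continuous_of_mem fun k => proj_mem (e k)

/-- adding one coordinate -/
def opt {κ : Type*} (x : Unit → Γ) (z : κ → Γ) : Option κ → Γ := fun k => k.elim (x ()) z

omit [Group Γ] in
theorem pw_option {κ : Type*} (A : Set (Unit → Γ)) :
    pw (Option κ) A = image2 opt A (pw κ A) := by
  ext z
  constructor
  · intro hz
    refine ⟨fun _ => z none, hz none, fun k => z (some k), fun k => hz (some k), ?_⟩
    funext k
    cases k <;> rfl
  · rintro ⟨x, hx, y, hy, rfl⟩ k
    cases k with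
    | none => exact hx
    | some k => exact hy k

theorem continuous_opt1 {κ : Type*} (x : Unit → Γ) :
    Continuous (fun z : κ → Γ => opt x z) := by
  refine continuous_of_mem fun k => ?_
  cases k with
  | none => exact const_mem _
  | some k => exact proj_mem k

theorem continuous_opt2 {κ : Type*} (z : κ → Γ) :
    Continuous (fun x : Unit → Γ => opt x z) := by
  refine continuous_of_mem fun k => ?_
  cases k with
  | none => exact proj_mem ()
  | some k => exact const_mem _

theorem irreducible_pw (κ : Type) [Finite κ] {A : Set (Unit → Γ)} (hA : IsIrreducible A) :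
    IsIrreducible (pw κ A) := by
  induction κ using Finite.induction_empty_option with
  | of_equiv e ih =>
    rw [pw_equiv e]
    exact ih.image _ (continuous_reindex _).continuousOn
  | h_empty =>
    have : pw PEmpty.{1} A = (univ : Set (PEmpty.{1} → Γ)) := by
      ext z
      simp [pw]
    rw [this]
    have : (univ : Set (PEmpty.{1} → Γ)) = {fun k => k.elim} := by
      ext z
      simp only [mem_univ, mem_singleton_iff, true_iff]
      funext k
      exact k.elim
    rw [this]
    exact isIrreducible_singleton
  | h_option ih =>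
    rw [pw_option]
    exact irreducible_image2 continuous_opt1 continuous_opt2 hA ih

theorem closure_pw (κ : Type) [Finite κ] {A A0 : Set (Unit → Γ)} (hA : A ⊆ closure A0) :
    pw κ A ⊆ closure (pw κ A0) := by
  induction κ using Finite.induction_empty_option with
  | of_equiv e ih =>
    rw [pw_equiv e, pw_equiv e]
    rintro _ ⟨z, hz, rfl⟩
    exact (continuous_reindex (fun k => e.symm k)).closure_preimage_subset _
      (closure_mono (subset_preimage_image _ _) (ih hz))
  | h_empty =>
    intro z _
    apply subset_closure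
    intro k
    exact k.elim
  | h_option ih =>
    rw [pw_option, pw_option]
    exact closure_image2 continuous_opt1 continuous_opt2 hA ih

end pw

end Pool.Agent.Work.MP_41f637_al.Lin
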