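import Pool.Agent.Work.MP_41f637_al.ZarUltra

/-!
# MP_41f637_al: Noetherian rings and ultrapowers of Artinian local rings
-/

set_option autoImplicit false

noncomputable section

namespace Pool.Agent.Work.MP_41f637_al.Lin

open IsLocalRing Filter

/-- The ultrapower of a local ring with finitely generated nilpotent maximal ideal is Noetherian. -/
theorem noeth_up_of_local {B : Type*} [CommRing B] [IsLocalRing B] (hfg : (maximalIdeal B).FG)
    (hnil : IsNilpotent (maximalIdeal B)) : IsNoetherianRing (UP B) := by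
  classical
  obtain ⟨T, hT⟩ := hfg
  obtain ⟨n, hn⟩ := hnil
  apply IsNoetherianRing.of_prime
  intro P hP
  -- the sequences in the maximal ideal
  have h1 : ∀ g : ℕ → B, (∀ᶠ i in (UF : Filter ℕ), g i ∈ maximalIdeal B) → ((g : ℕ → B) : UP B) ∈ P := by
    intro g hg
    apply hP.mem_of_pow_mem n
    have : ((g : UP B)) ^ n = 0 := by
      have h2 : ((g : UP B)) ^ n = ((g ^ n : ℕ → B) : UP B) := rfl
      rw [h2]
      apply Germ.coe_eq.mpr
      filter_upwards [hg] with i hi
      have h3 : (g i) ^ n ∈ (maximalIdeal B) ^ n := Ideal.pow_mem_pow hi n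
      rw [hn] at h3
      simpa using h3
    rw [this]
    exact P.zero_mem
  have h2 : ∀ g : ℕ → B, ((g : ℕ → B) : UP B) ∈ P →
      ∀ᶠ i in (UF : Filter ℕ), g i ∈ maximalIdeal B := by
    intro g hg
    by_contra hcon
    rw [← Ultrafilter.eventually_not] at hcon
    have hu : ∀ i, g i ∉ maximalIdeal B → ∃ h : B, g i * h = 1 := by
      intro i hi
      rw [mem_maximalIdeal, mem_nonunits_iff, not_not] at hi
      exact hi.exists_right_inv
    let h : ℕ → B := fun i => if hi : g i ∉ maximalIdeal B then (hu i hi).choose else 0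
    have h3 : (g : UP B) * (h : UP B) = 1 := by
      have h4 : (g : UP B) * (h : UP B) = ((fun i => g i * h i : ℕ → B) : UP B) := rfl
      rw [h4]
      apply Germ.coe_eq.mpr
      filter_upwards [hcon] with i hi
      simp only [h, dif_pos hi]
      exact (hu i hi).choose_spec
    apply hP.ne_top
    rw [Ideal.eq_top_iff_one, ← h3]
    exact P.mul_mem_right _ hg
  refine ⟨T.image (fun b => ((fun _ => b : ℕ → B) : UP B)), ?_⟩
  apply le_antisymm
  · rw [Ideal.span_le]
    intro γ hγ
    rw [Finset.mem_coe, Finset.mem_image] at hγ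
    obtain ⟨b, hb, rfl⟩ := hγ
    apply h1
    apply Eventually.of_forall
    intro _
    rw [← hT]
    exact Submodule.subset_span hb
  · intro γ hγ
    induction γ using Germ.inductionOn with
    | _ g =>
    have h3 := h2 g hγ
    have h4 : ∀ i, g i ∈ maximalIdeal B → ∃ c : B → B, ∑ b ∈ T, c b * b = g i := by
      intro i hi
      rw [← hT] at hi
      obtain ⟨c, -, hc⟩ := Submodule.mem_span_finset.mp hi
      exact ⟨c, by simpa using hc⟩
    let c : B → ℕ → B := fun b i => if hi : g i ∈ maximalIdeal B then (h4 i hi).choose b else 0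
    have h5 : (g : UP B) = ∑ b ∈ T, ((c b : ℕ → B) : UP B) * (((fun _ => b : ℕ → B)) : UP B) := by
      have h6 : ∑ b ∈ T, ((c b : ℕ → B) : UP B) * (((fun _ => b : ℕ → B)) : UP B)
          = Germ.coeRingHom (UF : Filter ℕ) (∑ b ∈ T, c b * (fun _ => b)) := by
        rw [map_sum]
        rfl
      rw [h6]
      apply Germ.coe_eq.mpr
      filter_upwards [h3] with i hi
      have h7 : (∑ b ∈ T, c b * (fun _ => b) : ℕ → B) i = ∑ b ∈ T, c b i * b := by
        simp
      rw [h7]
      simp only [c, dif_pos hi]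
      exact (h4 i hi).choose_spec.symm
    rw [h5]
    refine Submodule.sum_mem _ fun b hb => ?_
    refine Ideal.mul_mem_left _ _ (Submodule.subset_span ?_)
    rw [Finset.mem_coe, Finset.mem_image]
    exact ⟨b, hb, rfl⟩

/-- A primary quotient of a Noetherian ring embeds in a ring with Noetherian ultrapower. -/
theorem exists_ring_of_primary {A : Type} [CommRing A] [IsNoetherianRing A] (I : Ideal A)
    (hI : I.IsPrimary) : ∃ (B : Type) (_ : CommRing B) (f : A →+* B),
      IsNoetherianRing (UP B) ∧ ∀ a, f a = 0 → a ∈ I := by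
  classical
  rw [Ideal.isPrimary_iff] at hI
  obtain ⟨hI1, hI2⟩ := hI
  have hzd : ∀ x y : A ⧸ I, x * y = 0 → x = 0 ∨ IsNilpotent y := by
    intro x y hxy
    obtain ⟨x, rfl⟩ := Ideal.Quotient.mk_surjective x
    obtain ⟨y, rfl⟩ := Ideal.Quotient.mk_surjective y
    rw [← map_mul, Ideal.Quotient.eq_zero_iff_mem] at hxy
    rcases hI2 hxy with h | ⟨n, hn⟩
    · exact Or.inl (Ideal.Quotient.eq_zero_iff_mem.mpr h)
    · refine Or.inr ⟨n, ?_⟩
      rw [← map_pow]
      exact Ideal.Quotient.eq_zero_iff_mem.mpr hn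
  have hnt : Nontrivial (A ⧸ I) := Ideal.Quotient.nontrivial_iff.mpr hI1
  have hprime : (nilradical (A ⧸ I)).IsPrime := by
    constructor
    · intro h
      have h1 : (1 : A ⧸ I) ∈ nilradical (A ⧸ I) := by
        rw [h]; trivial
      rw [mem_nilradical] at h1
      obtain ⟨n, hn⟩ := h1
      rw [one_pow] at hn
      exact one_ne_zero hn
    · intro x y hxy
      rw [mem_nilradical] at hxy
      obtain ⟨n, hn⟩ := hxy
      rw [mul_pow] at hn
      rcases hzd _ _ hn with h | h
      · left
        rw [mem_nilradical]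
        exact ⟨n, h⟩
      · right
        rw [mem_nilradical]
        exact h.of_pow
  have hreg : (nilradical (A ⧸ I)).primeCompl ≤ nonZeroDivisors (A ⧸ I) := by
    intro y hy
    rw [mem_nonZeroDivisors_iff_right]
    intro x hxy
    rcases hzd x y hxy with h | h
    · exact h
    · exact absurd (mem_nilradical.mpr h) hy
  let B := Localization.AtPrime (nilradical (A ⧸ I))
  have hinj : Function.Injective (algebraMap (A ⧸ I) B) := IsLocalization.injective B hreg
  have hNB : IsNoetherianRing B :=
    IsLocalization.isNoetherianRing (nilradical (A ⧸ I)).primeCompl B inferInstance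
  refine ⟨B, inferInstance, (algebraMap (A ⧸ I) B).comp (Ideal.Quotient.mk I), ?_, ?_⟩
  · refine noeth_up_of_local (B := B) (IsNoetherian.noetherian _) ?_
    obtain ⟨n, hn⟩ := IsNoetherianRing.isNilpotent_nilradical (A ⧸ I)
    refine ⟨n, ?_⟩
    rw [← Localization.AtPrime.map_eq_maximalIdeal, ← Ideal.map_pow, hn]
    simp
  · intro a ha
    rw [RingHom.comp_apply] at ha
    have h1 : Ideal.Quotient.mk I a = 0 := hinj (by rw [ha, map_zero])
    exact Ideal.Quotient.eq_zero_iff_mem.mp h1

/-- A Noetherian ring embeds in a finite product of rings with Noetherian ultrapowers. -/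
theorem exists_rings (A : Type) [CommRing A] [IsNoetherianRing A] :
    ∃ (J : Type) (_ : Finite J) (B : J → Type) (_ : ∀ j, CommRing (B j)) (f : ∀ j, A →+* B j),
      (∀ j, IsNoetherianRing (UP (B j))) ∧ ∀ a, (∀ j, f j a = 0) → a = 0 := by
  classical
  obtain ⟨s, hs, hs'⟩ := Submodule.isLasker A A (⊥ : Ideal A)
  have h : ∀ j : s, ∃ (B : Type) (_ : CommRing B) (f : A →+* B),
      IsNoetherianRing (UP B) ∧ ∀ a, f a = 0 → a ∈ j.1 := fun j =>
    exists_ring_of_primary j.1 (hs' j.2)
  choose B hB f hf1 hf2 using h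
  have hfin : Finite s := Finset.finite_toSet s
  -- reindex by `Fin n`
  obtain ⟨n, ⟨e⟩⟩ := Finite.exists_equiv_fin s
  refine ⟨Fin n, inferInstance, fun j => B (e.symm j), fun j => hB (e.symm j),
    fun j => f (e.symm j), fun j => hf1 (e.symm j), ?_⟩
  intro a ha
  have h1 : a ∈ s.inf id := by
    rw [Submodule.mem_finsetInf]
    intro j hj
    have key : ∀ j : s, f j a = 0 := by
      intro j
      obtain ⟨i, rfl⟩ := e.symm.surjective j
      exact ha i
    exact hf2 ⟨j, hj⟩ a (key ⟨j, hj⟩)
  rw [hs] at h1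
  simpa using h1

end Pool.Agent.Work.MP_41f637_al.Lin

end
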