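import Pool.Agent.Work.MP_41f637_al.ZarMain

/-!
# MP_41f637_al: ultrapowers of groups which are linear over finitely many fields
-/

set_option autoImplicit false

noncomputable section

namespace Pool.Agent.Work.MP_41f637_al.Lin

open TopologicalSpace Set Filter

attribute [local instance] zar

/-- the ultrafilter -/
abbrev UF : Ultrafilter ℕ := hyperfilter ℕ

/-- the ultrapower -/
abbrev UP (L : Type*) : Type _ := (UF : Filter ℕ).Germ L

section coords

variable {L : Type*} [Group L] {J : Type} {K : J → Type*} [∀ j, CommRing (K j)] {d : ℕ}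
  (φ : L →* ∀ j, GL (Fin d) (K j))

/-- coordinates on `L` -/
def cL (j : J) (p q : Fin d) (b : Bool) (g : L) : K j :=
  ((φ (if b then g else g⁻¹) j : GL (Fin d) (K j)) : Matrix (Fin d) (Fin d) (K j)) p q

/-- coordinates on the ultrapower -/
def cU (j : J) (p q : Fin d) (b : Bool) (γ : UP L) : UP (K j) :=
  Germ.map (cL φ j p q b) γ

theorem cL_mul_true (j : J) (p q : Fin d) (g h : L) :
    cL φ j p q true (g * h) = ∑ t, cL φ j p t true g * cL φ j t q true h := by
  simp [cL, Matrix.mul_apply]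

theorem cL_mul_false (j : J) (p q : Fin d) (g h : L) :
    cL φ j p q false (g * h) = ∑ t, cL φ j p t false h * cL φ j t q false g := by
  simp [cL, Matrix.mul_apply, mul_inv_rev]

theorem cU_mul_true (j : J) (p q : Fin d) (γ δ : UP L) :
    cU φ j p q true (γ * δ) = ∑ t, cU φ j p t true γ * cU φ j t q true δ := by
  induction γ, δ using Germ.inductionOn₂ with
  | _ g h =>
  have h1 : cU φ j p q true ((g : UP L) * (h : UP L))
      = Germ.coeRingHom (UF : Filter ℕ) (fun i => cL φ j p q true (g i * h i)) := rfl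
  rw [h1]
  have h2 : (fun i => cL φ j p q true (g i * h i))
      = ∑ t, (fun i => cL φ j p t true (g i)) * (fun i => cL φ j t q true (h i)) := by
    funext i
    simp [cL_mul_true]
  rw [h2, map_sum]
  rfl

theorem cU_mul_false (j : J) (p q : Fin d) (γ δ : UP L) :
    cU φ j p q false (γ * δ) = ∑ t, cU φ j p t false δ * cU φ j t q false γ := by
  induction γ, δ using Germ.inductionOn₂ with
  | _ g h =>
  have h1 : cU φ j p q false ((g : UP L) * (h : UP L))
      = Germ.coeRingHom (UF : Filter ℕ) (fun i => cL φ j p q false (g i * h i)) := rfl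
  rw [h1]
  have h2 : (fun i => cL φ j p q false (g i * h i))
      = ∑ t, (fun i => cL φ j p t false (h i)) * (fun i => cL φ j t q false (g i)) := by
    funext i
    simp [cL_mul_false]
  rw [h2, map_sum]
  rfl

theorem cU_inv (j : J) (p q : Fin d) (b : Bool) (γ : UP L) :
    cU φ j p q b γ⁻¹ = cU φ j p q (!b) γ := by
  induction γ using Germ.inductionOn with
  | _ g =>
  have h1 : cU φ j p q b ((g : UP L))⁻¹ = ((fun i => cL φ j p q b (g i)⁻¹ : ℕ → K j) : UP (K j)) :=
    rfl
  have h2 : cU φ j p q (!b) ((g : UP L)) = ((fun i => cL φ j p q (!b) (g i) : ℕ → K j) : UP (K j)) :=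
    rfl
  rw [h1, h2]
  congr 1
  funext i
  cases b <;> simp [cL]

theorem eq_one_iff [Finite J] (hφ : Function.Injective φ) (γ : UP L) :
    γ = 1 ↔ ∀ j p q, cU φ j p q true γ = cU φ j p q true 1 := by
  constructor
  · rintro rfl j p q
    rfl
  · induction γ using Germ.inductionOn with
    | _ g =>
    intro h
    have h' : ∀ j p q, ∀ᶠ i in (UF : Filter ℕ), cL φ j p q true (g i) = cL φ j p q true 1 := by
      intro j p q
      exact Germ.coe_eq.mp (h j p q)
    have h'' : ∀ᶠ i in (UF : Filter ℕ), ∀ j p q, cL φ j p q true (g i) = cL φ j p q true 1 := by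
      rw [eventually_all]
      intro j
      rw [eventually_all]
      intro p
      rw [eventually_all]
      exact h' j p
    apply Germ.coe_eq.mpr
    filter_upwards [h''] with i hi
    apply hφ
    funext j
    apply Units.ext
    ext p q
    have := hi j p q
    simpa [cL] using this

/-- the variables of the polynomials -/
abbrev Var (ι : Type) (d : ℕ) : Type := ι × (Fin d × Fin d) × Bool

/-- the coordinates of a point -/
def coords {ι : Type} (j : J) (x : ι → UP L) (s : Var ι d) : UP (K j) :=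
  cU φ j s.2.1.1 s.2.1.2 s.2.2 (x s.1)

theorem exists_poly {ι : Type} {f : (ι → UP L) → UP L} (hf : f ∈ WM (UP L) ι) :
    ∀ (j : J) (p q : Fin d) (b : Bool), ∃ P : MvPolynomial (Var ι d) (UP (K j)),
      ∀ x, cU φ j p q b (f x) = MvPolynomial.eval (coords φ j x) P := by
  induction hf using Subgroup.closure_induction with
  | mem f hf =>
    intro j p q b
    rcases hf with ⟨i, rfl⟩ | ⟨c, rfl⟩
    · exact ⟨MvPolynomial.X (i, (p, q), b), fun x => by simp [coords]⟩
    · exact ⟨MvPolynomial.C (cU φ j p q b c), fun x => by simp⟩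
  | one =>
    intro j p q b
    exact ⟨MvPolynomial.C (cU φ j p q b 1), fun x => by simp⟩
  | mul f f' _ _ h h' =>
    intro j p q b
    choose P hP using h j
    choose P' hP' using h' j
    cases b with
    | true =>
      refine ⟨∑ t, P p t true * P' t q true, fun x => ?_⟩
      rw [Pi.mul_apply, cU_mul_true, map_sum]
      refine Finset.sum_congr rfl fun t _ => ?_
      rw [map_mul, ← hP, ← hP']
    | false =>
      refine ⟨∑ t, P' p t false * P t q false, fun x => ?_⟩
      rw [Pi.mul_apply, cU_mul_false, map_sum]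
      refine Finset.sum_congr rfl fun t _ => ?_
      rw [map_mul, ← hP, ← hP']
  | inv f _ h =>
    intro j p q b
    obtain ⟨P, hP⟩ := h j p q (!b)
    refine ⟨P, fun x => ?_⟩
    rw [Pi.inv_apply, cU_inv, hP]

theorem noetherian_up [Finite J] (hK : ∀ j, IsNoetherianRing (UP (K j)))
    (hφ : Function.Injective φ) (ι : Type) [Finite ι] :
    NoetherianSpace (ι → UP L) := by
  classical
  rw [noetherianSpace_iff_isCompact]
  intro s
  apply isCompact_generateFrom rfl
  intro P hP hs
  -- the functions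
  let F : Set ((ι → UP L) → UP L) := {f | f ∈ WM (UP L) ι ∧ {x | f x ≠ 1} ∈ P}
  have hpoly : ∀ (f : F) (j : J) (p q : Fin d), ∃ Q : MvPolynomial (Var ι d) (UP (K j)),
      ∀ x, cU φ j p q true (f.1 x) = MvPolynomial.eval (coords φ j x) Q :=
    fun f j p q => exists_poly φ f.2.1 j p q true
  choose Q hQ using hpoly
  let A : ∀ j : J, Set (MvPolynomial (Var ι d) (UP (K j))) := fun j =>
    Set.range (fun t : F × Fin d × Fin d => Q t.1 j t.2.1 t.2.2 -
      MvPolynomial.C (cU φ j t.2.1 t.2.2 true 1))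
  have hA : ∀ j : J, ∃ T : Finset (MvPolynomial (Var ι d) (UP (K j))), ↑T ⊆ A j ∧
      Ideal.span (A j) = Ideal.span (T : Set (MvPolynomial (Var ι d) (UP (K j)))) := by
    intro j
    exact (Submodule.fg_span_iff_fg_span_finset_subset (A j)).mp (IsNoetherian.noetherian _)
  choose T hTA hT using hA
  -- finitely many functions
  have hT' : ∀ (j : J) (t : T j), ∃ f : F × Fin d × Fin d, Q f.1 j f.2.1 f.2.2 -
      MvPolynomial.C (cU φ j f.2.1 f.2.2 true 1) = t.1 := fun j t => hTA j t.2
  choose G hG using hT'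
  refine ⟨Set.range (fun t : Σ j : J, T j => {x | (G t.1 t.2).1.1 x ≠ 1}), ?_, ?_, ?_⟩
  · rintro _ ⟨t, rfl⟩
    exact (G t.1 t.2).1.2.2
  · exact Set.finite_range _
  · intro x hx
    by_contra hcon
    have hcon' : ∀ t : Σ j : J, T j, (G t.1 t.2).1.1 x = 1 := by
      intro t
      by_contra h
      exact hcon ⟨_, ⟨t, rfl⟩, h⟩
    have hvan : ∀ (j : J), ∀ R ∈ Ideal.span (A j), MvPolynomial.eval (coords φ j x) R = 0 := by
      intro j R hR
      rw [hT j] at hR
      have hle : Ideal.span (T j : Set (MvPolynomial (Var ι d) (UP (K j))))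
          ≤ RingHom.ker (MvPolynomial.eval (coords φ j x)) := by
        rw [Ideal.span_le]
        intro t ht
        change MvPolynomial.eval (coords φ j x) t = 0
        have h1 := hG j ⟨t, ht⟩
        change _ = t at h1
        rw [← h1, map_sub, ← hQ, MvPolynomial.eval_C, hcon' ⟨j, ⟨t, ht⟩⟩, sub_self]
      exact hle hR
    obtain ⟨U, hUP, hxU⟩ := hs hx
    obtain ⟨f, hf, rfl⟩ := hP hUP
    apply hxU
    rw [eq_one_iff φ hφ]
    intro j p q
    have h1 := hvan j (Q ⟨f, hf, hUP⟩ j p q - MvPolynomial.C (cU φ j p q true 1))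
      (Ideal.subset_span ⟨(⟨f, hf, hUP⟩, p, q), rfl⟩)
    rw [map_sub, ← hQ, MvPolynomial.eval_C, sub_eq_zero] at h1
    exact h1

end coords

section internal

variable {L : Type*} [Group L] {ι : Type}

/-- the point of the power of the ultrapower given by a family of sequences -/
def pt (x : ι → ℕ → L) : ι → UP L := fun t => ((x t : ℕ → L) : UP L)

omit [Group L] in
theorem pt_surj (x : ι → UP L) : ∃ y : ι → ℕ → L, pt y = x := by
  choose y hy using fun t => Quotient.exists_rep (x t)
  exact ⟨y, funext hy⟩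

/-- internal subsets -/
def Internal (Z : Set (ι → UP L)) : Prop :=
  ∃ S : ℕ → Set (ι → L), ∀ x : ι → ℕ → L, pt x ∈ Z ↔ ∀ᶠ i in (UF : Filter ℕ), (fun t => x t i) ∈ S i

theorem rep_WM {f : (ι → UP L) → UP L} (hf : f ∈ WM (UP L) ι) :
    ∃ F : ℕ → (ι → L) → L, ∀ x : ι → ℕ → L,
      f (pt x) = ((fun i => F i (fun t => x t i) : ℕ → L) : UP L) := by
  induction hf using Subgroup.closure_induction with
  | mem f hf =>
    rcases hf with ⟨i, rfl⟩ | ⟨c, rfl⟩
    · exact ⟨fun _ y => y i, fun x => rfl⟩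
    · induction c using Germ.inductionOn with
      | _ c => exact ⟨fun i _ => c i, fun x => rfl⟩
  | one => exact ⟨fun _ _ => 1, fun x => rfl⟩
  | mul f f' _ _ h h' =>
    obtain ⟨F, hF⟩ := h
    obtain ⟨F', hF'⟩ := h'
    refine ⟨fun i y => F i y * F' i y, fun x => ?_⟩
    rw [Pi.mul_apply, hF, hF']
    rfl
  | inv f _ h =>
    obtain ⟨F, hF⟩ := h
    refine ⟨fun i y => (F i y)⁻¹, fun x => ?_⟩
    rw [Pi.inv_apply, hF]
    rfl

theorem internal_ne {f : (ι → UP L) → UP L} (hf : f ∈ WM (UP L) ι) :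
    Internal {x : ι → UP L | f x ≠ 1} := by
  obtain ⟨F, hF⟩ := rep_WM hf
  refine ⟨fun i => {y | F i y ≠ 1}, fun x => ?_⟩
  have h1 : f (pt x) = 1 ↔ ∀ᶠ i in (UF : Filter ℕ), F i (fun t => x t i) = 1 := by
    rw [hF]
    exact Germ.coe_eq
  change ¬ (f (pt x) = 1) ↔ _
  rw [h1]
  exact Ultrafilter.eventually_not.symm

omit [Group L] in
theorem internal_compl {Z : Set (ι → UP L)} (h : Internal Z) : Internal Zᶜ := by
  obtain ⟨S, hS⟩ := h
  refine ⟨fun i => (S i)ᶜ, fun x => ?_⟩
  change ¬ (pt x ∈ Z) ↔ _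
  rw [hS]
  exact Ultrafilter.eventually_not.symm

omit [Group L] in
theorem internal_univ : Internal (univ : Set (ι → UP L)) :=
  ⟨fun _ => univ, fun x => by simp⟩

omit [Group L] in
theorem internal_inter {Z Z' : Set (ι → UP L)} (h : Internal Z) (h' : Internal Z') :
    Internal (Z ∩ Z') := by
  obtain ⟨S, hS⟩ := h
  obtain ⟨S', hS'⟩ := h'
  refine ⟨fun i => S i ∩ S' i, fun x => ?_⟩
  rw [mem_inter_iff, hS, hS', ← eventually_and]
  rfl

omit [Group L] in
theorem internal_empty : Internal (∅ : Set (ι → UP L)) := by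
  rw [← compl_univ]
  exact internal_compl internal_univ

omit [Group L] in
theorem internal_union {Z Z' : Set (ι → UP L)} (h : Internal Z) (h' : Internal Z') :
    Internal (Z ∪ Z') := by
  rw [← compl_compl (Z ∪ Z'), compl_union]
  exact internal_compl (internal_inter (internal_compl h) (internal_compl h'))

omit [Group L] in
theorem internal_biUnion {α : Type*} (T : Finset α) (Z : α → Set (ι → UP L))
    (h : ∀ a ∈ T, Internal (Z a)) : Internal (⋃ a ∈ T, Z a) := by
  classical
  induction T using Finset.induction_on with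
  | empty => simpa using internal_empty
  | insert a T ha ih =>
    rw [Finset.set_biUnion_insert]
    exact internal_union (h a (Finset.mem_insert_self a T))
      (ih fun b hb => h b (Finset.mem_insert_of_mem hb))

theorem internal_open [NoetherianSpace (ι → UP L)] {U : Set (ι → UP L)} (hU : IsOpen U) :
    Internal U := by
  induction hU with
  | basic U hU =>
    obtain ⟨f, hf, rfl⟩ := hU
    exact internal_ne hf
  | univ => exact internal_univ
  | inter U V _ _ hU hV => exact internal_inter hU hV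
  | sUnion S hS ih =>
    have hc : IsCompact (⋃₀ S) := NoetherianSpace.isCompact _
    obtain ⟨T, hT⟩ := hc.elim_finite_subcover (fun s : S => (s : Set (ι → UP L)))
      (fun s => hS s s.2) (by rw [sUnion_eq_iUnion])
    have : ⋃₀ S = ⋃ s ∈ T, (s : Set (ι → UP L)) := by
      apply Subset.antisymm hT
      intro x hx
      simp only [mem_iUnion] at hx
      obtain ⟨s, -, hx⟩ := hx
      exact ⟨s, s.2, hx⟩
    rw [this]
    exact internal_biUnion T _ fun s _ => ih s s.2

theorem internal_closed [NoetherianSpace (ι → UP L)] {Z : Set (ι → UP L)} (hZ : IsClosed Z) :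
    Internal Z := by
  rw [← compl_compl Z]
  exact internal_compl (internal_open hZ.isOpen_compl)

/-- countable saturation -/
theorem sat_up [NoetherianSpace (ι → UP L)] (X : Set (ι → UP L)) (Z : ℕ → Set (ι → UP L))
    (hX : IsClosed X) (hZ : ∀ l, IsClosed (Z l)) (hXZ : X ⊆ ⋃ l, Z l) :
    ∃ N : ℕ, X ⊆ ⋃ l ∈ Finset.range N, Z l := by
  classical
  by_contra hcon
  push Not at hcon
  obtain ⟨SX, hSX⟩ := internal_closed hX
  have hZ' : ∀ l, ∃ S : ℕ → Set (ι → L), ∀ x : ι → ℕ → L,
      pt x ∈ Z l ↔ ∀ᶠ i in (UF : Filter ℕ), (fun t => x t i) ∈ S i := fun l =>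
    internal_closed (hZ l)
  choose SZ hSZ using hZ'
  have hp : ∀ N, ∃ x : ι → ℕ → L, pt x ∈ X ∧ ∀ l < N, pt x ∉ Z l := by
    intro N
    obtain ⟨y, hyX, hyZ⟩ := not_subset.mp (hcon N)
    obtain ⟨x, rfl⟩ := pt_surj y
    refine ⟨x, hyX, fun l hl h => hyZ ?_⟩
    simp only [mem_iUnion]
    exact ⟨l, Finset.mem_range.mpr hl, h⟩
  choose x hxX hxZ using hp
  -- good indices
  let Gd : ℕ → ℕ → Prop := fun N i => (fun t => x N t i) ∈ SX i ∧ ∀ l < N, (fun t => x N t i) ∉ SZ l i
  have hGd : ∀ N, ∀ᶠ i in (UF : Filter ℕ), Gd N i := by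
    intro N
    have h1 : ∀ᶠ i in (UF : Filter ℕ), (fun t => x N t i) ∈ SX i := (hSX _).mp (hxX N)
    have h2 : ∀ᶠ i in (UF : Filter ℕ), ∀ l ∈ Finset.range N, (fun t => x N t i) ∉ SZ l i := by
      rw [Filter.eventually_all_finset]
      intro l hl
      have h3 := hxZ N l (Finset.mem_range.mp hl)
      rw [hSZ] at h3
      exact Ultrafilter.eventually_not.mpr h3
    filter_upwards [h1, h2] with i hi1 hi2
    exact ⟨hi1, fun l hl => hi2 l (Finset.mem_range.mpr hl)⟩
  let n : ℕ → ℕ := fun i => Nat.findGreatest (fun N => Gd N i) i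
  let y : ι → ℕ → L := fun t i => x (n i) t i
  have hy : ∀ N, ∀ᶠ i in (UF : Filter ℕ), (fun t => y t i) ∈ SX i ∧
      ∀ l < N, (fun t => y t i) ∉ SZ l i := by
    intro N
    have hge : ∀ᶠ i in (UF : Filter ℕ), N ≤ i := by
      have : ∀ᶠ i in (Filter.cofinite : Filter ℕ), N ≤ i := by
        rw [Nat.cofinite_eq_atTop]
        exact Filter.eventually_ge_atTop N
      exact Filter.hyperfilter_le_cofinite this
    filter_upwards [hGd N, hge] with i hi hNi
    have h1 : Gd (n i) i := Nat.findGreatest_spec (P := fun N => Gd N i) hNi hi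
    have h2 : N ≤ n i := Nat.le_findGreatest hNi hi
    exact ⟨h1.1, fun l hl => h1.2 l (lt_of_lt_of_le hl h2)⟩
  have hyX : pt y ∈ X := by
    rw [hSX]
    filter_upwards [hy 0] with i hi
    exact hi.1
  obtain ⟨l, hl⟩ := mem_iUnion.mp (hXZ hyX)
  rw [hSZ] at hl
  obtain ⟨i, hi1, hi2⟩ := (hl.and (hy (l + 1))).exists
  exact hi2.2 l (Nat.lt_succ_self l) hi1

end internal

theorem good_up {L : Type*} [Group L] {J : Type} [Finite J] {K : J → Type*} [∀ j, CommRing (K j)]
    (hK : ∀ j, IsNoetherianRing (UP (K j)))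
    {d : ℕ} (φ : L →* ∀ j, GL (Fin d) (K j)) (hφ : Function.Injective φ) : Good (UP L) where
  noeth ι _ := noetherian_up φ hK hφ ι
  sat ι _ X Z hX hZ hXZ := by
    have := noetherian_up φ hK hφ ι
    exact sat_up X Z hX hZ hXZ

end Pool.Agent.Work.MP_41f637_al.Lin

end
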